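import Pool.Agent.T2H40.MB.Cls

/-!
# Averaging
-/

set_option autoImplicit false
set_option linter.unusedSectionVars false

namespace Pool.Agent.T2H40.MB

open MvPolynomial Pool.Agent.Y716.Q Pool.Agent.Y716.C Pool.Agent.Y363.C7

section

variable {ι τ κ : Type} [Fintype ι] [Fintype τ] [Fintype κ] [DecidableEq ι] [DecidableEq τ]
  [DecidableEq κ] {b : τ → κ} {n : ℕ} {e : κ → ℕ}

/-- the constants and the hypotheses of the counting lemmas -/
structure Cst (ι : Type) [Fintype ι] [DecidableEq ι] (L : ℕ) (E n w Q N : ℕ)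
    (B a₀ γ θ H γ' η ρ Cb ε : ℝ) : Prop where
  H0 : 0 < H
  a0 : 0 < a₀
  B1 : 1 ≤ B
  η0 : 0 < η
  γ'0 : 0 < γ'
  Q1 : 1 ≤ Q
  ε0 : 0 ≤ ε
  hCb : ∀ (f : MvPolynomial ι ℤ) (R : ℝ), IsF (n + 2) R f → ∀ x : ι → ℝ, (∀ i, |x i| ≤ 2) →
      |aeval x f| ≤ Cb * R ∧ ∀ i, |aeval x (pderiv i f)| ≤ Cb * R
  Cb0 : 0 ≤ Cb
  ρ1 : ρ ≤ 1
  ρθ : Cb * ρ ≤ θ
  ργ : Cb * ρ ≤ γ / 2
  Mρ : Q * (3 * N) * (L * B ^ E) ≤ ρ * (a₀ * H)
  RL : ∀ H : ℝ, 0 < H → ∀ f : MvPolynomial ι ℤ, IsF (n + 2) (2 * H) f → ∀ (ξ : ι → ℝ) (i : ι),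
      (∃ r, ξ r = 1) → (∀ j, |ξ j| ≤ 2) → |aeval ξ f| ≤ 2 * θ * H →
      γ / 2 * H ≤ |aeval ξ (pderiv i f)| →
      ∃ ξ' : ι → ℝ, (∃ r, ξ' r = 1) ∧ (∀ j, |ξ' j| ≤ 1) ∧ aeval ξ' f = 0 ∧
        γ' * H ≤ |aeval ξ' (pderiv i f)|
  fit : η * (B * H) / Q * B ≤ N
  cls : ∀ A : ℝ, a₀ ≤ A → ∀ (fc : Fin 1 → MvPolynomial ι ℤ) (S J : ℕ) (xc : ι → ℤ) (ξ : ι → ℝ)
      (a : Fin 1 → ι) (Li : Matrix (Fin 1) (Fin 1) ℝ),
    PDataS w fc S J xc → RDataS (fun _ : Fin 1 => n) (A * H) γ' η fc ξ a Li → S * J = Q →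
    ∀ P : (Fin 1 → MvPolynomial ι ℤ) → Prop,
      (∀ g, (∀ j, IsF (n + 2) (η * (A * H) / Q) (g j)) → P g →
        ¬ ZeroNearS 1 ξ S xc (memS fc S J g)) →
      ∀ T : Finset (Fin 1 → MvPolynomial ι ℤ), (∀ g ∈ T, (∀ j, IsF (n + 2) (η * (A * H) / Q) (g j)) ∧
        P g) → (T.card : ℝ) ≤ ε * (sysZ ι (fun _ : Fin 1 => n) (η * (A * H) / Q)).card

open scoped Classical in
/-- counting in the class of `c` -/
theorem cls_count {w Q N : ℕ} {B a₀ γ θ H γ' η ρ Cb ε : ℝ}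
    (hC : Cst ι (Lam ι b (n + 2) e).card (∑ k, e k) n w Q N B a₀ γ θ H γ' η ρ Cb ε) {D : Dt ι τ}
    {c₀ u₀ : Lam ι b (n + 2) e → ℤ} (hD : GoodD w Q B a₀ γ θ H D c₀)
    (hu₀ : u₀ ∈ box (Lam ι b (n + 2) e) N) :
    (((box (Lam ι b (n + 2) e) N).filter fun g =>
      ¬ HasPt (fun μ => (c₀ μ + Q * u₀ μ) + Q * g μ)).card : ℝ) ≤
      ε * (box (Lam ι b (n + 2) e) (2 * N)).card := by
  obtain ⟨G', hG'⟩ : ∃ G', G' = sysZ ι (fun _ : Fin 1 => n) (η * (D.A * H) / Q) := ⟨_, rfl⟩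
  have hA : 0 < D.A := hC.a0.trans_le hD.A0
  have hQr : (0:ℝ) < Q := by exact_mod_cast hC.Q1
  have hR0 : 0 ≤ η * (D.A * H) / Q := by
    have := hC.η0; have := hC.H0
    positivity
  have hG0 : (0:ℝ) < G'.card := by
    rw [hG', card_sysZ]
    exact_mod_cast Finset.prod_pos fun j _ => card_forms_pos (ι := ι) (n + 2) hR0
  have hpert : ∀ g ∈ G', ∀ μ : Lam ι b (n + 2) e, |(pert (g 0) D.h : Lam ι b (n + 2) e → ℤ) μ| ≤
      (N : ℤ) := by
    intro g hg μ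
    rw [hG'] at hg
    have h1 := (mem_sysZ.mp hg 0).2 (px μ.1)
    have h2 := hD.hh (py μ.1)
    have h3 : |(((pert (g 0) D.h : Lam ι b (n + 2) e → ℤ) μ : ℤ) : ℝ)| ≤ (N : ℝ) := by
      unfold pert
      push_cast
      rw [abs_mul]
      refine (mul_le_mul h1 h2 (abs_nonneg _) hR0).trans (le_trans ?_ hC.fit)
      apply mul_le_mul_of_nonneg_right _ (by linarith [hC.B1])
      apply div_le_div_of_nonneg_right _ hQr.le
      exact mul_le_mul_of_nonneg_left (mul_le_mul_of_nonneg_right hD.A1 hC.H0.le) hC.η0.le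
    exact_mod_cast h3
  have h1 : ((box (Lam ι b (n + 2) e) N).filter fun g =>
      ¬ HasPt (fun μ => (c₀ μ + Q * u₀ μ) + Q * g μ)).card * G'.card ≤
      ∑ g' ∈ box (Lam ι b (n + 2) e) (2 * N), (G'.filter fun g =>
        ¬ HasPt (fun μ => (c₀ μ + Q * (u₀ μ + g' μ)) +
          Q * (pert (g 0) D.h : Lam ι b (n + 2) e → ℤ) μ)).card := by
    rw [← Finset.card_product, ← Finset.card_sigma]
    apply Finset.card_le_card_of_injOn
      (fun r => (⟨fun μ => r.1 μ - (pert (r.2 0) D.h : Lam ι b (n + 2) e → ℤ) μ, r.2⟩ :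
        (_ : Lam ι b (n + 2) e → ℤ) × (Fin 1 → MvPolynomial ι ℤ)))
    · rintro ⟨g, g2⟩ hr
      simp only [Finset.coe_product, Set.mem_prod, Finset.mem_coe, Finset.mem_filter] at hr
      obtain ⟨⟨h1, h2⟩, h4⟩ := hr
      simp only [Finset.mem_coe, Finset.mem_sigma, Finset.mem_filter]
      refine ⟨mem_box.2 fun μ => ?_, h4, ?_⟩
      · have h5 := mem_box.1 h1 μ
        have h6 := hpert g2 h4 μ
        have h7 := abs_sub (g μ) ((pert (g2 0) D.h : Lam ι b (n + 2) e → ℤ) μ)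
        push_cast
        linarith
      · have : (fun μ => (c₀ μ + Q * (u₀ μ + (g μ - (pert (g2 0) D.h : Lam ι b (n + 2) e → ℤ) μ))) +
          Q * (pert (g2 0) D.h : Lam ι b (n + 2) e → ℤ) μ) =
            fun μ => (c₀ μ + Q * u₀ μ) + Q * g μ := by
          funext μ
          ring
        rw [this]
        exact h2
    · rintro ⟨g, g2⟩ _ ⟨g', g2'⟩ _ heq
      simp only [Sigma.mk.injEq] at heq
      obtain ⟨h1, h2⟩ := heq
      have h2' : g2 = g2' := eq_of_heq h2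
      subst h2'
      have : g = g' := by
        funext μ
        have := congrFun h1 μ
        exact sub_left_injective this
      rw [this]
  have h2 : ∀ g' ∈ box (Lam ι b (n + 2) e) (2 * N), ((G'.filter fun g =>
        ¬ HasPt (fun μ => (c₀ μ + Q * (u₀ μ + g' μ)) +
          Q * (pert (g 0) D.h : Lam ι b (n + 2) e → ℤ) μ)).card : ℝ) ≤ ε * G'.card := by
    intro g' hg'
    obtain ⟨a1, ξ, a, Li, a2⟩ := shift_ok (u := fun μ => u₀ μ + g' μ) (M := 3 * N) hD hC.H0 hC.a0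
      hC.B1 hC.η0.le (by positivity) (fun μ => by
        have h5 := mem_box.1 hu₀ μ
        have h6 := mem_box.1 hg' μ
        have h7 := abs_add_le (u₀ μ) (g' μ)
        have h8 : |u₀ μ + g' μ| ≤ 3 * (N : ℤ) := by
          push_cast at h6
          linarith
        exact_mod_cast h8) hC.γ'0 hC.hCb hC.Cb0 hC.ρ1 hC.ρθ hC.ργ hC.Mρ hC.RL
    rw [hG']
    exact hC.cls D.A hD.A0 _ D.S D.J D.xc ξ a Li a1 a2 hD.sj
      (fun g => ¬ HasPt (fun μ => (c₀ μ + Q * (u₀ μ + g' μ)) +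
          Q * (pert (g 0) D.h : Lam ι b (n + 2) e → ℤ) μ)) (fun g hg hP hz => hP (by
        have hg0 : (fun _ : Fin 1 => g 0) = g := by
          funext j
          rw [Subsingleton.elim j 0]
        exact hasPt_of (g := g 0) hD.blk hD.hy hD.sj (hg 0).1 (by rw [hg0]; exact hz))) _
      (fun g hg => by
        rw [Finset.mem_filter] at hg
        exact ⟨mem_sysZ.mp hg.1, hg.2⟩)
  have h3 : (((box (Lam ι b (n + 2) e) N).filter fun g =>
      ¬ HasPt (fun μ => (c₀ μ + Q * u₀ μ) + Q * g μ)).card : ℝ) * G'.card ≤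
      (ε * (box (Lam ι b (n + 2) e) (2 * N)).card) * G'.card := by
    have h4 := (Nat.cast_le (α := ℝ)).mpr h1
    push_cast at h4
    refine h4.trans ((Finset.sum_le_card_nsmul _ _ _ h2).trans (le_of_eq ?_))
    rw [nsmul_eq_mul]
    ring
  exact le_of_mul_le_mul_right h3 hG0

open scoped Classical in
/-- **Averaging.** -/
theorem avg_count {w Q N H₁ : ℕ} {B a₀ γ θ H γ' η ρ Cb ε : ℝ}
    (hC : Cst ι (Lam ι b (n + 2) e).card (∑ k, e k) n w Q N B a₀ γ θ H γ' η ρ Cb ε)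
    (hN : Q * N ≤ H₁) :
    (((box (Lam ι b (n + 2) e) H₁).filter fun c => (∃ D : Dt ι τ, GoodD w Q B a₀ γ θ H D c) ∧
      ¬ HasPt c).card : ℝ) * (box (Lam ι b (n + 2) e) N).card ≤
      ε * ((box (Lam ι b (n + 2) e) (2 * H₁)).card * (box (Lam ι b (n + 2) e) (2 * N)).card) := by
  obtain ⟨Λ, hΛ⟩ : ∃ Λ, Λ = Lam ι b (n + 2) e := ⟨_, rfl⟩
  have h1 : ((box (Lam ι b (n + 2) e) H₁).filter fun c =>
      (∃ D : Dt ι τ, GoodD w Q B a₀ γ θ H D c) ∧ ¬ HasPt c).card *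
      (box (Lam ι b (n + 2) e) N).card ≤
      ∑ c ∈ (box (Lam ι b (n + 2) e) (2 * H₁)).filter (fun c => ∃ (D : Dt ι τ)
        (c₀ u₀ : Lam ι b (n + 2) e → ℤ), GoodD w Q B a₀ γ θ H D c₀ ∧
          u₀ ∈ box (Lam ι b (n + 2) e) N ∧ c = fun μ => c₀ μ + Q * u₀ μ),
        ((box (Lam ι b (n + 2) e) N).filter fun g => ¬ HasPt (fun μ => c μ + Q * g μ)).card := by
    rw [← Finset.card_product, ← Finset.card_sigma]
    apply Finset.card_le_card_of_injOn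
      (fun r => (⟨fun μ => r.1 μ - Q * r.2 μ, r.2⟩ :
        (_ : Lam ι b (n + 2) e → ℤ) × (Lam ι b (n + 2) e → ℤ)))
    · rintro ⟨c, g⟩ hr
      simp only [Finset.coe_product, Set.mem_prod, Finset.mem_coe, Finset.mem_filter] at hr
      obtain ⟨⟨h1, ⟨D, hD⟩, h3⟩, h4⟩ := hr
      simp only [Finset.mem_coe, Finset.mem_sigma, Finset.mem_filter]
      refine ⟨⟨mem_box.2 fun μ => ?_, D, c, fun μ => - g μ, hD, mem_box.2 fun μ => ?_, ?_⟩, h4, ?_⟩
      · have h5 := mem_box.1 h1 μ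
        have h6 := mem_box.1 h4 μ
        have h7 := abs_sub (c μ) ((Q : ℤ) * g μ)
        rw [abs_mul, Nat.abs_cast] at h7
        have h8 : (Q : ℤ) * |g μ| ≤ Q * N := mul_le_mul_of_nonneg_left h6 (by positivity)
        have h9 : ((Q : ℤ) * N) ≤ H₁ := by exact_mod_cast hN
        push_cast
        linarith
      · rw [abs_neg]
        exact mem_box.1 h4 μ
      · funext μ
        ring
      · have : (fun μ => c μ - Q * g μ + Q * g μ) = c := by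
          funext μ
          ring
        rw [this]
        exact h3
    · rintro ⟨f, g⟩ _ ⟨f', g'⟩ _ heq
      simp only [Sigma.mk.injEq] at heq
      obtain ⟨h1, h2⟩ := heq
      have h2' : g = g' := eq_of_heq h2
      subst h2'
      have : f = f' := by
        funext μ
        have := congrFun h1 μ
        exact sub_left_injective this
      rw [this]
  have h4 := (Nat.cast_le (α := ℝ)).mpr h1
  push_cast at h4
  refine h4.trans ?_
  have h5 : ∀ c ∈ (box (Lam ι b (n + 2) e) (2 * H₁)).filter (fun c => ∃ (D : Dt ι τ)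
        (c₀ u₀ : Lam ι b (n + 2) e → ℤ), GoodD w Q B a₀ γ θ H D c₀ ∧
          u₀ ∈ box (Lam ι b (n + 2) e) N ∧ c = fun μ => c₀ μ + Q * u₀ μ),
        (((box (Lam ι b (n + 2) e) N).filter fun g => ¬ HasPt (fun μ => c μ + Q * g μ)).card : ℝ) ≤
          ε * (box (Lam ι b (n + 2) e) (2 * N)).card := by
    intro c hc
    rw [Finset.mem_filter] at hc
    obtain ⟨-, D, c₀, u₀, hD, hu₀, rfl⟩ := hc
    exact cls_count hC hD hu₀
  refine (Finset.sum_le_card_nsmul _ _ _ h5).trans ?_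
  rw [nsmul_eq_mul]
  have h6 : ((((box (Lam ι b (n + 2) e) (2 * H₁)).filter (fun c => ∃ (D : Dt ι τ)
        (c₀ u₀ : Lam ι b (n + 2) e → ℤ), GoodD w Q B a₀ γ θ H D c₀ ∧
          u₀ ∈ box (Lam ι b (n + 2) e) N ∧ c = fun μ => c₀ μ + Q * u₀ μ)).card : ℕ) : ℝ) ≤
      (box (Lam ι b (n + 2) e) (2 * H₁)).card := by
    exact_mod_cast Finset.card_filter_le _ _
  calc _ ≤ ((box (Lam ι b (n + 2) e) (2 * H₁)).card : ℝ) *
        (ε * (box (Lam ι b (n + 2) e) (2 * N)).card) :=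
        mul_le_mul_of_nonneg_right h6 (mul_nonneg hC.ε0 (Nat.cast_nonneg _))
    _ = _ := by ring

end

end Pool.Agent.T2H40.MB
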