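import Pool.Agent.T2H40.MB.Lam

/-!
# The charts of a product of projective spaces
-/

set_option autoImplicit false
set_option linter.unusedSectionVars false

namespace Pool.Agent.T2H40.MB

open MvPolynomial Pool.Agent.Y716.Q

section

variable {ι τ κ : Type} [Fintype ι] [Fintype τ] [Fintype κ] [DecidableEq ι] [DecidableEq τ]
  [DecidableEq κ] {b : τ → κ} {d : ℕ} {e : κ → ℕ}

/-- the chart `x r = 1`, `y (s k) = 1` -/
def ch (r : ι) (s : κ → τ) : Finset (ι ⊕ τ) :=
  insert (Sum.inl r) (Finset.univ.image fun k => Sum.inr (s k))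

/-- the directions `x i`, `i ≠ r` -/
def xd (τ : Type) [DecidableEq τ] (r : ι) : Finset (ι ⊕ τ) :=
  (Finset.univ.filter fun i => i ≠ r).image Sum.inl

theorem inl_mem_ch {r i : ι} {s : κ → τ} : (Sum.inl i : ι ⊕ τ) ∈ ch r s ↔ i = r := by
  unfold ch
  rw [Finset.mem_insert, Finset.mem_image]
  constructor
  · rintro (h | ⟨k, -, h⟩)
    · exact Sum.inl_injective h
    · cases h
  · rintro rfl
    exact Or.inl rfl

theorem inr_mem_ch {r : ι} {v : τ} {s : κ → τ} :
    (Sum.inr v : ι ⊕ τ) ∈ ch r s ↔ ∃ k, s k = v := by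
  unfold ch
  rw [Finset.mem_insert, Finset.mem_image]
  constructor
  · rintro (h | ⟨k, -, h⟩)
    · cases h
    · exact ⟨k, Sum.inr_injective h⟩
  · rintro ⟨k, rfl⟩
    exact Or.inr ⟨k, Finset.mem_univ _, rfl⟩

theorem mem_xd {r i : ι} : (Sum.inl i : ι ⊕ τ) ∈ xd τ r ↔ i ≠ r := by
  unfold xd
  rw [Finset.mem_image]
  constructor
  · rintro ⟨j, hj, h⟩
    rw [← Sum.inl_injective h]
    exact (Finset.mem_filter.1 hj).2
  · intro h
    exact ⟨i, Finset.mem_filter.2 ⟨Finset.mem_univ _, h⟩, rfl⟩

theorem xd_nonempty (h : 1 < Fintype.card ι) (r : ι) : (xd τ r).Nonempty := by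
  obtain ⟨i, hi⟩ := Fintype.exists_ne_of_one_lt_card h r
  exact ⟨Sum.inl i, mem_xd.2 hi⟩

theorem xd_disjoint (r : ι) (s : κ → τ) : Disjoint (xd τ r) (ch r s) := by
  rw [Finset.disjoint_left]
  rintro (i | v) h1 h2
  · exact mem_xd.1 h1 (inl_mem_ch.1 h2)
  · unfold xd at h1
    rw [Finset.mem_image] at h1
    obtain ⟨_, _, h⟩ := h1
    cases h

/-- the exponent with the given values -/
noncomputable def ex (f : ι → ℕ) (g : τ → ℕ) : ι ⊕ τ →₀ ℕ :=
  Finsupp.equivFunOnFinite.symm (Sum.elim f g)

@[simp] theorem ex_inl (f : ι → ℕ) (g : τ → ℕ) (i : ι) : ex f g (Sum.inl i) = f i := rfl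

@[simp] theorem ex_inr (f : ι → ℕ) (g : τ → ℕ) (v : τ) : ex f g (Sum.inr v) = g v := rfl

theorem chart_ch (he : ∀ k, 1 ≤ e k) (r : ι) {s : κ → τ} (hs : ∀ k, b (s k) = k) :
    Chart (Lam ι b (d + 1) e) (ch r s) := by
  have hinj : Function.Injective s := fun k k' h => by rw [← hs k, ← hs k', h]
  have hsum : ∀ k, ∑ v, (if b v = k then (if v = s (b v) then e (b v) else 0) else 0) = e k := by
    intro k
    rw [Finset.sum_eq_single (s k)]
    · rw [if_pos (hs k), hs k, if_pos rfl]
    · intro v _ hv
      by_cases h : b v = k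
      · rw [if_pos h, if_neg]
        intro h'
        exact hv (by rw [h', h])
      · rw [if_neg h]
    · intro h; exact absurd (Finset.mem_univ _) h
  constructor
  · refine ⟨ex (fun i => if i = r then d + 1 else 0) (fun v => if v = s (b v) then e (b v) else 0),
      mem_Lam.2 ⟨?_, fun k => ?_⟩, ?_⟩
    · simp only [ex_inl]
      rw [Finset.sum_ite_eq' Finset.univ r, if_pos (Finset.mem_univ _)]
    · simp only [ex_inr]
      exact hsum k
    · rintro (i | v) hv
      · rw [ex_inl, if_neg fun h => hv (inl_mem_ch.2 h)]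
      · rw [ex_inr, if_neg fun h => hv (inr_mem_ch.2 ⟨b v, h.symm⟩)]
  · rintro (i | v) hv
    · have hir : i ≠ r := fun h => hv (inl_mem_ch.2 h)
      refine ⟨ex (fun j => (if j = r then d else 0) + if j = i then 1 else 0)
        (fun v => if v = s (b v) then e (b v) else 0), mem_Lam.2 ⟨?_, fun k => ?_⟩, ?_, ?_⟩
      · simp only [ex_inl]
        rw [Finset.sum_add_distrib, Finset.sum_ite_eq' Finset.univ r,
          Finset.sum_ite_eq' Finset.univ i, if_pos (Finset.mem_univ _), if_pos (Finset.mem_univ _)]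
      · simp only [ex_inr]
        exact hsum k
      · rw [ex_inl, if_neg hir, if_pos rfl]
      · rintro (j | u) hw hne
        · rw [ex_inl, if_neg fun h => hw (inl_mem_ch.2 h), if_neg fun h => hne (by rw [h])]
        · rw [ex_inr, if_neg fun h => hw (inr_mem_ch.2 ⟨b u, h.symm⟩)]
    · have hvs : ∀ k, v ≠ s k := fun k h => hv (inr_mem_ch.2 ⟨k, h.symm⟩)
      refine ⟨ex (fun j => if j = r then d + 1 else 0)
        (fun u => (if u = s (b u) then (if b u = b v then e (b u) - 1 else e (b u)) else 0) +
          if u = v then 1 else 0), mem_Lam.2 ⟨?_, fun k => ?_⟩, ?_, ?_⟩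
      · simp only [ex_inl]
        rw [Finset.sum_ite_eq' Finset.univ r, if_pos (Finset.mem_univ _)]
      · simp only [ex_inr]
        have h1 : ∀ u, (if b u = k then (if u = s (b u) then
            (if b u = b v then e (b u) - 1 else e (b u)) else 0) + (if u = v then 1 else 0) else 0) =
            (if u = s k then (if k = b v then e k - 1 else e k) else 0) +
            (if u = v then (if b v = k then 1 else 0) else 0) := by
          intro u
          by_cases hu : b u = k
          · rw [if_pos hu, hu]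
            by_cases huv : u = v
            · rw [if_pos huv, if_pos huv, ← huv, if_pos hu]
            · rw [if_neg huv, if_neg huv]
          · rw [if_neg hu, if_neg (fun h => hu (by rw [h, hs])), zero_add]
            by_cases huv : u = v
            · rw [if_pos huv, ← huv, if_neg hu]
            · rw [if_neg huv]
        rw [Finset.sum_congr rfl fun u _ => h1 u, Finset.sum_add_distrib,
          Finset.sum_ite_eq' Finset.univ (s k), Finset.sum_ite_eq' Finset.univ v,
          if_pos (Finset.mem_univ _), if_pos (Finset.mem_univ _)]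
        by_cases hk : b v = k
        · rw [if_pos hk, if_pos hk.symm]
          have := he k
          omega
        · rw [if_neg hk, if_neg (fun h => hk h.symm), add_zero]
      · rw [ex_inr, if_neg (hvs _), if_pos rfl]
      · rintro (j | u) hw hne
        · rw [ex_inl, if_neg fun h => hw (inl_mem_ch.2 h)]
        · rw [ex_inr, if_neg fun h => hw (inr_mem_ch.2 ⟨b u, h.symm⟩), if_neg fun h => hne (by rw [h])]

end

end Pool.Agent.T2H40.MB
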