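import Pool.Agent.T2H40.MB.Lam
import Pool.Agent.R465.CV.Loc

/-!
# The choice of the point of the base
-/

set_option autoImplicit false
set_option linter.unusedSectionVars false

namespace Pool.Agent.T2H40.MB

open MvPolynomial Pool.Agent.Y716.Q

section

variable {τ κ : Type} [Fintype τ] [Fintype κ] [DecidableEq τ] [DecidableEq κ]

/-- the coordinates of each block have no common factor -/
def PrimB (b : τ → κ) (y : τ → ℤ) : Prop :=
  ∀ k, ∀ D : ℤ, (∀ v, b v = k → D ∣ y v) → IsUnit D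

theorem exists_choice (b : τ → κ) {P : Finset ℕ} (hP : ∀ p ∈ P, p.Prime) {M : ℕ} (hM : 1 ≤ M)
    {δ : ℝ} (hδ : 0 < δ) (hδ1 : δ ≤ 1 / 2) : ∃ T : ℝ, 1 ≤ T ∧
    ∀ (zp : ℕ → τ → ℤ) (υ : τ → ℝ), (∀ p ∈ P, ∀ k, ∃ v, b v = k ∧ zp p v = 1) →
      (∀ k, ∃ v, b v = k ∧ υ v = 1) →
      ∃ (y : τ → ℤ) (t : κ → ℝ) (l : ℕ → κ → ℤ), (∀ k, 0 < t k ∧ t k ≤ T) ∧
        (∀ v, |((y v : ℤ) : ℝ) - t (b v) * υ v| ≤ δ * t (b v)) ∧
        (∀ p ∈ P, ∀ v, (p : ℤ) ^ M ∣ y v - l p (b v) * zp p v) ∧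
        (∀ p ∈ P, ∀ k, ¬ (p : ℤ) ∣ l p k) ∧ PrimB b y := by
  obtain ⟨Q, hQ⟩ : ∃ Q : ℕ, Q = (∏ p ∈ P, p) ^ M := ⟨_, rfl⟩
  have hQ0 : 0 < Q := by
    rw [hQ]
    exact pow_pos (Finset.prod_pos fun p hp => (hP p hp).pos) _
  have hQ1 : (1 : ℝ) ≤ Q := by exact_mod_cast hQ0
  refine ⟨Q / δ, ?_, ?_⟩
  · rw [le_div_iff₀ hδ]
    linarith
  intro zp υ hzp hυ
  obtain ⟨T, hT⟩ : ∃ T : ℝ, T = Q / δ := ⟨_, rfl⟩
  have hTδ : δ * T = Q := by rw [hT]; field_simp
  have hT0 : 0 < T := by rw [hT]; positivity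
  rw [← hT]
  obtain ⟨C, hC1, hC2⟩ := Pool.Agent.R465.CV.crt_round hP M (fun p v _ => zp p v)
    (fun v _ : τ => T * υ v)
  rw [← hQ] at hC2
  obtain ⟨y0, hy0⟩ : ∃ y0 : τ → ℤ, y0 = fun v => C v v := ⟨_, rfl⟩
  have h1 : ∀ p ∈ P, ∀ v, (p : ℤ) ^ M ∣ y0 v - zp p v := fun p hp v => by
    rw [hy0]; exact hC1 p hp v v
  have h2 : ∀ v, |((y0 v : ℤ) : ℝ) - T * υ v| ≤ Q := fun v => by
    rw [hy0]; exact hC2 v v
  obtain ⟨g, hg⟩ : ∃ g : κ → ℕ, g = fun k =>
    ((Finset.univ.filter fun v => b v = k).gcd y0).natAbs := ⟨_, rfl⟩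
  have hne : ∀ k, ∃ v, b v = k ∧ y0 v ≠ 0 := by
    intro k
    obtain ⟨v, hv, hυv⟩ := hυ k
    refine ⟨v, hv, fun h0 => ?_⟩
    have h3 := h2 v
    rw [h0, hυv, Int.cast_zero, zero_sub, mul_one, abs_neg, abs_of_pos hT0] at h3
    have h4 : δ * T ≤ 1 / 2 * T := mul_le_mul_of_nonneg_right hδ1 hT0.le
    linarith
  have hgd : ∀ v, (g (b v) : ℤ) ∣ y0 v := by
    intro v
    rw [hg]
    exact Int.natAbs_dvd.2 (Finset.gcd_dvd (Finset.mem_filter.2 ⟨Finset.mem_univ _, rfl⟩))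
  have hg0 : ∀ k, 0 < g k := by
    intro k
    rw [Nat.pos_iff_ne_zero]
    intro h0
    obtain ⟨v, rfl, hv⟩ := hne k
    have := hgd v
    rw [h0, Nat.cast_zero, zero_dvd_iff] at this
    exact hv this
  have hgr : ∀ k, (1 : ℝ) ≤ g k := fun k => by exact_mod_cast hg0 k
  choose y hy using hgd
  -- the inverses
  have hinv : ∀ p ∈ P, ∀ k, ∃ l : ℤ, (p : ℤ) ^ M ∣ l * g k - 1 ∧ ¬ (p : ℤ) ∣ l := by
    intro p hp k
    have hpp := Nat.prime_iff_prime_int.1 (hP p hp)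
    have hpM : (p : ℤ) ∣ (p : ℤ) ^ M := dvd_pow_self _ (by omega)
    have hnd : ¬ (p : ℤ) ∣ (g k : ℤ) := by
      intro hd
      obtain ⟨v, rfl, hv⟩ := hzp p hp k
      have h3 : (p : ℤ) ∣ y0 v := hd.trans (by rw [hy v]; exact dvd_mul_right _ _)
      have h4 := hpM.trans (h1 p hp v)
      rw [hv] at h4
      have h5 := dvd_sub h3 h4
      rw [sub_sub_cancel] at h5
      exact hpp.not_isUnit (isUnit_of_dvd_one h5)
    have hcop : IsCoprime (g k : ℤ) ((p : ℤ) ^ M) :=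
      ((Prime.coprime_iff_not_dvd hpp).2 hnd).symm.pow_right
    obtain ⟨l, m, hlm⟩ := hcop
    have h6 : (p : ℤ) ^ M ∣ l * g k - 1 := ⟨-m, by rw [← hlm]; ring⟩
    refine ⟨l, h6, fun hd => ?_⟩
    have h7 := dvd_sub (hd.mul_right (g k : ℤ)) (hpM.trans h6)
    rw [sub_sub_cancel] at h7
    exact hpp.not_isUnit (isUnit_of_dvd_one h7)
  choose! l hl1 hl2 using hinv
  refine ⟨y, fun k => T / g k, l, fun k => ⟨div_pos hT0 (by linarith [hgr k]), ?_⟩, fun v => ?_,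
    fun p hp v => ?_, hl2, fun k D hD => ?_⟩
  · rw [div_le_iff₀ (by linarith [hgr k])]
    exact le_mul_of_one_le_right hT0.le (hgr k)
  · have h3 : ((y0 v : ℤ) : ℝ) = g (b v) * y v := by
      have := congrArg (fun z : ℤ => (z : ℝ)) (hy v)
      push_cast at this
      exact this
    have hgv : (0 : ℝ) < g (b v) := by linarith [hgr (b v)]
    have h4 : ((y v : ℤ) : ℝ) - T / g (b v) * υ v = ((y0 v : ℝ) - T * υ v) / g (b v) := by
      rw [h3]
      field_simp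
    rw [h4, abs_div, abs_of_pos hgv, mul_div_assoc']
    apply div_le_div_of_nonneg_right _ hgv.le
    rw [hTδ]
    exact h2 v
  · have h3 : y v - l p (b v) * zp p v = l p (b v) * (y0 v - zp p v) -
        (l p (b v) * g (b v) - 1) * y v := by
      rw [hy v]
      ring
    rw [h3]
    exact dvd_sub ((h1 p hp v).mul_left _) ((hl1 p hp (b v)).mul_right _)
  · have h3 : D * g k ∣ (Finset.univ.filter fun v => b v = k).gcd y0 := by
      refine Finset.dvd_gcd fun v hv => ?_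
      rw [Finset.mem_filter] at hv
      have h4 := hy v
      rw [hv.2] at h4
      rw [h4, mul_comm D]
      exact mul_dvd_mul_left _ (hD v hv.2)
    have h5 : D * g k ∣ (g k : ℤ) := by
      have : (g k : ℤ) = |(Finset.univ.filter fun v => b v = k).gcd y0| := by
        rw [hg, Int.abs_eq_natAbs]
      have h8 := h3
      rw [← dvd_abs, ← this] at h8
      exact h8
    have h6 : (g k : ℤ) ≠ 0 := by exact_mod_cast (hg0 k).ne'
    obtain ⟨m, hm⟩ := h5
    refine IsUnit.of_mul_eq_one m ?_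
    have h7 : (g k : ℤ) * (D * m) = g k * 1 := by
      rw [mul_one]
      conv_rhs => rw [hm]
      ring
    exact mul_left_cancel₀ h6 h7

/-- a form with the value one -/
theorem exists_one {b : τ → κ} {e : κ → ℕ} {y : τ → ℤ} (hy : PrimB b y) :
    ∃ h : (τ →₀ ℕ) → ℤ, (∀ β, β ∉ monB b e → h β = 0) ∧
      ∑ β ∈ monB b e, h β * ∏ v, y v ^ (β v) = 1 := by
  classical
  obtain ⟨I, hI⟩ : ∃ I : Ideal ℤ, I = Ideal.span ((fun β : τ →₀ ℕ => ∏ v, y v ^ (β v)) ''
    (monB b e : Set (τ →₀ ℕ))) := ⟨_, rfl⟩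
  have htop : I = ⊤ := by
    by_contra hne
    obtain ⟨m, hm, hIm⟩ := Ideal.exists_le_maximal I hne
    have hmp := hm.isPrime
    have hk : ∀ k, ∃ v, b v = k ∧ y v ∉ m := by
      intro k
      by_contra hcon
      push Not at hcon
      obtain ⟨D, hD⟩ := (IsPrincipalIdealRing.principal m).principal
      have hD' : m = Ideal.span {D} := hD
      have h1 := hy k D fun v hv => by
        have := hcon v hv
        rw [hD', Ideal.mem_span_singleton] at this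
        exact this
      apply hmp.ne_top
      rw [hD', Ideal.span_singleton_eq_top]
      exact h1
    choose v hv hvm using hk
    obtain ⟨β, hβ⟩ : ∃ β : τ →₀ ℕ, β = ∑ k, Finsupp.single (v k) (e k) := ⟨_, rfl⟩
    have hinj : Function.Injective v := fun k k' h => by rw [← hv k, ← hv k', h]
    have hβv : ∀ t, β t = ∑ k, if v k = t then e k else 0 := by
      intro t
      rw [hβ, Finsupp.finsetSum_apply]
      simp only [Finsupp.single_apply]
    have hmem : β ∈ monB b e := by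
      rw [mem_monB]
      intro k
      have h1 : ∀ t, (if b t = k then β t else 0) = if v k = t then e k else 0 := by
        intro t
        by_cases ht : b t = k
        · rw [if_pos ht, hβv, Finset.sum_eq_single k]
          · intro k' _ hk'
            rw [if_neg]
            rintro rfl
            exact hk' (by rw [← ht, hv k'])
          · intro h; exact absurd (Finset.mem_univ k) h
        · rw [if_neg ht, if_neg]
          rintro rfl
          exact ht (hv k)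
      rw [Finset.sum_congr rfl fun t _ => h1 t, Finset.sum_ite_eq, if_pos (Finset.mem_univ _)]
    have h2 : (∏ t, y t ^ (β t)) ∈ m := hIm (by
      rw [hI]
      exact Ideal.subset_span ⟨β, hmem, rfl⟩)
    have h3 : (∏ t, y t ^ (β t)) = ∏ k, y (v k) ^ (e k) := by
      have h4 : ∀ t, y t ^ (β t) = ∏ k, (if v k = t then y t ^ (e k) else 1) := by
        intro t
        rw [hβv, ← Finset.prod_pow_eq_pow_sum]
        refine Finset.prod_congr rfl fun k _ => ?_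
        split_ifs
        · rfl
        · exact pow_zero _
      rw [Finset.prod_congr rfl fun t _ => h4 t, Finset.prod_comm]
      refine Finset.prod_congr rfl fun k _ => ?_
      rw [Finset.prod_ite_eq, if_pos (Finset.mem_univ _)]
    rw [h3] at h2
    obtain ⟨k, -, hk⟩ := (hmp.prod_mem_iff).1 h2
    exact hvm k (hmp.mem_of_pow_mem _ hk)
  have h1 : (1 : ℤ) ∈ I := by rw [htop]; exact Submodule.mem_top
  rw [hI] at h1
  obtain ⟨f, hf⟩ := (Submodule.mem_span_image_finset_iff_exists_fun' ℤ).1 h1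
  refine ⟨fun β => if β ∈ monB b e then f β else 0, fun β hβ => if_neg hβ, ?_⟩
  rw [← hf]
  refine Finset.sum_congr rfl fun β hβ => ?_
  show (if β ∈ monB b e then f β else 0) * ∏ v, y v ^ (β v) = f β • ∏ v, y v ^ (β v)
  rw [if_pos hβ, smul_eq_mul]

/-- forms with the value one, with bounded coefficients -/
theorem exists_one_bdd (b : τ → κ) (e : κ → ℕ) (B₀ : ℝ) : ∃ B : ℝ, 1 ≤ B ∧ ∀ y : τ → ℤ, PrimB b y →
    (∀ v, |((y v : ℤ) : ℝ)| ≤ B₀) → ∃ h : (τ →₀ ℕ) → ℤ, (∀ β, |((h β : ℤ) : ℝ)| ≤ B) ∧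
      ∑ β ∈ monB b e, h β * ∏ v, y v ^ (β v) = 1 := by
  classical
  have hex : ∀ y : τ → ℤ, ∃ h : (τ →₀ ℕ) → ℤ, PrimB b y → (∀ β, β ∉ monB b e → h β = 0) ∧
      ∑ β ∈ monB b e, h β * ∏ v, y v ^ (β v) = 1 := by
    intro y
    by_cases hy : PrimB b y
    · obtain ⟨h, h1⟩ := exists_one (e := e) hy
      exact ⟨h, fun _ => h1⟩
    · exact ⟨0, fun h => absurd h hy⟩
  choose h hh using hex
  obtain ⟨Y, hY⟩ : ∃ Y : Finset (τ → ℤ), Y = Fintype.piFinset fun _ => Finset.Icc (-⌈B₀⌉) ⌈B₀⌉ :=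
    ⟨_, rfl⟩
  refine ⟨1 + ∑ y ∈ Y, ∑ β ∈ monB b e, |((h y β : ℤ) : ℝ)|, ?_, fun y hy hyB => ⟨h y, fun β => ?_,
    (hh y hy).2⟩⟩
  · have : 0 ≤ ∑ y ∈ Y, ∑ β ∈ monB b e, |((h y β : ℤ) : ℝ)| :=
      Finset.sum_nonneg fun y _ => Finset.sum_nonneg fun β _ => abs_nonneg _
    linarith
  · have hyY : y ∈ Y := by
      rw [hY, Fintype.mem_piFinset]
      intro v
      rw [Finset.mem_Icc, ← abs_le]
      have h1 : (((|y v| : ℤ)) : ℝ) ≤ (⌈B₀⌉ : ℝ) := by
        rw [Int.cast_abs]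
        exact (hyB v).trans (Int.le_ceil _)
      exact_mod_cast h1
    by_cases hβ : β ∈ monB b e
    · have h1 := Finset.single_le_sum (f := fun y => ∑ β ∈ monB b e, |((h y β : ℤ) : ℝ)|)
        (fun y _ => Finset.sum_nonneg fun β _ => abs_nonneg _) hyY
      have h2 := Finset.single_le_sum (f := fun β => |((h y β : ℤ) : ℝ)|)
        (fun β _ => abs_nonneg _) hβ
      have h3 : |((h y β : ℤ) : ℝ)| ≤ ∑ y ∈ Y, ∑ β ∈ monB b e, |((h y β : ℤ) : ℝ)| := h2.trans h1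
      linarith
    · rw [(hh y hy).1 β hβ, Int.cast_zero, abs_zero]
      have : 0 ≤ ∑ y ∈ Y, ∑ β ∈ monB b e, |((h y β : ℤ) : ℝ)| :=
        Finset.sum_nonneg fun y _ => Finset.sum_nonneg fun β _ => abs_nonneg _
      linarith

end

end Pool.Agent.T2H40.MB
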