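import Pool.Agent.T2H40.MB.Poly
import Pool.Agent.Y363.C7.Exc

/-!
# Exact real zeros near approximate zeros
-/

set_option autoImplicit false
set_option linter.unusedSectionVars false

namespace Pool.Agent.T2H40.MB

open MvPolynomial Pool.Agent.Y716.Q Pool.Agent.Y716.C

section

variable {ι : Type} [Fintype ι] [DecidableEq ι]

/-- normalisation of a real zero -/
theorem real_norm {n : ℕ} {f : MvPolynomial ι ℤ} (hf : f.IsHomogeneous (n + 1)) {ξ : ι → ℝ} {r i : ι}
    (hr : 1 / 2 ≤ |ξ r|) (h3 : ∀ j, |ξ j| ≤ 3) (h0 : aeval ξ f = 0) {D : ℝ} (hD : 0 ≤ D)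
    (hg : D ≤ |aeval ξ (pderiv i f)|) (hg' : (pderiv i f).IsHomogeneous n) :
    ∃ ξ' : ι → ℝ, (∃ r', ξ' r' = 1) ∧ (∀ j, |ξ' j| ≤ 1) ∧ aeval ξ' f = 0 ∧
      D / 3 ^ n ≤ |aeval ξ' (pderiv i f)| := by
  obtain ⟨r', -, hr'⟩ := Finset.exists_max_image Finset.univ (fun j => |ξ j|) ⟨r, Finset.mem_univ r⟩
  have h1 : 1 / 2 ≤ |ξ r'| := hr.trans (hr' r (Finset.mem_univ r))
  have h2 : 0 < |ξ r'| := by linarith
  have h4 : ξ r' ≠ 0 := abs_pos.1 h2
  refine ⟨fun j => (ξ r')⁻¹ * ξ j, ⟨r', inv_mul_cancel₀ h4⟩, fun j => ?_, ?_, ?_⟩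
  · rw [abs_mul, abs_inv, inv_mul_le_iff₀ h2, mul_one]
    exact hr' j (Finset.mem_univ j)
  · rw [aeval_smul_form hf, h0, mul_zero]
  · rw [aeval_smul_form hg', abs_mul, abs_pow, abs_inv, div_eq_inv_mul]
    apply mul_le_mul _ hg hD (by positivity)
    rw [← inv_pow]
    apply pow_le_pow_left₀ (by norm_num)
    exact inv_anti₀ h2 (h3 r')

theorem aeval_update_cont (f : MvPolynomial ι ℤ) (ξ : ι → ℝ) (i : ι) :
    Continuous fun t : ℝ => aeval (Function.update ξ i t) f := by
  have h1 : Continuous fun t : ℝ => Function.update ξ i t := continuous_const.update i continuous_id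
  have h2 : Continuous fun x : ι → ℝ => (aeval x f : ℝ) := by
    have h3 : (fun x : ι → ℝ => (aeval x f : ℝ)) =
        fun x => eval x (map (algebraMap ℤ ℝ) f) := by
      funext x
      rw [aeval_def, eval_map]
    rw [h3]
    exact MvPolynomial.continuous_eval _
  exact h2.comp h1

/-- exact zeros near approximate zeros -/
theorem real_lemma (n : ℕ) {γ : ℝ} (hγ : 0 < γ) : ∃ θ γ' : ℝ, 0 < θ ∧ 0 < γ' ∧ γ' ≤ 1 ∧
    ∀ H : ℝ, 0 < H → ∀ f : MvPolynomial ι ℤ, IsF (n + 2) (2 * H) f → ∀ (ξ : ι → ℝ) (i : ι),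
      (∃ r, ξ r = 1) → (∀ j, |ξ j| ≤ 2) → |aeval ξ f| ≤ θ * H →
      γ * H ≤ |aeval ξ (pderiv i f)| →
      ∃ ξ' : ι → ℝ, (∃ r, ξ' r = 1) ∧ (∀ j, |ξ' j| ≤ 1) ∧ aeval ξ' f = 0 ∧
        γ' * H ≤ |aeval ξ' (pderiv i f)| := by
  obtain ⟨C, hC1, hC⟩ := form_bounds (ι := ι) (n + 1)
  obtain ⟨L, hL⟩ : ∃ L : ℝ, L = C * ((n + 1 + 1) * 2) * 3 ^ n := ⟨_, rfl⟩
  have hL0 : 0 < L := by rw [hL]; positivity
  obtain ⟨s, hs⟩ : ∃ s : ℝ, s = min (1 / 2) (γ / (2 * L)) := ⟨_, rfl⟩
  have hs0 : 0 < s := by rw [hs]; exact lt_min (by norm_num) (by positivity)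
  have hs1 : s ≤ 1 / 2 := by rw [hs]; exact min_le_left _ _
  have hs2 : L * s ≤ γ / 2 := by
    have h1 : s ≤ γ / (2 * L) := by rw [hs]; exact min_le_right _ _
    rw [le_div_iff₀ (by positivity)] at h1
    linarith
  refine ⟨γ * s / 2, min 1 (γ / 2 / 3 ^ (n + 1)), by positivity, lt_min one_pos (by positivity),
    min_le_left _ _, ?_⟩
  intro H hH f hf ξ i hr h2 hv hg
  have hpd : IsF (n + 1) (((n + 1 : ℕ) + 1) * (2 * H)) (pderiv i f) := hf.pderiv i
  have hLip : ∀ t : ℝ, |t - ξ i| ≤ s → |aeval (Function.update ξ i t) (pderiv i f) -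
      aeval ξ (pderiv i f)| ≤ γ / 2 * H := by
    intro t ht
    have h1 := (hC _ _ hpd.1 hpd.2 3 (by norm_num)).2 (Function.update ξ i t) ξ s hs0.le
      (fun j => by
        by_cases hj : j = i
        · subst hj
          rw [Function.update_self]
          have := abs_sub_abs_le_abs_sub t (ξ j)
          linarith [h2 j]
        · rw [Function.update_of_ne hj]
          linarith [h2 j])
      (fun j => by linarith [h2 j])
      (fun j => by
        by_cases hj : j = i
        · subst hj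
          rw [Function.update_self]
          exact ht
        · rw [Function.update_of_ne hj, sub_self, abs_zero]
          exact hs0.le)
    refine h1.trans ?_
    rw [Nat.add_sub_cancel]
    have h4 : C * (((n + 1 : ℕ) + 1) * (2 * H)) * 3 ^ n * s = L * s * H := by
      rw [hL]; push_cast; ring
    rw [h4]
    exact mul_le_mul_of_nonneg_right hs2 hH.le
  -- the sign
  have key : ∃ t : ℝ, |t - ξ i| ≤ s ∧ aeval (Function.update ξ i t) f = 0 := by
    have hcont := aeval_update_cont f ξ i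
    have hup : Function.update ξ i (ξ i) = ξ := Function.update_eq_self i ξ
    have hb := abs_le.1 hv
    rcases le_abs.1 hg with hp | hn
    · have hder : ∀ t, |t - ξ i| ≤ s → γ / 2 * H ≤ aeval (Function.update ξ i t) (pderiv i f) := by
        intro t ht
        have := (abs_le.1 (hLip t ht)).1
        linarith
      have h5 := (slope_of_pderiv f i ξ (ξ i) (ξ i + s) (γ / 2 * H)
        (aeval ξ (pderiv i f) + γ / 2 * H) (by linarith) (fun t ht1 ht2 => by
          have ht : |t - ξ i| ≤ s := by rw [abs_le]; constructor <;> linarith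
          exact ⟨hder t ht, by linarith [(abs_le.1 (hLip t ht)).2]⟩)).1
      have h6 := (slope_of_pderiv f i ξ (ξ i - s) (ξ i) (γ / 2 * H)
        (aeval ξ (pderiv i f) + γ / 2 * H) (by linarith) (fun t ht1 ht2 => by
          have ht : |t - ξ i| ≤ s := by rw [abs_le]; constructor <;> linarith
          exact ⟨hder t ht, by linarith [(abs_le.1 (hLip t ht)).2]⟩)).1
      rw [hup] at h5 h6
      have h7 : aeval (Function.update ξ i (ξ i - s)) f ≤ 0 := by
        have : γ / 2 * H * (ξ i - (ξ i - s)) = γ * s / 2 * H := by ring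
        linarith
      have h8 : 0 ≤ aeval (Function.update ξ i (ξ i + s)) f := by
        have : γ / 2 * H * (ξ i + s - ξ i) = γ * s / 2 * H := by ring
        linarith
      obtain ⟨t, ht, ht0⟩ := intermediate_value_Icc (a := ξ i - s) (b := ξ i + s) (by linarith)
        hcont.continuousOn ⟨h7, h8⟩
      exact ⟨t, by rw [abs_le]; constructor <;> linarith [ht.1, ht.2], ht0⟩
    · have hder : ∀ t, |t - ξ i| ≤ s → aeval (Function.update ξ i t) (pderiv i f) ≤ -(γ / 2 * H) := by
        intro t ht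
        have := (abs_le.1 (hLip t ht)).2
        linarith
      have h5 := (slope_of_pderiv f i ξ (ξ i) (ξ i + s)
        (aeval ξ (pderiv i f) - γ / 2 * H) (-(γ / 2 * H)) (by linarith) (fun t ht1 ht2 => by
          have ht : |t - ξ i| ≤ s := by rw [abs_le]; constructor <;> linarith
          exact ⟨by linarith [(abs_le.1 (hLip t ht)).1], hder t ht⟩)).2
      have h6 := (slope_of_pderiv f i ξ (ξ i - s) (ξ i)
        (aeval ξ (pderiv i f) - γ / 2 * H) (-(γ / 2 * H)) (by linarith) (fun t ht1 ht2 => by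
          have ht : |t - ξ i| ≤ s := by rw [abs_le]; constructor <;> linarith
          exact ⟨by linarith [(abs_le.1 (hLip t ht)).1], hder t ht⟩)).2
      rw [hup] at h5 h6
      have h7 : 0 ≤ aeval (Function.update ξ i (ξ i - s)) f := by
        have : -(γ / 2 * H) * (ξ i - (ξ i - s)) = -(γ * s / 2 * H) := by ring
        linarith
      have h8 : aeval (Function.update ξ i (ξ i + s)) f ≤ 0 := by
        have : -(γ / 2 * H) * (ξ i + s - ξ i) = -(γ * s / 2 * H) := by ring
        linarith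
      obtain ⟨t, ht, ht0⟩ := intermediate_value_Icc' (a := ξ i - s) (b := ξ i + s) (by linarith)
        hcont.continuousOn ⟨h8, h7⟩
      exact ⟨t, by rw [abs_le]; constructor <;> linarith [ht.1, ht.2], ht0⟩
  obtain ⟨t, ht, ht0⟩ := key
  obtain ⟨r, hr⟩ := hr
  have hgt : γ / 2 * H ≤ |aeval (Function.update ξ i t) (pderiv i f)| := by
    have h5 := hLip t ht
    have h6 := abs_sub_abs_le_abs_sub (aeval ξ (pderiv i f))
      (aeval (Function.update ξ i t) (pderiv i f) : ℝ)
    rw [abs_sub_comm] at h6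
    linarith
  obtain ⟨ξ', a1, a2, a3, a4⟩ := real_norm (n := n + 1) hf.1 (ξ := Function.update ξ i t) (r := r)
    (i := i) (by
      by_cases hri : r = i
      · subst hri
        rw [Function.update_self]
        rw [hr] at ht
        have := abs_le.1 ht
        rw [le_abs]
        left
        linarith
      · rw [Function.update_of_ne hri, hr, abs_one]
        norm_num) (fun j => by
      by_cases hj : j = i
      · subst hj
        rw [Function.update_self]
        have := abs_sub_abs_le_abs_sub t (ξ j)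
        linarith [h2 j]
      · rw [Function.update_of_ne hj]
        linarith [h2 j]) ht0 (by positivity) hgt hpd.1
  refine ⟨ξ', a1, a2, a3, le_trans ?_ a4⟩
  have h9 : min 1 (γ / 2 / 3 ^ (n + 1)) * H ≤ γ / 2 / 3 ^ (n + 1) * H :=
    mul_le_mul_of_nonneg_right (min_le_right _ _) hH.le
  refine h9.trans (le_of_eq ?_)
  ring

end

end Pool.Agent.T2H40.MB
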