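import Pool.Agent.T2H40.MB.Lam
import Pool.Agent.T2H40.MB.RealL
import Pool.Agent.R465.CV.Main

/-!
# The class theorem on the fibres and averaging
-/

set_option autoImplicit false
set_option linter.unusedSectionVars false

namespace Pool.Agent.T2H40.MB

open MvPolynomial Pool.Agent.Y716.Q Pool.Agent.Y716.C Pool.Agent.Y363.C7

section

variable {ι τ κ : Type} [Fintype ι] [Fintype τ] [Fintype κ] [DecidableEq ι] [DecidableEq τ]
  [DecidableEq κ] {b : τ → κ} {d : ℕ} {e : κ → ℕ}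

/-- integral points -/
def HasPt (c : Lam ι b d e → ℤ) : Prop :=
  ∃ (x : ι → ℤ) (y : τ → ℤ), x ≠ 0 ∧ (∀ k, ∃ v, b v = k ∧ y v ≠ 0) ∧ val c (Sum.elim x y) = 0

/-- the data of a fibre -/
structure Dt (ι τ : Type) where
  /-- the point of the base -/
  y : τ → ℤ
  /-- a form with the value one at `y` -/
  h : (τ →₀ ℕ) → ℤ
  /-- the size of the coefficients -/
  A : ℝ
  /-- the real point -/
  ξ : ι → ℝ
  /-- the direction of the derivative -/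
  i : ι
  /-- a modulus -/
  S : ℕ
  /-- a modulus -/
  J : ℕ
  /-- the `p`-adic point -/
  xc : ι → ℤ

/-- the data are good for `c` -/
structure GoodD (w Q : ℕ) (B a₀ γ θ H : ℝ) (D : Dt ι τ) (c : Lam ι b d e → ℤ) : Prop where
  blk : ∀ k, ∃ v, b v = k ∧ D.y v ≠ 0
  hy : ∑ β ∈ monB b e, D.h β * ∏ v, D.y v ^ (β v) = 1
  hh : ∀ β, |((D.h β : ℤ) : ℝ)| ≤ B
  yb : ∀ v, |((D.y v : ℤ) : ℝ)| ≤ B
  A0 : a₀ ≤ D.A
  A1 : D.A ≤ B
  pd : PDataS w (fun _ : Fin 1 => fy c D.y) D.S D.J D.xc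
  sj : D.S * D.J = Q
  cf : ∀ α, |(((fy c D.y).coeff α : ℤ) : ℝ)| ≤ D.A * H
  ξ1 : ∃ r, D.ξ r = 1
  ξ2 : ∀ i, |D.ξ i| ≤ 2
  vl : |aeval D.ξ (fy c D.y)| ≤ θ * (D.A * H)
  gr : γ * (D.A * H) ≤ |aeval D.ξ (pderiv D.i (fy c D.y))|

theorem fy_add (c c' : Lam ι b d e → ℤ) (Q : ℤ) (y : τ → ℤ) :
    fy (fun μ => c μ + Q * c' μ) y = fy c y + C Q * fy c' y := by
  unfold fy
  rw [Finset.mul_sum, ← Finset.sum_add_distrib]
  refine Finset.sum_congr rfl fun μ _ => ?_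
  rw [C_mul_monomial, ← map_add]
  congr 1
  ring

/-- the perturbation -/
noncomputable def pert (g : MvPolynomial ι ℤ) (h : (τ →₀ ℕ) → ℤ) : Lam ι b d e → ℤ :=
  fun μ => g.coeff (px μ.1) * h (py μ.1)

theorem fy_pert {g : MvPolynomial ι ℤ} (hg : g.IsHomogeneous d) {h : (τ →₀ ℕ) → ℤ} {y : τ → ℤ}
    (hy : ∑ β ∈ monB b e, h β * ∏ v, y v ^ (β v) = 1) :
    fy (pert g h : Lam ι b d e → ℤ) y = g := by
  unfold fy pert
  have h1 := sum_Lam (ι := ι) (b := b) (d := d) (e := e)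
    (fun α β => monomial α (g.coeff α * h β * ∏ v, y v ^ (β v)) : (ι →₀ ℕ) → (τ →₀ ℕ) →
      MvPolynomial ι ℤ)
  rw [h1]
  have h2 : ∀ α, ∑ β ∈ monB b e, monomial α (g.coeff α * h β * ∏ v, y v ^ (β v)) =
      (monomial α (g.coeff α) : MvPolynomial ι ℤ) := by
    intro α
    rw [← map_sum]
    congr 1
    have h3 : ∑ β ∈ monB b e, g.coeff α * h β * ∏ v, y v ^ (β v) =
        g.coeff α * ∑ β ∈ monB b e, h β * ∏ v, y v ^ (β v) := by
      rw [Finset.mul_sum]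
      exact Finset.sum_congr rfl fun β _ => by ring
    rw [h3, hy, mul_one]
  rw [Finset.sum_congr rfl fun α _ => h2 α]
  conv_rhs => rw [g.as_sum]
  symm
  apply Finset.sum_subset
  · intro m hm
    rw [mem_mons]
    exact homog_sum_eq hg (mem_support_iff.mp hm)
  · intro m _ hm
    rw [notMem_support_iff.mp hm, monomial_zero]

/-- bound for the coefficients of `F (·, y)` -/
theorem coeff_fy_le {c : Lam ι b d e → ℤ} {y : τ → ℤ} {R B : ℝ} (hR : 0 ≤ R) (hB : 1 ≤ B)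
    (hc : ∀ μ, |((c μ : ℤ) : ℝ)| ≤ R) (hy : ∀ v, |((y v : ℤ) : ℝ)| ≤ B) (α : ι →₀ ℕ) :
    |(((fy c y).coeff α : ℤ) : ℝ)| ≤ (Lam ι b d e).card * B ^ (∑ k, e k) * R := by
  unfold fy
  rw [coeff_sum]
  push_cast
  refine (Finset.abs_sum_le_sum_abs _ _).trans ?_
  have h1 : ∀ μ ∈ (Finset.univ : Finset (Lam ι b d e)),
      |(((coeff α (monomial (px μ.1) (c μ * ∏ v, y v ^ (py μ.1 v))) : ℤ)) : ℝ)| ≤
        B ^ (∑ k, e k) * R := by
    intro μ _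
    have hB0 : 0 ≤ B ^ (∑ k, e k) * R := by positivity
    rw [coeff_monomial]
    split_ifs
    · push_cast
      rw [abs_mul, Finset.abs_prod, mul_comm]
      have h2 : ∏ v, |((y v : ℤ) : ℝ) ^ (py μ.1 v)| ≤ B ^ (∑ k, e k) := by
        have h3 : ∏ v, |((y v : ℤ) : ℝ) ^ (py μ.1 v)| ≤ ∏ v, B ^ (py μ.1 v) :=
          Finset.prod_le_prod (fun v _ => abs_nonneg _) (fun v _ => by
            rw [abs_pow]
            exact pow_le_pow_left₀ (abs_nonneg _) (hy v) _)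
        refine h3.trans (le_of_eq ?_)
        rw [Finset.prod_pow_eq_pow_sum]
        congr 1
        have h4 := py_mem μ
        unfold monB at h4
        exact mem_mons.1 (Finset.mem_filter.1 h4).1
      exact mul_le_mul h2 (hc μ) (abs_nonneg _) (by positivity)
    · simpa using hB0
  refine (Finset.sum_le_sum h1).trans (le_of_eq ?_)
  rw [Finset.sum_const, Finset.card_univ, Fintype.card_coe, nsmul_eq_mul]
  ring

theorem hasPt_of {c : Lam ι b d e → ℤ} {D : Dt ι τ} {g : MvPolynomial ι ℤ} {Q : ℕ} {η₀ : ℝ}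
    {ξ : ι → ℝ} (hblk : ∀ k, ∃ v, b v = k ∧ D.y v ≠ 0)
    (hy : ∑ β ∈ monB b e, D.h β * ∏ v, D.y v ^ (β v) = 1) (hQ : D.S * D.J = Q)
    (hg : g.IsHomogeneous d)
    (h : ZeroNearS η₀ ξ D.S D.xc (memS (fun _ : Fin 1 => fy c D.y) D.S D.J fun _ => g)) :
    HasPt (fun μ => c μ + Q * (pert g D.h : Lam ι b d e → ℤ) μ) := by
  obtain ⟨x, h1, h2, -, -⟩ := h
  refine ⟨x, D.y, h1.ne_zero', hblk, ?_⟩
  have h3 := h2 0
  unfold memS mem' at h3
  rw [hQ] at h3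
  have h4 := fy_add c (pert g D.h : Lam ι b d e → ℤ) (Q : ℤ) D.y
  rw [fy_pert hg hy] at h4
  have h5 := aeval_fy (R := ℤ) (fun μ => c μ + Q * (pert g D.h : Lam ι b d e → ℤ) μ) x D.y
  rw [h4] at h5
  rw [Pool.Agent.R465.CV.eval_eq_aeval] at h3
  rw [h3] at h5
  simpa using h5.symm

/-- the data remain good for small perturbations -/
theorem shift_ok {n w Q : ℕ} {B a₀ γ θ H γ' η ρ Cb M : ℝ} {D : Dt ι τ}
    {c u : Lam ι b (n + 2) e → ℤ} (hD : GoodD w Q B a₀ γ θ H D c) (hH : 0 < H) (ha₀ : 0 < a₀)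
    (hB : 1 ≤ B) (hη : 0 ≤ η) (hM : 0 ≤ M) (hu : ∀ μ, |((u μ : ℤ) : ℝ)| ≤ M)
    (hγ' : 0 < γ')
    (hCb : ∀ (f : MvPolynomial ι ℤ) (R : ℝ), IsF (n + 2) R f → ∀ x : ι → ℝ, (∀ i, |x i| ≤ 2) →
      |aeval x f| ≤ Cb * R ∧ ∀ i, |aeval x (pderiv i f)| ≤ Cb * R)
    (hCb0 : 0 ≤ Cb) (hρ1 : ρ ≤ 1) (hρθ : Cb * ρ ≤ θ) (hργ : Cb * ρ ≤ γ / 2)
    (hMρ : Q * M * ((Lam ι b (n + 2) e).card * B ^ (∑ k, e k)) ≤ ρ * (a₀ * H))
    (hRL : ∀ H : ℝ, 0 < H → ∀ f : MvPolynomial ι ℤ, IsF (n + 2) (2 * H) f → ∀ (ξ : ι → ℝ) (i : ι),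
      (∃ r, ξ r = 1) → (∀ j, |ξ j| ≤ 2) → |aeval ξ f| ≤ 2 * θ * H →
      γ / 2 * H ≤ |aeval ξ (pderiv i f)| →
      ∃ ξ' : ι → ℝ, (∃ r, ξ' r = 1) ∧ (∀ j, |ξ' j| ≤ 1) ∧ aeval ξ' f = 0 ∧
        γ' * H ≤ |aeval ξ' (pderiv i f)|) :
    PDataS w (fun _ : Fin 1 => fy (fun μ => c μ + Q * u μ) D.y) D.S D.J D.xc ∧
    ∃ (ξ : ι → ℝ) (a : Fin 1 → ι) (Li : Matrix (Fin 1) (Fin 1) ℝ),
      RDataS (fun _ : Fin 1 => n) (D.A * H) γ' η
        (fun _ : Fin 1 => fy (fun μ => c μ + Q * u μ) D.y) ξ a Li := by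
  have hA : 0 < D.A := ha₀.trans_le hD.A0
  have hAH : 0 < D.A * H := by positivity
  have hadd : fy (fun μ => c μ + Q * u μ) D.y = fy c D.y + C (Q : ℤ) * fy u D.y :=
    fy_add c u (Q : ℤ) D.y
  have hsmall : ρ * (a₀ * H) ≤ ρ * (D.A * H) ∨ ρ < 0 := by
    rcases le_or_gt 0 ρ with h | h
    · left
      exact mul_le_mul_of_nonneg_left (mul_le_mul_of_nonneg_right hD.A0 hH.le) h
    · right; exact h
  have hρ0 : 0 ≤ ρ := by
    by_contra hneg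
    push Not at hneg
    have h1 : ρ * (a₀ * H) < 0 := mul_neg_of_neg_of_pos hneg (by positivity)
    have h2 : 0 ≤ Q * M * ((Lam ι b (n + 2) e).card * B ^ (∑ k, e k)) := by positivity
    linarith
  have hMA : Q * M * ((Lam ι b (n + 2) e).card * B ^ (∑ k, e k)) ≤ ρ * (D.A * H) :=
    hMρ.trans (mul_le_mul_of_nonneg_left (mul_le_mul_of_nonneg_right hD.A0 hH.le) hρ0)
  have hFu : IsF (n + 2) (ρ * (D.A * H)) (C (Q : ℤ) * fy u D.y) := by
    refine ⟨?_, fun α => ?_⟩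
    · have h1 : (C (Q : ℤ) : MvPolynomial ι ℤ).IsHomogeneous 0 := isHomogeneous_C _ _
      have := h1.mul (fy_homog u D.y)
      rwa [zero_add] at this
    · rw [coeff_C_mul]
      push_cast
      rw [abs_mul, Nat.abs_cast]
      have h1 := coeff_fy_le hM hB hu hD.yb α
      calc (Q : ℝ) * |(((fy u D.y).coeff α : ℤ) : ℝ)| ≤
          Q * ((Lam ι b (n + 2) e).card * B ^ (∑ k, e k) * M) :=
            mul_le_mul_of_nonneg_left h1 (Nat.cast_nonneg _)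
        _ = Q * M * ((Lam ι b (n + 2) e).card * B ^ (∑ k, e k)) := by ring
        _ ≤ _ := hMA
  have hFc : IsF (n + 2) (D.A * H) (fy c D.y) := ⟨fy_homog c D.y, hD.cf⟩
  have hsum : IsF (n + 2) (2 * (D.A * H)) (fy (fun μ => c μ + Q * u μ) D.y) := by
    rw [hadd]
    refine ⟨hFc.1.add hFu.1, fun α => ?_⟩
    rw [coeff_add]
    push_cast
    have h1 := hFc.2 α
    have h2 := hFu.2 α
    have h3 : ρ * (D.A * H) ≤ 1 * (D.A * H) := mul_le_mul_of_nonneg_right hρ1 hAH.le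
    have h4 := abs_add_le (((fy c D.y).coeff α : ℤ) : ℝ) ((((C (Q : ℤ) * fy u D.y).coeff α : ℤ) : ℝ))
    linarith
  constructor
  · have h1 := PDataS_shift hD.pd (fun _ : Fin 1 => fy u D.y)
    have h2 : memS (fun _ : Fin 1 => fy c D.y) D.S D.J (fun _ : Fin 1 => fy u D.y) =
        fun _ : Fin 1 => fy (fun μ => c μ + Q * u μ) D.y := by
      funext j
      unfold memS mem'
      rw [hD.sj, hadd]
    rwa [h2] at h1
  · obtain ⟨b1, b2⟩ := hCb _ _ hFu D.ξ hD.ξ2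
    have hv : |aeval D.ξ (fy (fun μ => c μ + Q * u μ) D.y)| ≤ 2 * θ * (D.A * H) := by
      rw [hadd, map_add]
      refine (abs_add_le _ _).trans ?_
      have h1 := hD.vl
      have h2 : Cb * (ρ * (D.A * H)) ≤ θ * (D.A * H) := by
        rw [← mul_assoc]
        exact mul_le_mul_of_nonneg_right hρθ hAH.le
      linarith
    have hg : γ / 2 * (D.A * H) ≤
        |aeval D.ξ (pderiv D.i (fy (fun μ => c μ + Q * u μ) D.y))| := by
      rw [hadd, map_add, map_add]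
      have h1 := hD.gr
      have h2 : Cb * (ρ * (D.A * H)) ≤ γ / 2 * (D.A * H) := by
        rw [← mul_assoc]
        exact mul_le_mul_of_nonneg_right hργ hAH.le
      have h3 := b2 D.i
      have h4 := abs_sub_abs_le_abs_sub (aeval D.ξ (pderiv D.i (fy c D.y)) : ℝ)
        (-(aeval D.ξ (pderiv D.i (C (Q : ℤ) * fy u D.y))))
      rw [abs_neg, sub_neg_eq_add] at h4
      linarith
    obtain ⟨ξ', ⟨r, hr⟩, a2, a3, a4⟩ := hRL (D.A * H) hAH _ hsum D.ξ D.i hD.ξ1 hD.ξ2 hv hg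
    obtain ⟨G, hG⟩ : ∃ G : ℝ, G = aeval ξ' (pderiv D.i (fy (fun μ => c μ + Q * u μ) D.y)) :=
      ⟨_, rfl⟩
    rw [← hG] at a4
    have hG0 : 0 < |G| := lt_of_lt_of_le (by positivity) a4
    have hG1 : G ≠ 0 := abs_pos.1 hG0
    refine ⟨ξ', fun _ => D.i, Matrix.of fun _ _ => (D.A * H) / G,
      fun _ => hsum, a2, ⟨r, hr⟩, ?_, ?_, ?_, ?_⟩
    · intro j
      rw [a3, abs_zero]
      positivity
    · intro j j' _
      exact Subsingleton.elim _ _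
    · ext j j'
      rw [Matrix.mul_apply, Fin.sum_univ_one, Matrix.of_apply, Matrix.of_apply, ← hG,
        Subsingleton.elim j j', Matrix.one_apply_eq]
      field_simp
    · intro j j'
      rw [Matrix.of_apply, abs_div, abs_of_pos hAH, div_le_div_iff₀ hG0 hγ']
      linarith

end

end Pool.Agent.T2H40.MB
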