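import Mathlib

/-!
# Polynomials with a given finite set of monomials: definitions and statements of the parts

`V` is a finite set of variables and `Λ` a finite set of exponents; the polynomials are
`F = ∑ c μ z ^ μ`, `μ ∈ Λ`, and `c` runs over the integral vectors in a box. A chart is a set `A` of
variables, which are put equal to `1`, such that there are monomials in `Λ` which become `1` and, for
every other variable `v`, a monomial which becomes `v`.
-/

set_option autoImplicit false

namespace Pool.Agent.T2H40.MB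

variable {V : Type} [Fintype V] [DecidableEq V] {Λ : Finset (V →₀ ℕ)}

/-- the value `∑ c μ z ^ μ` -/
def val {R : Type} [CommRing R] (c : Λ → R) (z : V → R) : R :=
  ∑ μ : Λ, c μ * ∏ v, z v ^ (μ.1 v)

/-- the partial derivative with respect to the variable `v` -/
def der {R : Type} [CommRing R] (c : Λ → R) (v : V) (z : V → R) : R :=
  ∑ μ : Λ, c μ * ((μ.1 v : R) * ∏ w, z w ^ (if w = v then μ.1 w - 1 else μ.1 w))

/-- the integral vectors with coordinates of absolute value at most `H` -/
noncomputable def box (Λ : Finset (V →₀ ℕ)) (H : ℕ) : Finset (Λ → ℤ) :=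
  Fintype.piFinset fun _ => Finset.Icc (-(H : ℤ)) H

/-- `A` is a chart -/
structure Chart (Λ : Finset (V →₀ ℕ)) (A : Finset V) : Prop where
  base : ∃ μ ∈ Λ, ∀ v, v ∉ A → μ v = 0
  lin : ∀ v, v ∉ A → ∃ μ ∈ Λ, μ v = 1 ∧ ∀ w, w ∉ A → w ≠ v → μ w = 0

/-- there is a zero modulo `q` in the chart -/
def ZeroMod (A : Finset V) (q : ℤ) (c : Λ → ℤ) : Prop :=
  ∃ z : V → ℤ, (∀ v ∈ A, z v = 1) ∧ q ∣ val c z

/-- there is a zero modulo `p ^ (2 k + 1)` in the chart at which some partial derivative with respect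
to a variable in `X` is not divisible by `p ^ k` -/
def NdMod (A X : Finset V) (p k : ℕ) (c : Λ → ℤ) : Prop :=
  ∃ z : V → ℤ, (∀ v ∈ A, z v = 1) ∧ (p : ℤ) ^ (2 * k + 1) ∣ val c z ∧
    ∃ x ∈ X, ¬ (p : ℤ) ^ k ∣ der c x z

/-- there is a real zero in the chart, in the unit cube -/
def ZeroReal (A : Finset V) (c : Λ → ℝ) : Prop :=
  ∃ z : V → ℝ, (∀ v ∈ A, z v = 1) ∧ (∀ v, |z v| ≤ 1) ∧ val c z = 0

/-- there is a real zero in the chart, in the cube of radius two, at which some partial derivative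
with respect to a variable in `X` is larger than `γ` in absolute value -/
def NdReal (A X : Finset V) (γ : ℝ) (c : Λ → ℝ) : Prop :=
  ∃ z : V → ℝ, (∀ v ∈ A, z v = 1) ∧ (∀ v, |z v| ≤ 2) ∧ val c z = 0 ∧ ∃ x ∈ X, γ < |der c x z|

open scoped Classical in
/-- **Package P.** Almost all polynomials with zeros modulo all powers of `p` have a zero modulo
`p ^ (2 k + 1)` which is nondegenerate in the directions `X`, if `k` is large. -/
def PStmt : Prop :=
  ∀ (V : Type) [Fintype V] [DecidableEq V] (Λ : Finset (V →₀ ℕ)) (A X : Finset V), Chart Λ A →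
    X.Nonempty → Disjoint X A → ∀ p : ℕ, p.Prime → ∀ ε : ℝ, 0 < ε →
    ∃ k₀ : ℕ, ∀ k, k₀ ≤ k → ∃ H₀ : ℕ, ∀ H : ℕ, H₀ ≤ H →
      (((box Λ H).filter fun c => (∀ E : ℕ, ZeroMod A ((p : ℤ) ^ E) c) ∧
        ¬ NdMod A X p k c).card : ℝ) ≤ ε * (box Λ H).card

open scoped Classical in
/-- **Package R.** Almost all polynomials with a real zero in the unit cube have a real zero in the
cube of radius two which is nondegenerate in the directions `X`, if `γ` is small. -/
def RStmt : Prop :=
  ∀ (V : Type) [Fintype V] [DecidableEq V] (Λ : Finset (V →₀ ℕ)) (A X : Finset V), Chart Λ A →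
    X.Nonempty → Disjoint X A → ∀ ε : ℝ, 0 < ε →
    ∃ γ : ℝ, 0 < γ ∧ ∃ H₀ : ℕ, ∀ H : ℕ, H₀ ≤ H →
      (((box Λ H).filter fun c => ZeroReal A (fun μ => (c μ : ℝ)) ∧
        ¬ NdReal A X (γ * H) (fun μ => (c μ : ℝ))).card : ℝ) ≤ ε * (box Λ H).card

open scoped Classical in
/-- **Package S.** Almost all polynomials define smooth hypersurfaces in the chart: at every zero over
a field of characteristic zero some partial derivative does not vanish. -/
def SStmt : Prop :=
  ∀ (V : Type) [Fintype V] [DecidableEq V] (Λ : Finset (V →₀ ℕ)) (A : Finset V), Chart Λ A →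
    ∀ ε : ℝ, 0 < ε → ∃ H₀ : ℕ, ∀ H : ℕ, H₀ ≤ H →
      (((box Λ H).filter fun c => ∃ (K : Type) (_ : Field K) (_ : CharZero K) (z : V → K),
        (∀ v ∈ A, z v = 1) ∧ val (fun μ => (c μ : K)) z = 0 ∧
          ∀ v, v ∉ A → der (fun μ => (c μ : K)) v z = 0).card : ℝ) ≤ ε * (box Λ H).card

end Pool.Agent.T2H40.MB
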