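import Pool.Agent.T2H40.MB.Cls
import Pool.Agent.T2H40.MB.ChartL

/-!
# Statements of the parts of the final assembly
-/

set_option autoImplicit false
set_option linter.unusedSectionVars false

namespace Pool.Agent.T2H40.MB

open MvPolynomial Pool.Agent.Y716.Q Pool.Agent.Y716.C

section

variable {ι τ κ : Type} [Fintype ι] [Fintype τ] [Fintype κ] [DecidableEq ι] [DecidableEq τ]
  [DecidableEq κ] {b : τ → κ} {d n : ℕ} {e : κ → ℕ}

/-- a point over the field `K` of the hypersurface in the product of the projective spaces -/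
def PtK (K : Type) [Field K] (c : Lam ι b d e → ℤ) : Prop :=
  ∃ (x : ι → K) (y : τ → K), x ≠ 0 ∧ (∀ k, ∃ v, b v = k ∧ y v ≠ 0) ∧
    val (fun μ => (c μ : K)) (Sum.elim x y) = 0

/-- everywhere locally soluble -/
def Els (c : Lam ι b d e → ℤ) : Prop := PtK ℝ c ∧ ∀ (p : ℕ) [Fact p.Prime], PtK ℚ_[p] c

/-- local points in the charts -/
def ElsC (c : Lam ι b d e → ℤ) : Prop :=
  (∀ p : ℕ, p.Prime → ∃ (r : ι) (s : κ → τ), (∀ k, b (s k) = k) ∧
    ∀ E : ℕ, ZeroMod (ch r s) ((p : ℤ) ^ E) c) ∧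
  ∃ (r : ι) (s : κ → τ), (∀ k, b (s k) = k) ∧ ZeroReal (ch r s) (fun μ => (c μ : ℝ))

/-- the hypersurface is smooth -/
def SmK (c : Lam ι b d e → ℤ) : Prop :=
  ∀ (K : Type) [Field K] [CharZero K] (x : ι → K) (y : τ → K), x ≠ 0 →
    (∀ k, ∃ v, b v = k ∧ y v ≠ 0) → val (fun μ => (c μ : K)) (Sum.elim x y) = 0 →
    ∃ v, der (fun μ => (c μ : K)) v (Sum.elim x y) ≠ 0

end

/-- **Package F1.** Local points can be moved to the charts: divide `x` and each block of `y` by the
coordinate of the largest absolute value. -/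
def F1Stmt : Prop :=
  ∀ (ι τ κ : Type) [Fintype ι] [Fintype τ] [Fintype κ] [DecidableEq ι] [DecidableEq τ]
    [DecidableEq κ] (b : τ → κ) (d : ℕ) (e : κ → ℕ) (c : Lam ι b d e → ℤ), Els c → ElsC c

open scoped Classical in
/-- **Package F2.** Almost all the hypersurfaces are smooth (from `s_stmt`; scale `x` and each block
of `y`). -/
def F2Stmt : Prop :=
  ∀ (ι τ κ : Type) [Fintype ι] [Fintype τ] [Fintype κ] [DecidableEq ι] [DecidableEq τ]
    [DecidableEq κ] (b : τ → κ) (d : ℕ) (e : κ → ℕ), 1 ≤ d → (∀ k, 1 ≤ e k) →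
    ∀ ε : ℝ, 0 < ε → ∃ H₀ : ℕ, ∀ H : ℕ, H₀ ≤ H →
      (((box (Lam ι b d e) H).filter fun c => ¬ SmK c).card : ℝ) ≤
        ε * (box (Lam ι b d e) H).card

open scoped Classical in
/-- **Package F3.** A positive proportion of the hypersurfaces has an integral point: at
`y v = 1` for `v` in the image of a section `s` of `b` and `y v = 0` otherwise, `F (·, y)` is a form whose
coefficients are some of the coefficients of `F`. -/
def F3Stmt : Prop :=
  ∀ (ι τ κ : Type) [Fintype ι] [Fintype τ] [Fintype κ] [DecidableEq ι] [DecidableEq τ]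
    [DecidableEq κ] (b : τ → κ) (n : ℕ) (e : κ → ℕ), Function.Surjective b →
    PosStmtS ι (fun _ : Fin 1 => n) →
    ∃ c₀ : ℝ, 0 < c₀ ∧ ∃ H₀ : ℕ, ∀ H : ℕ, H₀ ≤ H →
      c₀ * ((box (Lam ι b (n + 2) e) H).card : ℝ) ≤
        (((box (Lam ι b (n + 2) e) H).filter fun c => HasPt c).card : ℝ)

end Pool.Agent.T2H40.MB
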