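import Pool.Agent.T2H40.MB.Good2
import Pool.Agent.T2H40.MB.Defs2

/-!
# Almost all hypersurfaces with local points have integral points
-/

set_option autoImplicit false
set_option linter.unusedSectionVars false

namespace Pool.Agent.T2H40.MB

open MvPolynomial Pool.Agent.Y716.Q Pool.Agent.Y716.C Pool.Agent.Y363.C7 Pool.Agent.Y813.C5

section

variable {ι τ κ : Type} [Fintype ι] [Fintype τ] [Fintype κ] [DecidableEq ι] [DecidableEq τ]
  [DecidableEq κ] {b : τ → κ} {n : ℕ} {e : κ → ℕ}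

/-- the bounds for forms on the cube of radius two -/
theorem exists_Cb (ι : Type) [Fintype ι] (n : ℕ) : ∃ Cb : ℝ, 0 < Cb ∧
    ∀ (f : MvPolynomial ι ℤ) (R : ℝ), IsF (n + 2) R f → ∀ x : ι → ℝ, (∀ i, |x i| ≤ 2) →
      |aeval x f| ≤ Cb * R ∧ ∀ i, |aeval x (pderiv i f)| ≤ Cb * R := by
  obtain ⟨C₁, h1, hC₁⟩ := form_bounds (ι := ι) (n + 2)
  obtain ⟨C₂, h2, hC₂⟩ := form_bounds (ι := ι) (n + 1)
  refine ⟨C₁ * 2 ^ (n + 2) + C₂ * ((n + 1 : ℕ) + 1) * 2 ^ (n + 1), by positivity, ?_⟩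
  intro f R hf x hx
  have hR : 0 ≤ R := hf.nonneg
  constructor
  · have h3 := (hC₁ _ _ hf.1 hf.2 2 (by norm_num)).1 x hx
    have h4 : 0 ≤ C₂ * ((n + 1 : ℕ) + 1) * 2 ^ (n + 1) * R := by positivity
    linarith
  · intro i
    have hP : IsF (n + 1) (((n + 1 : ℕ) + 1) * R) (pderiv i f) := IsF.pderiv (d := n + 1) hf i
    have h3 := (hC₂ _ _ hP.1 hP.2 2 (by norm_num)).1 x hx
    have h4 : 0 ≤ C₁ * 2 ^ (n + 2) * R := by positivity
    linarith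

/-- the constants -/
theorem exists_cst (b : τ → κ) (n : ℕ) (e : κ → ℕ) (w k : ℕ) {ε' γR : ℝ} (hε' : 0 < ε')
    (hγR : 0 < γR) {w₀ : ℕ} (hw : w₀ ≤ w)
    (hcl : ∀ w, w₀ ≤ w → ∀ γ : ℝ, 0 < γ → γ ≤ 1 →
      ∀ Q₀ : ℕ, 1 ≤ Q₀ → ∀ η₀ : ℝ, 0 < η₀ → ∃ η : ℝ, 0 < η ∧ η ≤ 1 ∧ η ≤ η₀ ∧ ∃ H₀ : ℝ,
      ∀ H : ℝ, H₀ ≤ H →
      ∀ (fc : Fin 1 → MvPolynomial ι ℤ) (S J : ℕ) (xc : ι → ℤ) (ξ : ι → ℝ) (a : Fin 1 → ι)
        (Li : Matrix (Fin 1) (Fin 1) ℝ),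
      PDataS w fc S J xc → RDataS (fun _ : Fin 1 => n) H γ η fc ξ a Li → S * J ≤ Q₀ →
      ∀ T : Finset (Fin 1 → MvPolynomial ι ℤ),
        (∀ g ∈ T, (∀ j, IsF (n + 2) (η * H / (S * J : ℕ)) (g j)) ∧
          ¬ ZeroNearS η₀ ξ S xc (memS fc S J g)) →
        (T.card : ℝ) ≤ ε' * (sysZ ι (fun _ : Fin 1 => n) (η * H / (S * J : ℕ))).card) :
    ∃ (γ θ B a₀ γ' η ρ Cb : ℝ) (H₀ : ℝ), ∀ H : ℝ, H₀ ≤ H →
      (∃ N : ℕ, Cst ι (Lam ι b (n + 2) e).card (∑ k, e k) n w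
        ((∏ p ∈ primesUpTo w, p) ^ (2 * k + 1)) N B a₀ γ θ H γ' η ρ Cb ε' ∧
        (((∏ p ∈ primesUpTo w, p) ^ (2 * k + 1) * N : ℕ) : ℝ) ≤ H) ∧
      ∀ c : Lam ι b (n + 2) e → ℤ, (∀ μ, |((c μ : ℤ) : ℝ)| ≤ H) →
        (∀ p ∈ primesUpTo w, LocP p k c) → LocR (γR * H) c →
        ∃ D : Dt ι τ, GoodD w ((∏ p ∈ primesUpTo w, p) ^ (2 * k + 1)) B a₀ γ θ H D c := by
  obtain ⟨Q, hQ⟩ : ∃ Q : ℕ, Q = (∏ p ∈ primesUpTo w, p) ^ (2 * k + 1) := ⟨_, rfl⟩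
  have hQ1 : 1 ≤ Q := by
    rw [hQ]
    exact pow_pos (Finset.prod_pos (fun p hp => (mem_primesUpTo.mp hp).2.pos)) _
  have hQr : (1 : ℝ) ≤ Q := by exact_mod_cast hQ1
  obtain ⟨γ, hγ, hgood⟩ := good_of (ι := ι) b n e w k hγR
  obtain ⟨θ₂, γ', hθ₂, hγ'0, hγ'1, hRL⟩ := real_lemma (ι := ι) n (γ := γ / 2) (by positivity)
  obtain ⟨B, a₀, hB, ha₀, hgood⟩ := hgood (θ₂ / 2) (by positivity)
  obtain ⟨Cb, hCb0, hCb⟩ := exists_Cb ι n
  obtain ⟨ρ, hρ⟩ : ∃ ρ : ℝ, ρ = min (min 1 (θ₂ / 2 / Cb)) (min (γ / 2 / Cb) (1 / a₀)) := ⟨_, rfl⟩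
  have hρ0 : 0 < ρ := by
    rw [hρ]
    exact lt_min (lt_min one_pos (by positivity)) (lt_min (by positivity) (by positivity))
  have hρ1 : ρ ≤ 1 := by rw [hρ]; exact (min_le_left _ _).trans (min_le_left _ _)
  have hρθ : Cb * ρ ≤ θ₂ / 2 := by
    have h1 : ρ ≤ θ₂ / 2 / Cb := by rw [hρ]; exact (min_le_left _ _).trans (min_le_right _ _)
    rw [le_div_iff₀ hCb0] at h1
    linarith
  have hργ : Cb * ρ ≤ γ / 2 := by
    have h1 : ρ ≤ γ / 2 / Cb := by rw [hρ]; exact (min_le_right _ _).trans (min_le_left _ _)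
    rw [le_div_iff₀ hCb0] at h1
    linarith
  have hρa : ρ * a₀ ≤ 1 := by
    have h1 : ρ ≤ 1 / a₀ := by rw [hρ]; exact (min_le_right _ _).trans (min_le_right _ _)
    rwa [le_div_iff₀ ha₀] at h1
  obtain ⟨K, hK⟩ : ∃ K : ℝ, K = (Lam ι b (n + 2) e).card * B ^ (∑ k, e k) := ⟨_, rfl⟩
  have hK0 : 0 ≤ K := by rw [hK]; positivity
  obtain ⟨η₀, hη₀⟩ : ∃ η₀ : ℝ, η₀ = min 1 (ρ * a₀ / (6 * (K + 1) * (B * B))) := ⟨_, rfl⟩
  have hη₀0 : 0 < η₀ := by rw [hη₀]; exact lt_min one_pos (by positivity)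
  have hη₀1 : η₀ ≤ 1 := by rw [hη₀]; exact min_le_left _ _
  obtain ⟨η, hη0, hη1, hηη₀, H₁, hH₁⟩ := hcl w hw γ' hγ'0 hγ'1 Q hQ1 η₀ hη₀0
  have hηB : η * (6 * (K + 1) * (B * B)) ≤ ρ * a₀ := by
    have h1 : η ≤ ρ * a₀ / (6 * (K + 1) * (B * B)) := hηη₀.trans (by rw [hη₀]; exact min_le_right _ _)
    rwa [le_div_iff₀ (by positivity)] at h1
  refine ⟨γ, θ₂ / 2, B, a₀, γ', η, ρ, Cb, max (max 1 (H₁ / a₀)) (6 * Q * (K + 1) / (ρ * a₀)),
    fun H hH => ?_⟩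
  rw [← hQ] at hgood ⊢
  have hH1 : 1 ≤ H := (le_max_left _ _).trans ((le_max_left _ _).trans hH)
  have hH2 : H₁ / a₀ ≤ H := (le_max_right _ _).trans ((le_max_left _ _).trans hH)
  have hH3 : 6 * Q * (K + 1) / (ρ * a₀) ≤ H := (le_max_right _ _).trans hH
  have hH0 : 0 < H := by linarith
  rw [div_le_iff₀ ha₀] at hH2
  rw [div_le_iff₀ (by positivity)] at hH3
  refine ⟨?_, hgood H hH0⟩
  obtain ⟨X, hX⟩ : ∃ X : ℝ, X = ρ * (a₀ * H) / (3 * Q * (K + 1)) := ⟨_, rfl⟩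
  have hX0 : 0 ≤ X := by rw [hX]; positivity
  have hX2 : 2 ≤ X := by
    rw [hX, le_div_iff₀ (by positivity)]
    linarith
  have hNX : ((⌊X⌋₊ : ℕ) : ℝ) ≤ X := Nat.floor_le hX0
  have hXN : X / 2 ≤ ((⌊X⌋₊ : ℕ) : ℝ) := by
    have := Nat.lt_floor_add_one X
    linarith
  have hX3 : 3 * Q * X * (K + 1) = ρ * (a₀ * H) := by
    rw [hX]
    field_simp
  refine ⟨⌊X⌋₊, ?_, ?_⟩
  · refine { H0 := hH0, a0 := ha₀, B1 := hB, η0 := hη0, γ'0 := hγ'0, Q1 := hQ1, ε0 := hε'.le,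
             hCb := hCb, Cb0 := hCb0.le, ρ1 := hρ1, ρθ := hρθ, ργ := hργ, Mρ := ?_, RL := ?_,
             fit := ?_, cls := ?_ }
    · rw [← hK, ← hX3]
      have h1 : (Q : ℝ) * (3 * (⌊X⌋₊ : ℕ)) * K ≤ Q * (3 * X) * (K + 1) := by
        apply mul_le_mul _ (by linarith) hK0 (by positivity)
        exact mul_le_mul_of_nonneg_left (by linarith) (by positivity)
      linarith
    · intro H' hH' f hf ξ i h1 h2 h3 h4
      refine hRL H' hH' f hf ξ i h1 h2 ?_ h4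
      have : 2 * (θ₂ / 2) * H' = θ₂ * H' := by ring
      rwa [this] at h3
    · refine le_trans ?_ hXN
      rw [hX, div_mul_eq_mul_div, div_le_iff₀ (by linarith)]
      have h1 : ρ * (a₀ * H) / (3 * Q * (K + 1)) / 2 * Q = ρ * a₀ * H / (6 * (K + 1)) := by
        field_simp
        ring
      rw [h1, le_div_iff₀ (by positivity)]
      have h2 := mul_le_mul_of_nonneg_right hηB hH0.le
      linarith
    · intro A hA fc S J xc ξ a Li h1 h2 h3 P hP T hT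
      have h4 : H₁ ≤ A * H := hH2.trans (by
        rw [mul_comm]
        exact mul_le_mul_of_nonneg_right hA hH0.le)
      have h5 := hH₁ (A * H) h4 fc S J xc ξ a Li h1 h2 h3.le T (fun g hg => by
        obtain ⟨h6, h7⟩ := hT g hg
        rw [h3]
        refine ⟨h6, fun hz => hP g h6 h7 ?_⟩
        obtain ⟨x, x1, x2, x3, Pr, x4, x5⟩ := hz
        exact ⟨x, x1, x2, x3, Pr, x4, fun i => (x5 i).trans
          (mul_le_mul_of_nonneg_right hη₀1 x4.le)⟩)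
      rw [h3] at h5
      exact h5
  · push_cast
    have h1 : (Q : ℝ) * (⌊X⌋₊ : ℕ) ≤ Q * X := mul_le_mul_of_nonneg_left hNX (by positivity)
    have h2 : Q * X * 1 ≤ Q * X * (3 * (K + 1)) :=
      mul_le_mul_of_nonneg_left (by linarith) (by positivity)
    have h3 : Q * X * (3 * (K + 1)) = ρ * a₀ * H := by linarith
    have h4 : ρ * a₀ * H ≤ 1 * H := mul_le_mul_of_nonneg_right hρa hH0.le
    linarith

theorem locP_of {p k : ℕ} {r : ι} {s : κ → τ} (hs : ∀ k, b (s k) = k)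
    {c : Lam ι b (n + 2) e → ℤ} (h : NdMod (ch r s) (xd τ r) p k c) : LocP p k c := by
  obtain ⟨z, h1, h2, v, hv, h3⟩ := h
  have hz : Sum.elim (fun i => z (Sum.inl i)) (fun v => z (Sum.inr v)) = z := by
    funext v
    rcases v with v | v <;> rfl
  refine ⟨fun i => z (Sum.inl i), fun v => z (Sum.inr v), ⟨r, h1 _ (inl_mem_ch.2 rfl)⟩,
    fun k => ⟨s k, hs k, h1 _ (inr_mem_ch.2 ⟨k, rfl⟩)⟩, by rwa [hz], ?_⟩
  rcases v with i | v
  · exact ⟨i, by rwa [hz]⟩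
  · unfold xd at hv
    rw [Finset.mem_image] at hv
    obtain ⟨_, _, h⟩ := hv
    cases h

theorem locR_of {γ : ℝ} {r : ι} {s : κ → τ} (hs : ∀ k, b (s k) = k)
    {c : Lam ι b (n + 2) e → ℤ} (h : NdReal (ch r s) (xd τ r) γ (fun μ => (c μ : ℝ))) :
    LocR γ c := by
  obtain ⟨z, h1, h0, h2, v, hv, h3⟩ := h
  have hz : Sum.elim (fun i => z (Sum.inl i)) (fun v => z (Sum.inr v)) = z := by
    funext v
    rcases v with v | v <;> rfl
  refine ⟨fun i => z (Sum.inl i), fun v => z (Sum.inr v), ⟨r, h1 _ (inl_mem_ch.2 rfl)⟩,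
    fun k => ⟨s k, hs k, h1 _ (inr_mem_ch.2 ⟨k, rfl⟩)⟩, fun i => h0 _, fun v => h0 _, by rwa [hz], ?_⟩
  rcases v with i | v
  · exact ⟨i, by rwa [hz]⟩
  · unfold xd at hv
    rw [Finset.mem_image] at hv
    obtain ⟨_, _, h⟩ := hv
    cases h

theorem box_two {V : Type} [DecidableEq V] (Λ : Finset (V →₀ ℕ)) (H : ℕ) :
    ((box Λ (2 * H)).card : ℝ) ≤ 2 ^ Λ.card * (box Λ H).card := by
  rw [card_box, card_box]
  push_cast
  rw [← mul_pow]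
  apply pow_le_pow_left₀ (by positivity)
  linarith

theorem box_pos {V : Type} [DecidableEq V] (Λ : Finset (V →₀ ℕ)) (H : ℕ) : (0 : ℝ) < (box Λ H).card := by
  rw [card_box]
  positivity

open scoped Classical in
/-- **Almost all hypersurfaces with local points have integral points.** -/
theorem exc_count (b : τ → κ) (n : ℕ) (e : κ → ℕ) (he : ∀ k, 1 ≤ e k)
    (hcard : 1 < Fintype.card ι) (hcl : ClassStmtS ι (fun _ : Fin 1 => n)) (hP : PStmt)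
    (hR : RStmt) : ∀ ε : ℝ, 0 < ε → ∃ H₀ : ℕ, ∀ H : ℕ, H₀ ≤ H →
      (((box (Lam ι b (n + 2) e) H).filter fun c => ElsC c ∧ ¬ HasPt c).card : ℝ) ≤
        ε * (box (Lam ι b (n + 2) e) H).card := by
  intro ε hε
  obtain ⟨m, hm⟩ : ∃ m, m = (Lam ι b (n + 2) e).card := ⟨_, rfl⟩
  obtain ⟨ε', hε'⟩ : ∃ ε' : ℝ, ε' = ε / (4 * (2 ^ m * 2 ^ m)) := ⟨_, rfl⟩
  have hε'0 : 0 < ε' := by rw [hε']; positivity
  obtain ⟨w, hw1, hcl⟩ := hcl ε' hε'0
  -- the number of charts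
  obtain ⟨M, hM⟩ : ∃ M : ℝ, M = 1 + (Fintype.card (ι × (κ → τ)) : ℝ) := ⟨_, rfl⟩
  have hM1 : 1 ≤ M := by rw [hM]; linarith [Nat.cast_nonneg (α := ℝ) (Fintype.card (ι × (κ → τ)))]
  have hM0 : 0 < M := by linarith
  -- the primes
  have hPk : ∀ (p : ℕ) (q : ι × (κ → τ)), ∃ k₀ : ℕ, p.Prime → (∀ k, b (q.2 k) = k) → ∀ k, k₀ ≤ k →
      ∃ H₀ : ℕ, ∀ H : ℕ, H₀ ≤ H → (((box (Lam ι b (n + 2) e) H).filter fun c =>
        (∀ E : ℕ, ZeroMod (ch q.1 q.2) ((p : ℤ) ^ E) c) ∧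
        ¬ NdMod (ch q.1 q.2) (xd τ q.1) p k c).card : ℝ) ≤
        ε / (4 * (w + 1) * M) * (box (Lam ι b (n + 2) e) H).card := by
    intro p q
    by_cases h : p.Prime ∧ ∀ k, b (q.2 k) = k
    · obtain ⟨k₀, hk₀⟩ := hP (ι ⊕ τ) (Lam ι b (n + 2) e) (ch q.1 q.2) (xd τ q.1)
        (chart_ch he q.1 h.2) (xd_nonempty hcard q.1) (xd_disjoint q.1 q.2) p h.1
        (ε / (4 * (w + 1) * M)) (by positivity)
      exact ⟨k₀, fun _ _ => hk₀⟩
    · exact ⟨0, fun h1 h2 => absurd ⟨h1, h2⟩ h⟩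
  choose k₀ hk₀ using hPk
  obtain ⟨k, hk⟩ : ∃ k : ℕ, k = ∑ p ∈ primesUpTo w, ∑ q : ι × (κ → τ), k₀ p q := ⟨_, rfl⟩
  have hkk : ∀ p ∈ primesUpTo w, ∀ q, k₀ p q ≤ k := by
    intro p hp q
    rw [hk]
    exact (Finset.single_le_sum (f := fun q => k₀ p q) (fun _ _ => Nat.zero_le _)
      (Finset.mem_univ q)).trans (Finset.single_le_sum
        (f := fun p => ∑ q : ι × (κ → τ), k₀ p q) (fun _ _ => Nat.zero_le _) hp)
  -- the real place
  have hRg : ∀ q : ι × (κ → τ), ∃ γ : ℝ, 0 < γ ∧ ((∀ k, b (q.2 k) = k) → ∃ H₀ : ℕ, ∀ H : ℕ,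
      H₀ ≤ H → (((box (Lam ι b (n + 2) e) H).filter fun c =>
        ZeroReal (ch q.1 q.2) (fun μ => (c μ : ℝ)) ∧
        ¬ NdReal (ch q.1 q.2) (xd τ q.1) (γ * H) (fun μ => (c μ : ℝ))).card : ℝ) ≤
        ε / (4 * M) * (box (Lam ι b (n + 2) e) H).card) := by
    intro q
    by_cases h : ∀ k, b (q.2 k) = k
    · obtain ⟨γ, hγ, h1⟩ := hR (ι ⊕ τ) (Lam ι b (n + 2) e) (ch q.1 q.2) (xd τ q.1)
        (chart_ch he q.1 h) (xd_nonempty hcard q.1) (xd_disjoint q.1 q.2)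
        (ε / (4 * M)) (by positivity)
      exact ⟨γ, hγ, fun _ => h1⟩
    · exact ⟨1, one_pos, fun h1 => absurd h1 h⟩
  choose γq hγq0 hγq using hRg
  obtain ⟨γR, hγR0, hγR⟩ : ∃ γR : ℝ, 0 < γR ∧ ∀ q, γR ≤ γq q := by
    by_cases hne : Nonempty (ι × (κ → τ))
    · obtain ⟨q₀, hq₀⟩ := Finite.exists_min γq
      exact ⟨γq q₀, hγq0 q₀, hq₀⟩
    · rw [not_nonempty_iff] at hne
      exact ⟨1, one_pos, fun q => hne.elim q⟩
  obtain ⟨γ, θ, B, a₀, γ', η, ρ, Cb, H₁, hmain⟩ := exists_cst (ι := ι) b n e w k hε'0 hγR0 le_rfl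
    (fun w' hw' γ hγ hγ1 Q₀ hQ₀ η₀ hη₀ => by
      obtain ⟨η, h1, h2, h3, H₀, h4⟩ := hcl w' hw' γ hγ hγ1 Q₀ hQ₀ η₀ hη₀
      refine ⟨η, h1, h2, h3, H₀, fun H hH fc S J xc ξ a Li a1 a2 a3 T hT => ?_⟩
      have h5 := h4 H hH fc S J xc ξ a Li a1 a2 a3
      refine le_trans ?_ h5
      have h6 : T ⊆ (sysZ ι (fun _ : Fin 1 => n) (η * H / (S * J : ℕ))).filter (fun g =>
          ¬ ZeroNearS η₀ ξ S xc (memS fc S J g)) := by
        intro g hg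
        obtain ⟨h7, h8⟩ := hT g hg
        exact Finset.mem_filter.2 ⟨mem_sysZ.2 h7, h8⟩
      exact_mod_cast Finset.card_le_card h6)
  choose! HP hHP using fun (p : ℕ) (hp : p ∈ primesUpTo w) (q : ι × (κ → τ))
    (hq : ∀ k, b (q.2 k) = k) => hk₀ p q (mem_primesUpTo.mp hp).2 hq k (hkk p hp q)
  choose! HR hHR using hγq
  refine ⟨⌈H₁⌉₊ + (∑ p ∈ primesUpTo w, ∑ q : ι × (κ → τ), HP p q) + ∑ q : ι × (κ → τ), HR q,
    fun H hH => ?_⟩
  have hH1 : H₁ ≤ (H : ℝ) := by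
    have h1 : ⌈H₁⌉₊ ≤ H := by omega
    exact (Nat.le_ceil H₁).trans (by exact_mod_cast h1)
  have hH2 : ∀ p ∈ primesUpTo w, ∀ q, HP p q ≤ H := by
    intro p hp q
    have h1 := (Finset.single_le_sum (f := fun q => HP p q) (fun _ _ => Nat.zero_le _)
      (Finset.mem_univ q)).trans (Finset.single_le_sum
        (f := fun p => ∑ q : ι × (κ → τ), HP p q) (fun _ _ => Nat.zero_le _) hp)
    have h2 : _ ≤ _ := h1
    omega
  have hH3 : ∀ q, HR q ≤ H := by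
    intro q
    have h1 := Finset.single_le_sum (f := fun q => HR q) (fun _ _ => Nat.zero_le _)
      (Finset.mem_univ q)
    have h2 : _ ≤ _ := h1
    omega
  obtain ⟨⟨N, hC, hN⟩, hgood⟩ := hmain H hH1
  obtain ⟨G, hG⟩ : ∃ G : ℝ, ((box (Lam ι b (n + 2) e) H).card : ℝ) = G := ⟨_, rfl⟩
  have hG0 : 0 < G := by rw [← hG]; exact box_pos _ _
  -- good data
  have hA : (((box (Lam ι b (n + 2) e) H).filter fun c => (∃ D : Dt ι τ,
      GoodD w ((∏ p ∈ primesUpTo w, p) ^ (2 * k + 1)) B a₀ γ θ H D c) ∧ ¬ HasPt c).card : ℝ) ≤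
      ε / 4 * G := by
    have h1 := avg_count (H₁ := H) hC (by exact_mod_cast hN)
    have h2 := box_two (Lam ι b (n + 2) e) H
    have h3 := box_two (Lam ι b (n + 2) e) N
    have h4 := box_pos (Lam ι b (n + 2) e) N
    rw [hG, ← hm] at h2
    rw [← hm] at h3
    obtain ⟨X, hX⟩ : ∃ X : ℝ, (((box (Lam ι b (n + 2) e) H).filter fun c => (∃ D : Dt ι τ,
      GoodD w ((∏ p ∈ primesUpTo w, p) ^ (2 * k + 1)) B a₀ γ θ H D c) ∧ ¬ HasPt c).card : ℝ) = X :=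
      ⟨_, rfl⟩
    rw [hX] at h1 ⊢
    have h5 : ((box (Lam ι b (n + 2) e) (2 * H)).card : ℝ) *
        (box (Lam ι b (n + 2) e) (2 * N)).card ≤
        (2 ^ m * G) * (2 ^ m * (box (Lam ι b (n + 2) e) N).card) :=
      mul_le_mul h2 h3 (Nat.cast_nonneg _) (by positivity)
    have h6 := h1.trans (mul_le_mul_of_nonneg_left h5 hε'0.le)
    have h7 : ε' * ((2 ^ m * G) * (2 ^ m * (box (Lam ι b (n + 2) e) N).card)) =
        ε / 4 * G * (box (Lam ι b (n + 2) e) N).card := by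
      rw [hε']
      field_simp
    rw [h7] at h6
    exact le_of_mul_le_mul_right h6 h4
  -- covering
  have hcov : (box (Lam ι b (n + 2) e) H).filter (fun c => ElsC c ∧ ¬ HasPt c) ⊆
      ((box (Lam ι b (n + 2) e) H).filter fun c => (∃ D : Dt ι τ,
        GoodD w ((∏ p ∈ primesUpTo w, p) ^ (2 * k + 1)) B a₀ γ θ H D c) ∧ ¬ HasPt c) ∪
      ((primesUpTo w ×ˢ (Finset.univ.filter fun q : ι × (κ → τ) => ∀ k, b (q.2 k) = k)).biUnion
        (fun r => (box (Lam ι b (n + 2) e) H).filter fun c =>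
          (∀ E : ℕ, ZeroMod (ch r.2.1 r.2.2) ((r.1 : ℤ) ^ E) c) ∧
            ¬ NdMod (ch r.2.1 r.2.2) (xd τ r.2.1) r.1 k c) ∪
      (Finset.univ.filter fun q : ι × (κ → τ) => ∀ k, b (q.2 k) = k).biUnion
        (fun q => (box (Lam ι b (n + 2) e) H).filter fun c =>
          ZeroReal (ch q.1 q.2) (fun μ => (c μ : ℝ)) ∧
            ¬ NdReal (ch q.1 q.2) (xd τ q.1) (γq q * H) (fun μ => (c μ : ℝ)))) := by
    intro c hc
    obtain ⟨hc1, ⟨hc2, hc3⟩, hc4⟩ := Finset.mem_filter.mp hc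
    rw [Finset.mem_union, Finset.mem_union, Finset.mem_biUnion, Finset.mem_biUnion,
      Finset.mem_filter]
    by_cases hb1 : ∀ p ∈ primesUpTo w, LocP p k c
    · by_cases hb2 : LocR (γR * H) c
      · left
        exact ⟨hc1, hgood c (fun μ => by
          have := mem_box.1 hc1 μ
          rw [← Int.cast_abs]
          exact_mod_cast this) hb1 hb2, hc4⟩
      · right; right
        obtain ⟨r, s, hs, hz⟩ := hc3
        refine ⟨(r, s), Finset.mem_filter.2 ⟨Finset.mem_univ _, hs⟩,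
          Finset.mem_filter.2 ⟨hc1, hz, fun hnd => hb2 (locR_of (r := r) hs ?_)⟩⟩
        obtain ⟨z, z1, z2, z3, v, hv, z4⟩ := hnd
        exact ⟨z, z1, z2, z3, v, hv, lt_of_le_of_lt
          (mul_le_mul_of_nonneg_right (hγR _) (Nat.cast_nonneg _)) z4⟩
    · right; left
      push Not at hb1
      obtain ⟨p, hp, hb⟩ := hb1
      obtain ⟨r, s, hs, hz⟩ := hc2 p (mem_primesUpTo.mp hp).2
      exact ⟨(p, (r, s)), Finset.mem_product.2 ⟨hp, Finset.mem_filter.2 ⟨Finset.mem_univ _, hs⟩⟩,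
        Finset.mem_filter.2 ⟨hc1, hz, fun hnd => hb (locP_of hs hnd)⟩⟩
  have hB : ∀ r ∈ primesUpTo w ×ˢ (Finset.univ.filter fun q : ι × (κ → τ) => ∀ k, b (q.2 k) = k),
      (((box (Lam ι b (n + 2) e) H).filter fun c =>
          (∀ E : ℕ, ZeroMod (ch r.2.1 r.2.2) ((r.1 : ℤ) ^ E) c) ∧
            ¬ NdMod (ch r.2.1 r.2.2) (xd τ r.2.1) r.1 k c).card : ℝ) ≤
        ε / (4 * (w + 1) * M) * G := by
    intro r hr
    rw [Finset.mem_product, Finset.mem_filter] at hr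
    rw [← hG]
    exact hHP r.1 hr.1 r.2 hr.2.2 H (hH2 r.1 hr.1 r.2)
  have hD : ∀ q ∈ (Finset.univ.filter fun q : ι × (κ → τ) => ∀ k, b (q.2 k) = k),
      (((box (Lam ι b (n + 2) e) H).filter fun c =>
          ZeroReal (ch q.1 q.2) (fun μ => (c μ : ℝ)) ∧
            ¬ NdReal (ch q.1 q.2) (xd τ q.1) (γq q * H) (fun μ => (c μ : ℝ))).card : ℝ) ≤
        ε / (4 * M) * G := by
    intro q hq
    rw [Finset.mem_filter] at hq
    rw [← hG]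
    exact hHR q hq.2 H (hH3 q)
  have hch : (((Finset.univ.filter fun q : ι × (κ → τ) => ∀ k, b (q.2 k) = k).card : ℕ) : ℝ) ≤
      M := by
    have h1 : (Finset.univ.filter fun q : ι × (κ → τ) => ∀ k, b (q.2 k) = k).card ≤
        Fintype.card (ι × (κ → τ)) := Finset.card_filter_le _ _
    have h2 : (((Finset.univ.filter fun q : ι × (κ → τ) => ∀ k, b (q.2 k) = k).card : ℕ) : ℝ) ≤
        Fintype.card (ι × (κ → τ)) := by exact_mod_cast h1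
    rw [hM]
    linarith
  have hpr : (((primesUpTo w).card : ℕ) : ℝ) ≤ w + 1 := by
    have : (primesUpTo w).card ≤ w + 1 := by
      unfold primesUpTo
      refine (Finset.card_filter_le _ _).trans ?_
      rw [Finset.card_range]
    exact_mod_cast this
  have h1 := (Finset.card_le_card hcov).trans ((Finset.card_union_le _ _).trans
    (Nat.add_le_add_left ((Finset.card_union_le _ _).trans
      (Nat.add_le_add Finset.card_biUnion_le Finset.card_biUnion_le)) _))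
  have h2 := (Nat.cast_le (α := ℝ)).2 h1
  push_cast at h2
  have h3 := Finset.sum_le_card_nsmul _ _ _ hB
  have h4 := Finset.sum_le_card_nsmul _ _ _ hD
  rw [nsmul_eq_mul, Finset.card_product] at h3
  rw [nsmul_eq_mul] at h4
  have h5 : ((((primesUpTo w).card * (Finset.univ.filter fun q : ι × (κ → τ) =>
      ∀ k, b (q.2 k) = k).card : ℕ) : ℕ) : ℝ) * (ε / (4 * (w + 1) * M) * G) ≤ ε / 4 * G := by
    push_cast
    have h6 : (((primesUpTo w).card : ℕ) : ℝ) * (((Finset.univ.filter fun q : ι × (κ → τ) =>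
        ∀ k, b (q.2 k) = k).card : ℕ) : ℝ) ≤ (w + 1) * M :=
      mul_le_mul hpr hch (Nat.cast_nonneg _) (by positivity)
    refine (mul_le_mul_of_nonneg_right h6 (by positivity)).trans (le_of_eq ?_)
    field_simp
  have h6 : ((((Finset.univ.filter fun q : ι × (κ → τ) =>
      ∀ k, b (q.2 k) = k).card : ℕ) : ℕ) : ℝ) * (ε / (4 * M) * G) ≤ ε / 4 * G := by
    refine (mul_le_mul_of_nonneg_right hch (by positivity)).trans (le_of_eq ?_)
    field_simp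
  rw [hG]
  have h7 : 0 < ε * G := by positivity
  linarith

end

end Pool.Agent.T2H40.MB
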