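import Pool.Agent.T2H40.MB.Final0

/-!
# Package F1: local points can be moved to the charts
-/

set_option autoImplicit false
set_option linter.unusedSectionVars false

namespace Pool.Agent.T2H40.MB

section

variable {ι τ κ : Type} [Fintype ι] [Fintype τ] [Fintype κ] [DecidableEq ι] [DecidableEq τ]
  [DecidableEq κ] {b : τ → κ} {d : ℕ} {e : κ → ℕ}

/-- a coordinate of the largest absolute value -/
theorem exists_big {K : Type} [NormedField K] {α : Type} [Finite α] (P : α → Prop) (x : α → K)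
    (h : ∃ i, P i ∧ x i ≠ 0) : ∃ r, P r ∧ x r ≠ 0 ∧ ∀ i, P i → ‖x i / x r‖ ≤ 1 := by
  obtain ⟨i₀, hi₀, hx₀⟩ := h
  have : Nonempty {i // P i} := ⟨⟨i₀, hi₀⟩⟩
  obtain ⟨⟨r, hr⟩, h1⟩ := Finite.exists_max fun i : {i // P i} => ‖x i.1‖
  have h2 : 0 < ‖x r‖ := lt_of_lt_of_le (norm_pos_iff.2 hx₀) (h1 ⟨i₀, hi₀⟩)
  refine ⟨r, hr, norm_pos_iff.1 h2, fun i hi => ?_⟩
  rw [norm_div, div_le_one h2]
  exact h1 ⟨i, hi⟩

/-- the point in the chart -/
theorem exists_chart {K : Type} [NormedField K] {c : Lam ι b d e → ℤ} (h : PtK K c) :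
    ∃ (r : ι) (s : κ → τ), (∀ k, b (s k) = k) ∧ ∃ z : ι ⊕ τ → K, (∀ v ∈ ch r s, z v = 1) ∧
      (∀ v, ‖z v‖ ≤ 1) ∧ val (fun μ => (c μ : K)) z = 0 := by
  obtain ⟨x, y, hx, hy, h0⟩ := h
  obtain ⟨i₀, hi₀⟩ := Function.ne_iff.1 hx
  obtain ⟨r, -, hr0, hr⟩ := exists_big (fun _ : ι => True) x ⟨i₀, trivial, hi₀⟩
  have h1 : ∀ k, ∃ r, b r = k ∧ y r ≠ 0 ∧ ∀ i, b i = k → ‖y i / y r‖ ≤ 1 := fun k =>
    exists_big (fun v => b v = k) y (hy k)
  choose s hs hs0 hs1 using h1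
  refine ⟨r, s, hs, Sum.elim (fun i => (x r)⁻¹ * x i) (fun v => (y (s (b v)))⁻¹ * y v),
    ?_, ?_, ?_⟩
  · intro v hv
    rcases v with i | v
    · rw [inl_mem_ch] at hv
      subst hv
      rw [Sum.elim_inl]
      exact inv_mul_cancel₀ hr0
    · rw [inr_mem_ch] at hv
      obtain ⟨k, rfl⟩ := hv
      rw [Sum.elim_inr, hs k]
      exact inv_mul_cancel₀ (hs0 k)
  · intro v
    rcases v with i | v
    · rw [Sum.elim_inl, mul_comm, ← div_eq_mul_inv]
      exact hr i trivial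
    · rw [Sum.elim_inr, mul_comm, ← div_eq_mul_inv]
      exact hs1 (b v) v rfl
  · rw [val_x, val_block _ x (fun k => (y (s k))⁻¹) y, h0, mul_zero, mul_zero]

/-- **Package F1.** -/
theorem f1_stmt : F1Stmt := by
  intro ι τ κ _ _ _ _ _ _ b d e c h
  refine ⟨fun p hp => ?_, ?_⟩
  · have : Fact p.Prime := ⟨hp⟩
    obtain ⟨r, s, hs, z, hz1, hz2, hz3⟩ := exists_chart (h.2 p)
    obtain ⟨w, hw⟩ : ∃ w : ι ⊕ τ → ℤ_[p], ∀ v, (w v : ℚ_[p]) = z v :=
      ⟨fun v => ⟨z v, hz2 v⟩, fun v => rfl⟩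
    refine ⟨r, s, hs, fun E => ?_⟩
    have h1 : ∀ v, ∃ a : ℤ, (v ∈ ch r s → a = 1) ∧
        (Int.castRingHom (ZMod (p ^ E)) a) = PadicInt.toZModPow E (w v) := by
      intro v
      by_cases hv : v ∈ ch r s
      · refine ⟨1, fun _ => rfl, ?_⟩
        have h2 : w v = 1 := by
          apply Subtype.ext
          rw [hw v, hz1 v hv]
          rfl
        rw [h2, map_one, map_one]
      · obtain ⟨a, ha⟩ := ZMod.intCast_surjective (PadicInt.toZModPow E (w v))
        exact ⟨a, fun h => absurd h hv, ha⟩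
    choose a ha1 ha2 using h1
    refine ⟨a, ha1, ?_⟩
    have h2 : val (fun μ => (c μ : ℤ_[p])) w = 0 := by
      have h3 := val_hom (PadicInt.Coe.ringHom (p := p)) (fun μ => (c μ : ℤ_[p])) w
      have h3' : val (fun μ => PadicInt.Coe.ringHom (p := p) ((c μ : ℤ) : ℤ_[p]))
          (fun v => PadicInt.Coe.ringHom (p := p) (w v)) = 0 := by
        have h7 : (fun μ => PadicInt.Coe.ringHom (p := p) ((c μ : ℤ) : ℤ_[p])) =
            fun μ => ((c μ : ℤ) : ℚ_[p]) :=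
          funext fun μ => map_intCast (PadicInt.Coe.ringHom (p := p)) (c μ)
        have h8 : (fun v => PadicInt.Coe.ringHom (p := p) (w v)) = z := funext hw
        rw [h7, h8, hz3]
      rw [h3'] at h3
      exact Subtype.ext h3.symm
    have h4 := val_hom (PadicInt.toZModPow (p := p) E) (fun μ => (c μ : ℤ_[p])) w
    have h5 := val_hom (Int.castRingHom (ZMod (p ^ E))) c a
    rw [h2, map_zero] at h4
    have h6 : ((val c a : ℤ) : ZMod (p ^ E)) = 0 := by
      have h7 : (fun μ => PadicInt.toZModPow (p := p) E ((c μ : ℤ) : ℤ_[p])) =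
          fun μ => Int.castRingHom (ZMod (p ^ E)) (c μ) :=
        funext fun μ => map_intCast (PadicInt.toZModPow (p := p) E) (c μ)
      have h8 : (fun v => PadicInt.toZModPow (p := p) E (w v)) =
          fun v => Int.castRingHom (ZMod (p ^ E)) (a v) := funext fun v => (ha2 v).symm
      rw [h7, h8] at h4
      exact h5.symm.trans h4
    rw [ZMod.intCast_zmod_eq_zero_iff_dvd] at h6
    exact_mod_cast h6
  · obtain ⟨r, s, hs, z, hz1, hz2, hz3⟩ := exists_chart h.1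
    exact ⟨r, s, hs, z, hz1, fun v => by simpa [Real.norm_eq_abs] using hz2 v, hz3⟩

end

end Pool.Agent.T2H40.MB
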