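import Mathlib
import Pool.Agent.T2H40.MB.Defs

/-!
# Package S: almost all polynomials define smooth hypersurfaces in the chart
-/

set_option autoImplicit false

namespace Pool.Agent.T2H40.MB.SP

open MvPolynomial

section ker

/-- an algebra homomorphism to a polynomial ring in fewer variables is not injective -/
theorem exists_ker {σ τ : Type} [Fintype σ] [Fintype τ] (h : Fintype.card τ < Fintype.card σ)
    (φ : MvPolynomial σ ℚ →ₐ[ℚ] MvPolynomial τ ℚ) : ∃ D, D ≠ 0 ∧ φ D = 0 := by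
  by_contra hne
  push Not at hne
  have hinj : Function.Injective φ := by
    rw [injective_iff_map_eq_zero]
    intro D hD
    by_contra h0
    exact hne D h0 hD
  have h1 := _root_.trdeg_le_of_injective φ hinj
  rw [MvPolynomial.trdeg_of_isDomain, MvPolynomial.trdeg_of_isDomain, Cardinal.lift_le,
    Cardinal.mk_fintype, Cardinal.mk_fintype] at h1
  have h2 : Fintype.card σ ≤ Fintype.card τ := by exact_mod_cast h1
  omega

open scoped NNRat in
/-- zeros of a nonzero polynomial in a box -/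
theorem sz {σ : Type} [Fintype σ] [DecidableEq σ] (D : MvPolynomial σ ℚ) (hD : D ≠ 0) :
    ∃ C : ℝ, 0 ≤ C ∧
    ∀ N : ℕ, (((Fintype.piFinset (fun _ : σ => Finset.Icc (-(N : ℤ)) N)).filter
      (fun c => eval (fun v => ((c v : ℤ) : ℚ)) D = 0)).card : ℝ) * (2 * N + 1) ≤
      C * ((2 * N + 1 : ℕ) : ℝ) ^ Fintype.card σ := by
  set ε := Fintype.equivFin σ with hε
  set D' : MvPolynomial (Fin (Fintype.card σ)) ℚ := rename ε D with hD'
  have hD'0 : D' ≠ 0 := by
    intro h
    apply hD
    apply rename_injective ε ε.injective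
    rw [← hD', h, map_zero]
  refine ⟨D'.totalDegree, Nat.cast_nonneg _, fun N => ?_⟩
  set S : Finset ℚ := (Finset.Icc (-(N : ℤ)) N).image (fun z : ℤ => (z : ℚ)) with hS
  have hScard : S.card = 2 * N + 1 := by
    rw [hS, Finset.card_image_of_injective _ (fun a b h => by exact_mod_cast h), Int.card_Icc]
    omega
  have h1 := schwartz_zippel_totalDegree hD'0 S
  have h2 : ((Fintype.piFinset (fun _ : σ => Finset.Icc (-(N : ℤ)) N)).filter
      (fun c => eval (fun v => ((c v : ℤ) : ℚ)) D = 0)).card ≤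
      ((Fintype.piFinset (fun _ : Fin (Fintype.card σ) => S)).filter
        (fun f => eval f D' = 0)).card := by
    apply Finset.card_le_card_of_injOn (fun c i => ((c (ε.symm i) : ℤ) : ℚ))
    · intro c hc
      rw [Finset.mem_coe, Finset.mem_filter, Fintype.mem_piFinset] at hc
      rw [Finset.mem_coe, Finset.mem_filter, Fintype.mem_piFinset]
      refine ⟨fun i => ?_, ?_⟩
      · rw [hS, Finset.mem_image]
        exact ⟨_, hc.1 _, rfl⟩
      · rw [hD', eval_rename]
        convert hc.2 using 3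
        ext v
        simp
    · intro c _ c' _ h
      ext v
      have := congrFun h (ε v)
      simp only [Equiv.symm_apply_apply] at this
      exact_mod_cast this
  have h3 : (((Fintype.piFinset (fun _ : Fin (Fintype.card σ) => S)).filter
        (fun f => eval f D' = 0)).card : ℚ≥0) * (2 * N + 1) ≤
        D'.totalDegree * ((2 * N + 1 : ℕ) : ℚ≥0) ^ Fintype.card σ := by
    rw [hScard] at h1
    rw [div_le_div_iff₀ (by positivity) (by positivity)] at h1
    push_cast at h1 ⊢
    exact h1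
  have h4 : (((Fintype.piFinset (fun _ : Fin (Fintype.card σ) => S)).filter
        (fun f => eval f D' = 0)).card) * (2 * N + 1) ≤
        D'.totalDegree * (2 * N + 1) ^ Fintype.card σ := by
    exact_mod_cast h3
  have h5 : ((((Fintype.piFinset (fun _ : Fin (Fintype.card σ) => S)).filter
        (fun f => eval f D' = 0)).card : ℕ) : ℝ) * (2 * N + 1) ≤
        D'.totalDegree * ((2 * N + 1 : ℕ) : ℝ) ^ Fintype.card σ := by
    exact_mod_cast h4
  refine le_trans ?_ h5
  gcongr

end ker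

section gen

variable {V : Type} [Fintype V] [DecidableEq V] {Λ : Finset (V →₀ ℕ)}
variable {R : Type} [CommRing R]

/-- the monomial -/
def mon (μ : V →₀ ℕ) (z : V → R) : R := ∏ v, z v ^ (μ v)

/-- its partial derivative -/
def dmon (μ : V →₀ ℕ) (v : V) (z : V → R) : R :=
  (μ v : R) * ∏ w, z w ^ (if w = v then μ w - 1 else μ w)

omit [DecidableEq V] in
theorem val_eq (c : Λ → R) (z : V → R) : val c z = ∑ μ : Λ, c μ * mon μ.1 z := rfl

theorem der_eq (c : Λ → R) (v : V) (z : V → R) : der c v z = ∑ μ : Λ, c μ * dmon μ.1 v z := rfl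

/-- the data of a chart -/
structure CD (Λ : Finset (V →₀ ℕ)) (A : Finset V) (m0 : Λ) (mv : V → Λ) : Prop where
  h0 : ∀ v, v ∉ A → m0.1 v = 0
  h1 : ∀ v, v ∉ A → (mv v).1 v = 1
  h2 : ∀ v, v ∉ A → ∀ w, w ∉ A → w ≠ v → (mv v).1 w = 0

omit [Fintype V] [DecidableEq V] in
theorem exists_CD {A : Finset V} (h : Chart Λ A) : ∃ (m0 : Λ) (mv : V → Λ), CD Λ A m0 mv := by
  classical
  obtain ⟨μ, hμ, h0⟩ := h.base
  have hl : ∀ v, ∃ ν : Λ, v ∉ A → ν.1 v = 1 ∧ ∀ w, w ∉ A → w ≠ v → ν.1 w = 0 := by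
    intro v
    by_cases hv : v ∈ A
    · exact ⟨⟨μ, hμ⟩, fun h => absurd hv h⟩
    · obtain ⟨ν, hν, h1, h2⟩ := h.lin v hv
      exact ⟨⟨ν, hν⟩, fun _ => ⟨h1, h2⟩⟩
  choose mv hmv using hl
  exact ⟨⟨μ, hμ⟩, mv, h0, fun v hv => (hmv v hv).1, fun v hv => (hmv v hv).2⟩

variable {A : Finset V} {m0 : Λ} {mv : V → Λ} (cd : CD Λ A m0 mv)
include cd

omit [DecidableEq V] in
theorem CD.mon0 {z : V → R} (hz : ∀ v ∈ A, z v = 1) : mon m0.1 z = 1 := by
  unfold mon
  apply Finset.prod_eq_one
  intro v _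
  by_cases hv : v ∈ A
  · rw [hz v hv, one_pow]
  · rw [cd.h0 v hv, pow_zero]

theorem CD.dmon0 (z : V → R) {v : V} (hv : v ∉ A) : dmon m0.1 v z = 0 := by
  unfold dmon
  rw [cd.h0 v hv]
  simp

theorem CD.monv {z : V → R} (hz : ∀ v ∈ A, z v = 1) {v : V} (hv : v ∉ A) :
    mon (mv v).1 z = z v := by
  unfold mon
  rw [← Finset.mul_prod_erase Finset.univ _ (Finset.mem_univ v), cd.h1 v hv, pow_one]
  rw [Finset.prod_eq_one, mul_one]
  intro w hw
  by_cases hwA : w ∈ A
  · rw [hz w hwA, one_pow]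
  · rw [cd.h2 v hv w hwA (Finset.ne_of_mem_erase hw), pow_zero]

theorem CD.dmonv {z : V → R} (hz : ∀ v ∈ A, z v = 1) {v : V} (hv : v ∉ A) :
    dmon (mv v).1 v z = 1 := by
  unfold dmon
  rw [cd.h1 v hv, Nat.cast_one, one_mul]
  apply Finset.prod_eq_one
  intro w _
  by_cases hwv : w = v
  · subst hwv
    rw [if_pos rfl, cd.h1 w hv]
    simp
  · rw [if_neg hwv]
    by_cases hwA : w ∈ A
    · rw [hz w hwA, one_pow]
    · rw [cd.h2 v hv w hwA hwv, pow_zero]

theorem CD.dmonw (z : V → R) {v w : V} (hv : v ∉ A) (hw : w ∉ A) (hwv : w ≠ v) :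
    dmon (mv v).1 w z = 0 := by
  unfold dmon
  rw [cd.h2 v hv w hw hwv]
  simp

omit [Fintype V] [DecidableEq V] in
theorem CD.ne0 {v : V} (hv : v ∉ A) : mv v ≠ m0 := by
  intro h
  have h1 := cd.h1 v hv
  rw [h, cd.h0 v hv] at h1
  exact zero_ne_one h1

omit [Fintype V] [DecidableEq V] in
theorem CD.inj {v w : V} (hv : v ∉ A) (hw : w ∉ A) (h : mv v = mv w) : v = w := by
  by_contra hne
  have h1 := cd.h1 v hv
  rw [h, cd.h2 w hw v hv hne] at h1
  exact zero_ne_one h1

end gen

section decomp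

variable {V : Type} [Fintype V] [DecidableEq V] {Λ : Finset (V →₀ ℕ)}
variable {R : Type} [CommRing R]

open scoped Classical in
/-- remove the special coefficients -/
noncomputable def c1 (A : Finset V) (m0 : Λ) (mv : V → Λ) (c : Λ → R) : Λ → R := fun μ =>
  if μ = m0 ∨ ∃ v, v ∉ A ∧ mv v = μ then 0 else c μ

theorem sum_decomp {A : Finset V} {m0 : Λ} {mv : V → Λ} (cd : CD Λ A m0 mv) (c g : Λ → R) :
    ∑ μ : Λ, c μ * g μ = c m0 * g m0 + ∑ v ∈ Aᶜ, c (mv v) * g (mv v)
      + ∑ μ : Λ, c1 A m0 mv c μ * g μ := by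
  classical
  have h1 : ∀ μ : Λ, c μ * g μ = (if μ = m0 ∨ ∃ v, v ∉ A ∧ mv v = μ then c μ * g μ else 0)
      + c1 A m0 mv c μ * g μ := by
    intro μ
    unfold c1
    split_ifs <;> ring
  rw [Finset.sum_congr rfl fun μ _ => h1 μ, Finset.sum_add_distrib]
  congr 1
  rw [← Finset.sum_filter]
  have h2 : (Finset.univ.filter fun μ : Λ => μ = m0 ∨ ∃ v, v ∉ A ∧ mv v = μ)
      = insert m0 (Aᶜ.image mv) := by
    ext μ
    simp [Finset.mem_image]
  rw [h2, Finset.sum_insert, Finset.sum_image]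
  · intro v hv w hw h
    exact cd.inj (by simpa using hv) (by simpa using hw) h
  · intro h
    obtain ⟨v, hv, hv'⟩ := Finset.mem_image.1 h
    exact cd.ne0 (by simpa using hv) hv'

theorem val_decomp {A : Finset V} {m0 : Λ} {mv : V → Λ} (cd : CD Λ A m0 mv) (c : Λ → R)
    {z : V → R} (hz : ∀ v ∈ A, z v = 1) :
    val c z = c m0 + ∑ v ∈ Aᶜ, c (mv v) * z v + val (c1 A m0 mv c) z := by
  rw [val_eq, sum_decomp cd c (fun μ => mon μ.1 z), cd.mon0 hz, mul_one, ← val_eq]
  congr 2
  apply Finset.sum_congr rfl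
  intro v hv
  rw [cd.monv hz (by simpa using hv)]

theorem der_decomp {A : Finset V} {m0 : Λ} {mv : V → Λ} (cd : CD Λ A m0 mv) (c : Λ → R)
    {z : V → R} (hz : ∀ v ∈ A, z v = 1) {x : V} (hx : x ∉ A) :
    der c x z = c (mv x) + der (c1 A m0 mv c) x z := by
  rw [der_eq, sum_decomp cd c (fun μ => dmon μ.1 x z), cd.dmon0 z hx, mul_zero, ← der_eq,
    zero_add]
  congr 1
  rw [Finset.sum_eq_single x]
  · rw [cd.dmonv hz hx, mul_one]
  · intro v hv hvx
    rw [cd.dmonw z (by simpa using hv) hx (Ne.symm hvx), mul_zero]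
  · intro h
    exact absurd (by simpa using hx) h

omit [DecidableEq V] in
theorem val_map {S : Type} [CommRing S] (f : R →+* S) (c : Λ → R) (z : V → R) :
    f (val c z) = val (fun μ => f (c μ)) (fun v => f (z v)) := by
  unfold val
  simp [map_sum, map_mul, map_prod, map_pow]

theorem der_map {S : Type} [CommRing S] (f : R →+* S) (c : Λ → R) (x : V) (z : V → R) :
    f (der c x z) = der (fun μ => f (c μ)) x (fun v => f (z v)) := by
  unfold der
  simp only [map_sum, map_mul, map_prod, map_pow, map_natCast]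

end decomp

end Pool.Agent.T2H40.MB.SP

namespace Pool.Agent.T2H40.MB

open SP MvPolynomial

/-- **Package S** -/
theorem s_stmt : SStmt := by
  classical
  intro V _ _ Λ A hA ε hε
  obtain ⟨m0, mv, cd⟩ := exists_CD hA
  let τ : Type := {μ : Λ // μ ≠ m0}
  let xx : Λ → MvPolynomial τ ℚ := fun μ => if h : μ = m0 then 0 else X ⟨μ, h⟩
  let Z : V → MvPolynomial τ ℚ := fun v => if v ∈ A then 1 else xx (mv v)
  let C1 : Λ → MvPolynomial τ ℚ := c1 A m0 mv xx
  let g : Λ → MvPolynomial τ ℚ := fun μ => if μ = m0 then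
      -(val C1 Z - ∑ v ∈ Aᶜ, der C1 v Z * Z v)
    else if h : ∃ v, v ∉ A ∧ mv v = μ then - der C1 h.choose Z else xx μ
  have hcard : Fintype.card τ < Fintype.card Λ := by
    have : Fintype.card τ = Fintype.card Λ - 1 := by
      show Fintype.card {μ : Λ // μ ≠ m0} = _
      rw [Fintype.card_subtype_compl, Fintype.card_subtype_eq]
    have hpos : 0 < Fintype.card Λ := Fintype.card_pos_iff.2 ⟨m0⟩
    omega
  obtain ⟨D, hD0, hD⟩ := exists_ker hcard (aeval g)
  obtain ⟨C, hC0, hC⟩ := sz D hD0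
  obtain ⟨N, hN⟩ := exists_nat_gt (C / ε)
  refine ⟨N, fun H hH => ?_⟩
  set S := (box Λ H).filter fun c => ∃ (K : Type) (_ : Field K) (_ : CharZero K) (z : V → K),
        (∀ v ∈ A, z v = 1) ∧ val (fun μ => (c μ : K)) z = 0 ∧
          ∀ v, v ∉ A → der (fun μ => (c μ : K)) v z = 0 with hS
  have hsub : S ⊆ (Fintype.piFinset (fun _ : Λ => Finset.Icc (-(H : ℤ)) H)).filter
      (fun c => eval (fun v => ((c v : ℤ) : ℚ)) D = 0) := by
    intro c hc
    rw [hS, Finset.mem_filter] at hc
    obtain ⟨hbox, K, _, _, z, hzA, hz0, hzd⟩ := hc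
    rw [Finset.mem_filter]
    refine ⟨hbox, ?_⟩
    set cK : Λ → K := fun μ => (c μ : K) with hcK
    set y : τ → K := fun μ => if h : ∃ v, v ∉ A ∧ mv v = μ.1 then z h.choose else cK μ.1 with hy
    set f : MvPolynomial τ ℚ →+* K := (aeval y : MvPolynomial τ ℚ →ₐ[ℚ] K).toRingHom with hf
    have hxx : ∀ μ (h : μ ≠ m0), f (xx μ) = y ⟨μ, h⟩ := by
      intro μ h
      show (aeval y : MvPolynomial τ ℚ →ₐ[ℚ] K) (xx μ) = _
      simp only [xx, dif_neg h, aeval_X]
    have hxv : ∀ v, v ∉ A → f (xx (mv v)) = z v := by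
      intro v hv
      rw [hxx _ (cd.ne0 hv), hy]
      have h : ∃ w, w ∉ A ∧ mv w = mv v := ⟨v, hv, rfl⟩
      simp only [dif_pos h]
      congr 1
      exact cd.inj h.choose_spec.1 hv h.choose_spec.2
    have hZ : (fun v => f (Z v)) = z := by
      funext v
      by_cases h : v ∈ A
      · simp only [Z, h, if_true, map_one]; exact (hzA v h).symm
      · simp only [Z, h, if_false]; exact hxv v h
    have hC1 : (fun μ => f (C1 μ)) = c1 A m0 mv cK := by
      funext μ
      show f (c1 A m0 mv xx μ) = _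
      unfold c1
      by_cases h : μ = m0 ∨ ∃ v, v ∉ A ∧ mv v = μ
      · simp only [h, if_true, map_zero]
      · simp only [h, if_false]
        push Not at h
        have h2 : ¬ ∃ v, v ∉ A ∧ mv v = μ := by
          rintro ⟨v, hv, hv'⟩; exact h.2 v hv hv'
        rw [hxx μ h.1, hy]
        simp only [dif_neg h2]
    have hdv : ∀ v, v ∉ A → cK (mv v) = - der (c1 A m0 mv cK) v z := by
      intro v hv
      have := der_decomp cd cK hzA hv
      rw [hzd v hv] at this
      exact eq_neg_of_add_eq_zero_left this.symm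
    have hg : ∀ μ, f (g μ) = cK μ := by
      intro μ
      by_cases h : μ = m0
      · subst h
        simp only [g, if_true]
        rw [map_neg, map_sub, map_sum, val_map, hC1, hZ]
        have h1 := val_decomp cd cK hzA
        rw [hz0] at h1
        have h2 : ∑ v ∈ Aᶜ, cK (mv v) * z v = - ∑ v ∈ Aᶜ, f (der C1 v Z * Z v) := by
          rw [← Finset.sum_neg_distrib]
          apply Finset.sum_congr rfl
          intro v hv
          rw [map_mul, der_map, hC1, hZ, hdv v (by simpa using hv)]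
          have : f (Z v) = z v := congrFun hZ v
          rw [this]; ring
        rw [h2] at h1
        linear_combination h1
      · by_cases h' : ∃ v, v ∉ A ∧ mv v = μ
        · simp only [g, h, if_false, dif_pos h']
          rw [map_neg, der_map, hC1, hZ, ← hdv _ h'.choose_spec.1, h'.choose_spec.2]
        · simp only [g, h, if_false, dif_neg h']
          rw [hxx μ h, hy]
          simp only [dif_neg h']
    have hDK : (aeval cK : MvPolynomial Λ ℚ →ₐ[ℚ] K) D = 0 := by
      have e : (aeval cK : MvPolynomial Λ ℚ →ₐ[ℚ] K) = (aeval y).comp (aeval g) := by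
        apply MvPolynomial.algHom_ext
        intro μ
        rw [aeval_X, AlgHom.comp_apply, aeval_X]
        exact (hg μ).symm
      rw [e, AlgHom.comp_apply, hD, map_zero]
    have h2 : (aeval cK : MvPolynomial Λ ℚ →ₐ[ℚ] K) D
        = algebraMap ℚ K (eval (fun v => ((c v : ℤ) : ℚ)) D) := by
      have e : cK = fun μ => algebraMap ℚ K ((c μ : ℤ) : ℚ) := by
        funext μ; simp [hcK]
      rw [e, aeval_def, eval₂_eq_eval_map]
      have := MvPolynomial.eval₂_comp_left (algebraMap ℚ K) (RingHom.id ℚ)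
        (fun v => ((c v : ℤ) : ℚ)) D
      rw [eval₂_id] at this
      rw [this, ← eval₂_eq_eval_map]
      rfl
    rw [h2] at hDK
    exact (map_eq_zero_iff _ (algebraMap ℚ K).injective).1 hDK
  have h1 := hC H
  have hbox : ((box Λ H).card : ℝ) = ((2 * H + 1 : ℕ) : ℝ) ^ Fintype.card Λ := by
    unfold box
    rw [Fintype.card_piFinset]
    have : ((Finset.Icc (-(H : ℤ)) H).card) = 2 * H + 1 := by
      rw [Int.card_Icc]; omega
    simp only [this, Finset.prod_const, Finset.card_univ]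
    push_cast; rfl
  have h2 : (S.card : ℝ) * (2 * H + 1) ≤ C * ((box Λ H).card : ℝ) := by
    rw [hbox]
    refine le_trans ?_ h1
    gcongr
  have h3 : C ≤ ε * (2 * H + 1) := by
    rw [div_lt_iff₀ hε] at hN
    have : (N : ℝ) ≤ H := by exact_mod_cast hH
    nlinarith
  have h4 : (S.card : ℝ) * (2 * H + 1) ≤ (ε * (box Λ H).card) * (2 * H + 1) := by
    calc (S.card : ℝ) * (2 * H + 1) ≤ C * ((box Λ H).card : ℝ) := h2
      _ ≤ (ε * (2 * H + 1)) * ((box Λ H).card : ℝ) := by gcongr
      _ = _ := by ring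
  exact le_of_mul_le_mul_right h4 (by positivity)

end Pool.Agent.T2H40.MB
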