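import Pool.Agent.T2H40.MB.Final0
import Pool.Agent.T2H40.MB.S

/-!
# Package F2: almost all the hypersurfaces are smooth
-/

set_option autoImplicit false
set_option linter.unusedSectionVars false

namespace Pool.Agent.T2H40.MB

open MvPolynomial Pool.Agent.Y716.Q

theorem der_scale {V : Type} [Fintype V] [DecidableEq V] {Λ : Finset (V →₀ ℕ)} {K : Type}
    [Field K] (c : Λ → K) (l : V → K) (L : K) (hl : ∀ μ ∈ Λ, ∏ v, l v ^ (μ v) = L) (v : V)
    (z : V → K) : l v * der c v (fun w => l w * z w) = L * der c v z := by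
  unfold der
  rw [Finset.mul_sum, Finset.mul_sum]
  refine Finset.sum_congr rfl fun μ _ => ?_
  by_cases h : μ.1 v = 0
  · rw [h, Nat.cast_zero, zero_mul, zero_mul, mul_zero, mul_zero, mul_zero]
  · have h1 : l v * ∏ w, (l w * z w) ^ (if w = v then μ.1 w - 1 else μ.1 w) =
        L * ∏ w, z w ^ (if w = v then μ.1 w - 1 else μ.1 w) := by
      simp only [mul_pow]
      rw [Finset.prod_mul_distrib, ← mul_assoc]
      congr 1
      rw [← hl μ.1 μ.2, ← Finset.mul_prod_erase Finset.univ _ (Finset.mem_univ v),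
        ← Finset.mul_prod_erase Finset.univ _ (Finset.mem_univ v), ← mul_assoc, if_pos rfl,
        ← pow_succ', Nat.sub_add_cancel (Nat.one_le_iff_ne_zero.2 h)]
      congr 1
      refine Finset.prod_congr rfl fun w hw => ?_
      rw [if_neg (Finset.ne_of_mem_erase hw)]
    calc l v * (c μ * ((μ.1 v : K) * ∏ w, (l w * z w) ^ (if w = v then μ.1 w - 1 else μ.1 w)))
        = c μ * ((μ.1 v : K) * (l v * ∏ w, (l w * z w) ^ (if w = v then μ.1 w - 1 else μ.1 w))) := by
          ring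
      _ = L * (c μ * ((μ.1 v : K) * ∏ w, z w ^ (if w = v then μ.1 w - 1 else μ.1 w))) := by
          rw [h1]
          ring

section

variable {ι τ κ : Type} [Fintype ι] [Fintype τ] [Fintype κ] [DecidableEq ι] [DecidableEq τ]
  [DecidableEq κ] {b : τ → κ} {d : ℕ} {e : κ → ℕ}

theorem prod_tor {K : Type} [Field K] (t : K) (l : κ → K) (μ : ι ⊕ τ →₀ ℕ)
    (hμ : μ ∈ Lam ι b d e) :
    ∏ v, (Sum.elim (fun _ : ι => t) (fun v => l (b v)) v) ^ (μ v) = t ^ d * ∏ k, l k ^ (e k) := by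
  rw [prod_elim, Finset.prod_pow_eq_pow_sum]
  have h1 := px_mem ⟨μ, hμ⟩
  rw [mem_mons] at h1
  dsimp only at h1
  rw [h1]
  congr 1
  have h2 := prod_block (b := b) (e := e) l (fun _ => (1 : K)) (py_mem ⟨μ, hμ⟩)
  simpa using h2

end

open scoped Classical in
/-- **Package F2.** -/
theorem f2_stmt : F2Stmt := by
  intro ι τ κ _ _ _ _ _ _ b d' e hd he ε hε
  obtain ⟨d₀, hd₀⟩ : ∃ d₀, d' = d₀ + 1 := ⟨d' - 1, by omega⟩
  subst hd₀
  obtain ⟨N, hN⟩ : ∃ N : ℝ, N = (Fintype.card (ι × (κ → τ)) : ℝ) + 1 := ⟨_, rfl⟩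
  have hN0 : 0 < N := by rw [hN]; positivity
  have h1 : ∀ q : ι × (κ → τ), ∃ H₀ : ℕ, (∀ k, b (q.2 k) = k) → ∀ H : ℕ, H₀ ≤ H →
      (((box (Lam ι b (d₀ + 1) e) H).filter fun c => ∃ (K : Type) (_ : Field K) (_ : CharZero K)
        (z : ι ⊕ τ → K), (∀ v ∈ ch q.1 q.2, z v = 1) ∧ val (fun μ => (c μ : K)) z = 0 ∧
          ∀ v, v ∉ ch q.1 q.2 → der (fun μ => (c μ : K)) v z = 0).card : ℝ) ≤
      ε / N * (box (Lam ι b (d₀ + 1) e) H).card := by
    intro q
    by_cases h : ∀ k, b (q.2 k) = k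
    · obtain ⟨H₀, hH₀⟩ := s_stmt (ι ⊕ τ) (Lam ι b (d₀ + 1) e) (ch q.1 q.2) (chart_ch he q.1 h)
        (ε / N) (by positivity)
      exact ⟨H₀, fun _ => hH₀⟩
    · exact ⟨0, fun h' => absurd h' h⟩
  choose H₀ hH₀ using h1
  refine ⟨∑ q, H₀ q, fun H hH => ?_⟩
  have hcov : ((box (Lam ι b (d₀ + 1) e) H).filter fun c => ¬ SmK c) ⊆
      (Finset.univ.filter fun q : ι × (κ → τ) => ∀ k, b (q.2 k) = k).biUnion fun q =>
        (box (Lam ι b (d₀ + 1) e) H).filter fun c => ∃ (K : Type) (_ : Field K) (_ : CharZero K)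
        (z : ι ⊕ τ → K), (∀ v ∈ ch q.1 q.2, z v = 1) ∧ val (fun μ => (c μ : K)) z = 0 ∧
          ∀ v, v ∉ ch q.1 q.2 → der (fun μ => (c μ : K)) v z = 0 := by
    intro c hc
    rw [Finset.mem_filter] at hc
    obtain ⟨hc1, hc2⟩ := hc
    unfold SmK at hc2
    push Not at hc2
    obtain ⟨K, hK1, hK2, x, y, hx, hy, h0, hder⟩ := hc2
    obtain ⟨r, hr⟩ := Function.ne_iff.1 hx
    choose s hs hs0 using hy
    rw [Finset.mem_biUnion]
    refine ⟨(r, s), Finset.mem_filter.2 ⟨Finset.mem_univ _, hs⟩,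
      Finset.mem_filter.2 ⟨hc1, K, hK1, hK2, fun v =>
        Sum.elim (fun _ : ι => (x r)⁻¹) (fun v => (y (s (b v)))⁻¹) v * Sum.elim x y v,
        ?_, ?_, ?_⟩⟩
    · intro v hv
      rcases v with i | v
      · rw [inl_mem_ch] at hv
        subst hv
        exact inv_mul_cancel₀ hr
      · rw [inr_mem_ch] at hv
        obtain ⟨k, rfl⟩ := hv
        change (y (s (b (s k))))⁻¹ * y (s k) = 1
        rw [hs k]
        exact inv_mul_cancel₀ (hs0 k)
    · have h2 : (fun v => Sum.elim (fun _ : ι => (x r)⁻¹) (fun v => (y (s (b v)))⁻¹) v *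
          Sum.elim x y v) = Sum.elim (fun i => (x r)⁻¹ * x i) (fun v => (y (s (b v)))⁻¹ * y v) := by
        funext v
        rcases v with v | v <;> rfl
      rw [h2, val_x, val_block _ x (fun k => (y (s k))⁻¹) y, h0, mul_zero, mul_zero]
    · intro v _
      have h3 := der_scale (fun μ : Lam ι b (d₀ + 1) e => (c μ : K))
        (Sum.elim (fun _ : ι => (x r)⁻¹) (fun v => (y (s (b v)))⁻¹)) _
        (prod_tor (x r)⁻¹ (fun k => (y (s k))⁻¹)) v (Sum.elim x y)
      rw [hder v, mul_zero, mul_eq_zero] at h3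
      refine h3.resolve_left ?_
      rcases v with v | v
      · exact inv_ne_zero hr
      · exact inv_ne_zero (hs0 (b v))
  have h2 := (Finset.card_le_card hcov).trans Finset.card_biUnion_le
  have h3 : ∀ q ∈ (Finset.univ.filter fun q : ι × (κ → τ) => ∀ k, b (q.2 k) = k),
      (((box (Lam ι b (d₀ + 1) e) H).filter fun c => ∃ (K : Type) (_ : Field K) (_ : CharZero K)
        (z : ι ⊕ τ → K), (∀ v ∈ ch q.1 q.2, z v = 1) ∧ val (fun μ => (c μ : K)) z = 0 ∧
          ∀ v, v ∉ ch q.1 q.2 → der (fun μ => (c μ : K)) v z = 0).card : ℝ) ≤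
      ε / N * (box (Lam ι b (d₀ + 1) e) H).card := by
    intro q hq
    exact hH₀ q (Finset.mem_filter.1 hq).2 H
      ((Finset.single_le_sum (f := H₀) (fun _ _ => Nat.zero_le _) (Finset.mem_univ q)).trans hH)
  have h4 := Finset.sum_le_card_nsmul _ _ _ h3
  have h5 : (((Finset.univ.filter fun q : ι × (κ → τ) => ∀ k, b (q.2 k) = k).card : ℕ) : ℝ) ≤
      N := by
    have : (((Finset.univ.filter fun q : ι × (κ → τ) => ∀ k, b (q.2 k) = k).card : ℕ) : ℝ) ≤
        Fintype.card (ι × (κ → τ)) := by exact_mod_cast Finset.card_filter_le _ _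
    rw [hN]
    linarith
  have h6 := (Nat.cast_le (α := ℝ)).2 h2
  push_cast at h6
  rw [nsmul_eq_mul] at h4
  refine le_trans ?_ ((h6.trans h4).trans ?_)
  · exact cf_le _ fun c _ h => h
  · refine (mul_le_mul_of_nonneg_right h5 (by positivity)).trans (le_of_eq ?_)
    field_simp

end Pool.Agent.T2H40.MB
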