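import Pool.Agent.T2H40.MB.Final0

/-!
# Package F3: a positive proportion of the hypersurfaces has an integral point
-/

set_option autoImplicit false
set_option linter.unusedSectionVars false

namespace Pool.Agent.T2H40.MB

open MvPolynomial Pool.Agent.Y716.Q Pool.Agent.Y716.C

section

variable {ι τ κ : Type} [Fintype ι] [Fintype τ] [Fintype κ] [DecidableEq ι] [DecidableEq τ]
  [DecidableEq κ] {b : τ → κ} {d : ℕ} {e : κ → ℕ}

/-- the exponent of the section -/
noncomputable def bs (s : κ → τ) (b : τ → κ) (e : κ → ℕ) : τ →₀ ℕ :=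
  Finsupp.equivFunOnFinite.symm fun v => if s (b v) = v then e (b v) else 0

theorem bs_apply (s : κ → τ) (v : τ) : bs s b e v = if s (b v) = v then e (b v) else 0 := rfl

theorem bs_mem {s : κ → τ} (hs : ∀ k, b (s k) = k) : bs s b e ∈ monB b e := by
  rw [mem_monB]
  intro k
  rw [Finset.sum_eq_single (s k)]
  · rw [if_pos (hs k), bs_apply, hs k, if_pos rfl]
  · intro v _ hv
    by_cases h : b v = k
    · rw [if_pos h, bs_apply, if_neg]
      rw [h]
      exact fun h' => hv h'.symm
    · rw [if_neg h]
  · intro h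
    exact absurd (Finset.mem_univ _) h

theorem prod_section {s : κ → τ} {β : τ →₀ ℕ} (hβ : β ∈ monB b e) :
    ∏ v, (if s (b v) = v then (1 : ℤ) else 0) ^ (β v) = if β = bs s b e then 1 else 0 := by
  rw [mem_monB] at hβ
  by_cases h : ∀ v, s (b v) ≠ v → β v = 0
  · have h1 : β = bs s b e := by
      ext v
      rw [bs_apply]
      split_ifs with h2
      · rw [← hβ (b v), Finset.sum_eq_single v, if_pos rfl]
        · intro w _ hw
          split_ifs with h3
          · apply h
            rw [h3, h2]
            exact fun h' => hw h'.symm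
          · rfl
        · intro h; exact absurd (Finset.mem_univ _) h
      · exact h v h2
    rw [if_pos h1]
    apply Finset.prod_eq_one
    intro v _
    by_cases h2 : s (b v) = v
    · rw [if_pos h2, one_pow]
    · rw [h v h2, pow_zero]
  · push Not at h
    obtain ⟨v, hv, hv0⟩ := h
    rw [if_neg, Finset.prod_eq_zero (Finset.mem_univ v)]
    · rw [if_neg hv, zero_pow hv0]
    · rintro rfl
      rw [bs_apply, if_neg hv] at hv0
      exact hv0 rfl

/-- put the coefficients of `f` at the exponents of the section -/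
noncomputable def putc (s : κ → τ) (f : MvPolynomial ι ℤ) (g : Lam ι b d e → ℤ) (μ : Lam ι b d e) :
    ℤ :=
  if py μ.1 = bs s b e then f.coeff (px μ.1) else g μ

theorem mem_mons_of {f : MvPolynomial ι ℤ} (hf : f.IsHomogeneous d) {α : ι →₀ ℕ}
    (hα : f.coeff α ≠ 0) : α ∈ mons ι d := by
  rw [mem_mons]
  have h := hf hα
  rw [← h, Finsupp.weight_apply, Finsupp.sum_fintype _ _ (fun i => by simp)]
  simp

theorem eval_eq_mons {f : MvPolynomial ι ℤ} (hf : f.IsHomogeneous d) (x : ι → ℤ) :
    eval x f = ∑ α ∈ mons ι d, f.coeff α * ∏ i, x i ^ (α i) := by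
  rw [eval_eq']
  apply Finset.sum_subset
  · intro α hα
    exact mem_mons_of hf (mem_support_iff.1 hα)
  · intro α _ h
    rw [notMem_support_iff.1 h, zero_mul]

theorem val_putc {s : κ → τ} (hs : ∀ k, b (s k) = k) {f : MvPolynomial ι ℤ}
    (hf : f.IsHomogeneous d) (g : Lam ι b d e → ℤ) (x : ι → ℤ) :
    val (putc s f g) (Sum.elim x fun v => if s (b v) = v then 1 else 0) = eval x f := by
  have h1 : val (putc s f g) (Sum.elim x fun v => if s (b v) = v then 1 else 0) =
      ∑ μ : Lam ι b d e, (fun α β => if β = bs s b e then f.coeff α * ∏ i, x i ^ (α i) else 0)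
        (px μ.1) (py μ.1) := by
    unfold val
    refine Finset.sum_congr rfl fun μ _ => ?_
    rw [prod_elim, prod_section (py_mem μ)]
    unfold putc
    by_cases h : py μ.1 = bs s b e
    · simp only [if_pos h, mul_one]
    · simp only [if_neg h, mul_zero]
  rw [h1, sum_Lam (b := b) (d := d) (e := e)
    (fun α β => if β = bs s b e then f.coeff α * ∏ i, x i ^ (α i) else 0), eval_eq_mons hf]
  refine Finset.sum_congr rfl fun α _ => ?_
  rw [Finset.sum_ite_eq', if_pos (bs_mem hs)]

/-- the exponent of the section above an exponent -/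
noncomputable def emb {s : κ → τ} (hs : ∀ k, b (s k) = k) (e : κ → ℕ) (α : mons ι d) :
    Lam ι b d e :=
  ⟨Finsupp.sumFinsuppEquivProdFinsupp.symm (α.1, bs s b e), by
    rw [mem_Lam]
    refine ⟨mem_mons.1 α.2, mem_monB.1 (bs_mem hs)⟩⟩

theorem px_emb {s : κ → τ} (hs : ∀ k, b (s k) = k) (α : mons ι d) :
    px (emb hs e α).1 = α.1 := by
  unfold px emb
  rw [Equiv.apply_symm_apply]

theorem py_emb {s : κ → τ} (hs : ∀ k, b (s k) = k) (α : mons ι d) :
    py (emb hs e α).1 = bs s b e := by
  unfold py emb
  rw [Equiv.apply_symm_apply]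

theorem emb_of {s : κ → τ} (hs : ∀ k, b (s k) = k) (μ : Lam ι b d e) (h : py μ.1 = bs s b e) :
    emb hs e ⟨px μ.1, px_mem μ⟩ = μ := by
  apply Subtype.ext
  unfold emb
  rw [Equiv.symm_apply_eq, ← h]
  rfl

end

open scoped Classical in
/-- **Package F3.** -/
theorem f3_stmt : F3Stmt := by
  intro ι τ κ _ _ _ _ _ _ b n e hb hpos
  obtain ⟨s, hs⟩ := hb.hasRightInverse
  obtain ⟨c₀, hc0, H₀, hH₀⟩ := hpos
  refine ⟨c₀, hc0, ⌈H₀⌉₊, fun H hH => ?_⟩
  have h1 := hH₀ (H : ℝ) ((Nat.le_ceil H₀).trans (by exact_mod_cast hH))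
  have hN : (sysZ ι (fun _ : Fin 1 => n) (H : ℝ)).card = (box (mons ι (n + 2)) H).card := by
    rw [card_sysZ, card_box]
    simp only [Finset.univ_unique, Finset.prod_const, Finset.card_singleton, pow_one]
    rw [card_formsZ _ (Nat.cast_nonneg _), Nat.floor_natCast]
  have h2 : ((sysZ ι (fun _ : Fin 1 => n) (H : ℝ)).filter (fun f =>
      ∃ x : ι → ℤ, x ≠ 0 ∧ ∀ j, MvPolynomial.eval x (f j) = 0)).card *
        (box (Lam ι b (n + 2) e) H).card ≤
      ((box (Lam ι b (n + 2) e) H).filter fun c => HasPt c).card *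
        (box (mons ι (n + 2)) H).card := by
    rw [← Finset.card_product, ← Finset.card_product]
    refine Finset.card_le_card_of_injOn
      (fun q => (putc s (q.1 0) q.2, fun α => q.2 (emb hs e α))) ?_ ?_
    · rintro ⟨f, g⟩ hq
      rw [Finset.mem_coe, Finset.mem_product, Finset.mem_filter, mem_sysZ] at hq
      obtain ⟨⟨hf, x, hx, hx0⟩, hg⟩ := hq
      dsimp only at hf hx0 hg
      rw [mem_box] at hg
      rw [Finset.mem_coe, Finset.mem_product, Finset.mem_filter, mem_box, mem_box]
      refine ⟨⟨fun μ => ?_, ?_⟩, fun α => hg _⟩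
      · dsimp only
        unfold putc
        split_ifs
        · have := (hf 0).2 (px μ.1)
          rw [← Int.cast_abs] at this
          exact_mod_cast this
        · exact hg _
      · refine ⟨x, fun v => if s (b v) = v then 1 else 0, hx, fun k => ⟨s k, hs k, ?_⟩, ?_⟩
        · dsimp only
          rw [if_pos (by rw [hs k])]
          exact one_ne_zero
        · rw [val_putc hs (hf 0).1, hx0 0]
    · rintro ⟨f, g⟩ hq ⟨f', g'⟩ hq' h
      rw [Finset.mem_coe, Finset.mem_product, Finset.mem_filter, mem_sysZ] at hq hq'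
      have hf := hq.1.1 0
      have hf' := hq'.1.1 0
      dsimp only at hf hf'
      rw [Prod.mk.injEq] at h
      obtain ⟨h3, h4⟩ := h
      dsimp only at h3 h4
      have h5 : f 0 = f' 0 := by
        ext α
        by_cases hα : α ∈ mons ι (n + 2)
        · have := congrFun h3 (emb hs e ⟨α, hα⟩)
          unfold putc at this
          rw [if_pos (py_emb hs _), if_pos (py_emb hs _), px_emb] at this
          exact this
        · have h6 : ∀ F : MvPolynomial ι ℤ, F.IsHomogeneous (n + 2) → F.coeff α = 0 := by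
            intro F hF
            by_contra h
            exact hα (mem_mons_of hF h)
          rw [h6 _ hf.1, h6 _ hf'.1]
      rw [Prod.mk.injEq]
      constructor
      · funext j
        rw [Subsingleton.elim j 0]
        exact h5
      · funext μ
        by_cases hμ : py μ.1 = bs s b e
        · have := congrFun h4 ⟨px μ.1, px_mem μ⟩
          rw [emb_of hs μ hμ] at this
          exact this
        · have := congrFun h3 μ
          unfold putc at this
          rw [if_neg hμ, if_neg hμ] at this
          exact this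
  have h3 : (((sysZ ι (fun _ : Fin 1 => n) (H : ℝ)).filter (fun f =>
      ∃ x : ι → ℤ, x ≠ 0 ∧ ∀ j, MvPolynomial.eval x (f j) = 0)).card : ℝ) *
        (box (Lam ι b (n + 2) e) H).card ≤
      (((box (Lam ι b (n + 2) e) H).filter fun c => HasPt c).card : ℝ) *
        (box (mons ι (n + 2)) H).card := by exact_mod_cast h2
  have h4 : (0 : ℝ) < (box (mons ι (n + 2)) H).card := box_pos _ H
  rw [hN] at h1
  have h5 := mul_le_mul_of_nonneg_right h1
    (Nat.cast_nonneg (α := ℝ) (box (Lam ι b (n + 2) e) H).card)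
  have h6 : c₀ * ((box (Lam ι b (n + 2) e) H).card : ℝ) * (box (mons ι (n + 2)) H).card ≤
      (((box (Lam ι b (n + 2) e) H).filter fun c => HasPt c).card : ℝ) *
        (box (mons ι (n + 2)) H).card := by
    refine le_trans (le_of_eq (by ring)) (h5.trans ?_)
    refine le_trans (mul_le_mul_of_nonneg_right (cf_le _ fun c _ h => h) (Nat.cast_nonneg _)) h3
  exact le_of_mul_le_mul_right h6 h4

end Pool.Agent.T2H40.MB
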