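import Pool.Agent.T2H40.MB.P2

/-!
# Package P
-/

set_option autoImplicit false
set_option linter.unusedSectionVars false

namespace Pool.Agent.T2H40.MB.P

variable {V : Type} [Fintype V] [DecidableEq V] {Λ : Finset (V →₀ ℕ)}

theorem box_card (H : ℕ) : (box Λ H).card = (2 * H + 1) ^ Λ.card := by
  unfold box
  rw [Fintype.card_piFinset, Finset.prod_const, Int.card_Icc, Finset.card_univ, Fintype.card_coe]
  congr 1
  omega

open scoped Classical in
theorem class_count (q : ℕ) [NeZero q] (H : ℕ) (hH : q ≤ 2 * H + 1) (r : ZMod q) :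
    ((Finset.Icc (-(H : ℤ)) H).filter fun n : ℤ => (n : ZMod q) = r).card * q ≤
      2 * (2 * H + 1) := by
  have h1 : ((Finset.Icc (-(H : ℤ)) H).filter fun n : ℤ => (n : ZMod q) = r).card * q =
      (((Finset.Icc (-(H : ℤ)) H).filter fun n : ℤ => (n : ZMod q) = r) ×ˢ
        (Finset.range q)).card := by
    rw [Finset.card_product, Finset.card_range]
  have h2 : (Finset.Ico (-(H : ℤ)) (H + q)).card ≤ 2 * (2 * H + 1) := by
    rw [Int.card_Ico]
    omega
  rw [h1]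
  refine le_trans (Finset.card_le_card_of_injOn (fun x : ℤ × ℕ => x.1 + x.2) ?_ ?_) h2
  · rintro ⟨n, i⟩ hx
    rw [Finset.mem_coe, Finset.mem_product, Finset.mem_filter, Finset.mem_Icc,
      Finset.mem_range] at hx
    rw [Finset.mem_coe, Finset.mem_Ico]
    obtain ⟨⟨⟨a, b⟩, -⟩, c⟩ := hx
    simp only at a b c ⊢
    constructor
    · omega
    · omega
  · rintro ⟨n, i⟩ hx ⟨n', i'⟩ hx' he
    rw [Finset.mem_coe, Finset.mem_product, Finset.mem_filter, Finset.mem_range] at hx hx'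
    obtain ⟨⟨-, a⟩, b⟩ := hx
    obtain ⟨⟨-, a'⟩, b'⟩ := hx'
    simp only at a b a' b' he
    have h3 : ((i : ℕ) : ZMod q) = ((i' : ℕ) : ZMod q) := by
      have h4 := congrArg (fun k : ℤ => (k : ZMod q)) he
      simp only [Int.cast_add, Int.cast_natCast, a, a'] at h4
      exact add_left_cancel h4
    rw [ZMod.natCast_eq_natCast_iff] at h3
    have h5 : i = i' := Nat.ModEq.eq_of_lt_of_lt h3 b b'
    subst h5
    have h6 : n = n' := by linarith
    rw [h6]

open scoped Classical in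
theorem box_count (q : ℕ) [NeZero q] (H : ℕ) (hH : q ≤ 2 * H + 1) (S : Finset (Λ → ZMod q)) :
    ((box Λ H).filter fun c => (fun μ => (c μ : ZMod q)) ∈ S).card * q ^ Λ.card ≤
      S.card * (2 * (2 * H + 1)) ^ Λ.card := by
  have h1 : ((box Λ H).filter fun c => (fun μ => (c μ : ZMod q)) ∈ S).card =
      ∑ s ∈ S, (((box Λ H).filter fun c => (fun μ => (c μ : ZMod q)) ∈ S).filter
        fun c => (fun μ => (c μ : ZMod q)) = s).card :=
    Finset.card_eq_sum_card_fiberwise fun c hc => (Finset.mem_filter.1 hc).2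
  rw [h1, Finset.sum_mul]
  have h2 : ∀ s ∈ S, (((box Λ H).filter fun c => (fun μ => (c μ : ZMod q)) ∈ S).filter
        fun c => (fun μ => (c μ : ZMod q)) = s).card * q ^ Λ.card ≤
        (2 * (2 * H + 1)) ^ Λ.card := by
    intro s _
    have h3 : ((box Λ H).filter fun c => (fun μ => (c μ : ZMod q)) ∈ S).filter
        (fun c => (fun μ => (c μ : ZMod q)) = s) ⊆
        Fintype.piFinset fun μ => (Finset.Icc (-(H : ℤ)) H).filter fun n : ℤ => (n : ZMod q) = s μ := by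
      intro c hc
      rw [Finset.mem_filter, Finset.mem_filter] at hc
      rw [Fintype.mem_piFinset]
      intro μ
      rw [Finset.mem_filter]
      exact ⟨(Fintype.mem_piFinset.1 hc.1.1) μ, congrFun hc.2 μ⟩
    refine (Nat.mul_le_mul_right _ (Finset.card_le_card h3)).trans ?_
    rw [Fintype.card_piFinset]
    have h4 : q ^ Λ.card = ∏ _μ : Λ, q := by
      rw [Finset.prod_const, Finset.card_univ, Fintype.card_coe]
    have h5 : (2 * (2 * H + 1)) ^ Λ.card = ∏ _μ : Λ, (2 * (2 * H + 1)) := by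
      rw [Finset.prod_const, Finset.card_univ, Fintype.card_coe]
    rw [h4, h5, ← Finset.prod_mul_distrib]
    exact Finset.prod_le_prod' fun μ _ => class_count q H hH (s μ)
  refine (Finset.sum_le_sum h2).trans (le_of_eq ?_)
  rw [Finset.sum_const, smul_eq_mul]

open scoped Classical in
/-- the totally bad coefficient vectors modulo `q` -/
noncomputable def S1 (Λ : Finset (V →₀ ℕ)) (A : Finset V) (q : ℕ) [NeZero q] :
    Finset (Λ → ZMod q) :=
  Finset.univ.filter fun c => ∃ z : V → ZMod q, (∀ v ∈ A, z v = 1) ∧ val c z = 0 ∧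
    ∀ v, v ∉ A → der c v z = 0

open scoped Classical in
theorem card_S1 {A : Finset V} {μ0 : Λ} {mu : V → Λ} (hM : Mon Λ A μ0 mu) (q : ℕ) [NeZero q] :
    (S1 Λ A q).card * q ≤ q ^ Λ.card := by
  have hq : 0 < q := Nat.pos_of_ne_zero (NeZero.ne q)
  have h1 : S1 Λ A q ⊆ (Finset.univ.filter fun z : V → ZMod q => ∀ v ∈ A, z v = 1).biUnion
      fun z => Finset.univ.filter fun c : Λ → ZMod q => val c z = 0 ∧
        ∀ v, v ∉ A → der c v z = 0 := by
    intro c hc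
    unfold S1 at hc
    rw [Finset.mem_filter] at hc
    obtain ⟨-, z, hz1, hz2, hz3⟩ := hc
    rw [Finset.mem_biUnion]
    exact ⟨z, Finset.mem_filter.2 ⟨Finset.mem_univ _, hz1⟩,
      Finset.mem_filter.2 ⟨Finset.mem_univ _, hz2, hz3⟩⟩
  have h2 : (S1 Λ A q).card * (q * q ^ (Aᶜ).card) ≤ q ^ (Aᶜ).card * q ^ Λ.card := by
    refine (Nat.mul_le_mul_right _ ((Finset.card_le_card h1).trans Finset.card_biUnion_le)).trans ?_
    rw [Finset.sum_mul]
    refine (Finset.sum_le_sum fun z hz => count_sing hM q z (Finset.mem_filter.1 hz).2).trans ?_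
    rw [Finset.sum_const, smul_eq_mul, count_pts]
  have h3 : q ^ (Aᶜ).card * ((S1 Λ A q).card * q) ≤ q ^ (Aᶜ).card * q ^ Λ.card := by
    refine le_trans (le_of_eq ?_) h2
    ring
  exact Nat.le_of_mul_le_mul_left h3 (pow_pos hq _)

open scoped Classical in
/-- the zeros of the chart modulo `q` at which the derivative in the direction `x` is divisible by
`r` -/
noncomputable def Zd (A : Finset V) (q r : ℕ) [NeZero q] (hrq : r ∣ q) (x : V) (c : Λ → ZMod q) :
    Finset (V → ZMod q) :=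
  Finset.univ.filter fun z => (∀ v ∈ A, z v = 1) ∧ val c z = 0 ∧
    ZMod.castHom hrq (ZMod r) (der c x z) = 0

open scoped Classical in
/-- the coefficient vectors with at least `T` such zeros -/
noncomputable def S2 (Λ : Finset (V →₀ ℕ)) (A : Finset V) (q r : ℕ) [NeZero q] (hrq : r ∣ q) (x : V)
    (T : ℕ) : Finset (Λ → ZMod q) :=
  Finset.univ.filter fun c => T ≤ (Zd A q r hrq x c).card

open scoped Classical in
theorem card_S2 {A : Finset V} {μ0 : Λ} {mu : V → Λ} (hM : Mon Λ A μ0 mu) (q r : ℕ) [NeZero q]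
    [NeZero r] (hrq : r ∣ q) (x : V) (hx : x ∉ A) (T : ℕ) :
    (S2 Λ A q r hrq x T).card * T * (q * r) ≤ q ^ (Aᶜ).card * q ^ Λ.card := by
  have h1 : (S2 Λ A q r hrq x T).card * T ≤ ∑ c : Λ → ZMod q, (Zd A q r hrq x c).card := by
    rw [← smul_eq_mul, ← Finset.sum_const]
    refine (Finset.sum_le_sum fun c hc => (Finset.mem_filter.1 hc).2).trans ?_
    exact Finset.sum_le_sum_of_subset (Finset.filter_subset _ _)
  have h2 : ∑ c : Λ → ZMod q, (Zd A q r hrq x c).card =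
      ∑ z ∈ Finset.univ.filter (fun z : V → ZMod q => ∀ v ∈ A, z v = 1),
        (Finset.univ.filter fun c : Λ → ZMod q => val c z = 0 ∧
          ZMod.castHom hrq (ZMod r) (der c x z) = 0).card := by
    unfold Zd
    simp only [Finset.card_filter]
    rw [Finset.sum_comm, Finset.sum_filter]
    refine Finset.sum_congr rfl fun z _ => ?_
    by_cases hz : ∀ v ∈ A, z v = 1
    · rw [if_pos hz]
      refine Finset.sum_congr rfl fun c _ => ?_
      by_cases h : val c z = 0 ∧ ZMod.castHom hrq (ZMod r) (der c x z) = 0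
      · rw [if_pos h, if_pos ⟨hz, h⟩]
      · rw [if_neg h, if_neg fun h' => h h'.2]
    · rw [if_neg hz]
      refine Finset.sum_eq_zero fun c _ => ?_
      rw [if_neg fun h => hz h.1]
  refine (Nat.mul_le_mul_right _ (h1.trans h2.le)).trans ?_
  rw [Finset.sum_mul]
  refine (Finset.sum_le_sum fun z hz =>
    count_deg hM q r hrq x hx z (Finset.mem_filter.1 hz).2).trans ?_
  rw [Finset.sum_const, smul_eq_mul, count_pts]

open scoped Classical in
/-- the dichotomy -/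
theorem dich (p : ℕ) [Fact p.Prime] {A X : Finset V} {x : V} (hxX : x ∈ X) (j k : ℕ) (hjk : j ≤ k)
    [NeZero (p ^ j)] [NeZero (p ^ (2 * k + 1))] (hd : p ^ k ∣ p ^ (2 * k + 1)) (c : Λ → ℤ)
    (h1 : ZeroMod A ((p : ℤ) ^ (2 * j)) c) (h2 : ¬ NdMod A X p k c) :
    (fun μ => (c μ : ZMod (p ^ j))) ∈ S1 Λ A (p ^ j) ∨
    (fun μ => (c μ : ZMod (p ^ (2 * k + 1)))) ∈ S2 Λ A (p ^ (2 * k + 1)) (p ^ k) hd x
      ((p ^ (2 * k + 1 - 2 * j)) ^ ((Aᶜ).card - 1)) := by
  by_cases hS : (fun μ => (c μ : ZMod (p ^ j))) ∈ S1 Λ A (p ^ j)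
  · exact Or.inl hS
  refine Or.inr ?_
  obtain ⟨zs, hzs, hval⟩ := h1
  -- a derivative which is not divisible by `p ^ j`
  obtain ⟨a, ha, hda⟩ : ∃ a, a ∉ A ∧ ¬ (p : ℤ) ^ j ∣ der c a zs := by
    by_contra hcon
    push Not at hcon
    apply hS
    unfold S1
    rw [Finset.mem_filter]
    refine ⟨Finset.mem_univ _, fun v => (zs v : ZMod (p ^ j)), fun v hv => ?_, ?_, fun v hv => ?_⟩
    · show ((zs v : ℤ) : ZMod (p ^ j)) = 1
      rw [hzs v hv, Int.cast_one]
    · have e1 := val_map (Int.castRingHom (ZMod (p ^ j))) c zs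
      simp only [eq_intCast] at e1
      rw [← e1, ZMod.intCast_zmod_eq_zero_iff_dvd]
      push_cast
      refine dvd_trans ?_ hval
      exact pow_dvd_pow _ (by omega)
    · have e1 := der_map (Int.castRingHom (ZMod (p ^ j))) c v zs
      simp only [eq_intCast] at e1
      rw [← e1, ZMod.intCast_zmod_eq_zero_iff_dvd]
      push_cast
      exact hcon v hv
  have h3 := many_zeros p c zs hzs a ha j (2 * k + 1) (by omega) hval hda
  unfold S2
  rw [Finset.mem_filter]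
  refine ⟨Finset.mem_univ _, h3.trans (Finset.card_le_card ?_)⟩
  intro z hz
  rw [Finset.mem_filter] at hz
  obtain ⟨-, Z, hZ1, hZ2, rfl⟩ := hz
  unfold Zd
  rw [Finset.mem_filter]
  refine ⟨Finset.mem_univ _, fun v hv => ?_, ?_, ?_⟩
  · show ((Z v : ℤ) : ZMod (p ^ (2 * k + 1))) = 1
    rw [hZ1 v hv, Int.cast_one]
  · have e1 := val_map (Int.castRingHom (ZMod (p ^ (2 * k + 1)))) c Z
    simp only [eq_intCast] at e1
    rw [← e1, ZMod.intCast_zmod_eq_zero_iff_dvd]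
    push_cast
    exact hZ2
  · have e1 := der_map (Int.castRingHom (ZMod (p ^ (2 * k + 1)))) c x Z
    simp only [eq_intCast] at e1
    rw [← e1, map_intCast, ZMod.intCast_zmod_eq_zero_iff_dvd]
    push_cast
    by_contra hcon
    exact h2 ⟨Z, hZ1, hZ2, x, hxX, hcon⟩

end P

open scoped Classical in
theorem p_stmt : PStmt := by
  intro V _ hdec Λ A X hch hX hdis p hp ε hε
  have hfact : Fact p.Prime := ⟨hp⟩
  obtain ⟨μ0, mu, hM⟩ := P.exists_mon hch
  obtain ⟨x, hx⟩ := hX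
  have hxA : x ∉ A := fun h => (Finset.disjoint_left.1 hdis) hx h
  have hm1 : 1 ≤ (Aᶜ).card := Finset.card_pos.2 ⟨x, Finset.mem_compl.2 hxA⟩
  obtain ⟨m, hm⟩ : ∃ m, (Aᶜ).card = m + 1 := ⟨(Aᶜ).card - 1, by omega⟩
  have hp1 : (1 : ℝ) < p := by exact_mod_cast hp.one_lt
  obtain ⟨j, hj⟩ := pow_unbounded_of_one_lt ((2 : ℝ) ^ (Λ.card + 1) / ε) hp1
  obtain ⟨k₁, hk₁⟩ := pow_unbounded_of_one_lt
    ((2 : ℝ) ^ (Λ.card + 1) * (p : ℝ) ^ (2 * j * m) / ε) hp1
  refine ⟨max j k₁, fun k hk => ⟨p ^ (2 * k + 1), fun H hH => ?_⟩⟩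
  have hjk : j ≤ k := (le_max_left _ _).trans hk
  have hkk : k₁ ≤ k := (le_max_right _ _).trans hk
  have hpj : NeZero (p ^ j) := ⟨(pow_pos hp.pos _).ne'⟩
  have hpk : NeZero (p ^ k) := ⟨(pow_pos hp.pos _).ne'⟩
  have hpM : NeZero (p ^ (2 * k + 1)) := ⟨(pow_pos hp.pos _).ne'⟩
  have hd : p ^ k ∣ p ^ (2 * k + 1) := pow_dvd_pow _ (by omega)
  set T := (p ^ (2 * k + 1 - 2 * j)) ^ ((Aᶜ).card - 1) with hT
  have hTpos : 0 < T := pow_pos (pow_pos hp.pos _) _
  set S1 := P.S1 Λ A (p ^ j) with hS1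
  set S2 := P.S2 Λ A (p ^ (2 * k + 1)) (p ^ k) hd x T with hS2
  set F1 := (box Λ H).filter fun c => (fun μ => (c μ : ZMod (p ^ j))) ∈ S1 with hF1
  set F2 := (box Λ H).filter fun c => (fun μ => (c μ : ZMod (p ^ (2 * k + 1)))) ∈ S2 with hF2
  have hsub : ((box Λ H).filter fun c => (∀ E : ℕ, ZeroMod A ((p : ℤ) ^ E) c) ∧
        ¬ NdMod A X p k c) ⊆ F1 ∪ F2 := by
    intro c hc
    rw [Finset.mem_filter] at hc
    rw [Finset.mem_union, hF1, hF2, Finset.mem_filter, Finset.mem_filter]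
    rcases P.dich p hx j k hjk hd c (hc.2.1 (2 * j)) hc.2.2 with h | h
    · exact Or.inl ⟨hc.1, h⟩
    · exact Or.inr ⟨hc.1, h⟩
  have hq1 : p ^ j ≤ 2 * H + 1 := by
    have : p ^ j ≤ p ^ (2 * k + 1) := Nat.pow_le_pow_right hp.pos (by omega)
    omega
  have hq2 : p ^ (2 * k + 1) ≤ 2 * H + 1 := by omega
  set L := Λ.card with hL
  -- the first set
  have b1 : F1.card * p ^ j ≤ 2 ^ L * (2 * H + 1) ^ L := by
    have h1 := P.box_count (p ^ j) H hq1 S1
    have h2 := P.card_S1 hM (p ^ j)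
    have h3 : F1.card * p ^ j * (p ^ j) ^ L ≤ 2 ^ L * (2 * H + 1) ^ L * (p ^ j) ^ L := by
      calc F1.card * p ^ j * (p ^ j) ^ L = (F1.card * (p ^ j) ^ L) * p ^ j := by ring
        _ ≤ (S1.card * (2 * (2 * H + 1)) ^ L) * p ^ j := Nat.mul_le_mul_right _ h1
        _ = (S1.card * p ^ j) * (2 * (2 * H + 1)) ^ L := by ring
        _ ≤ (p ^ j) ^ L * (2 * (2 * H + 1)) ^ L := Nat.mul_le_mul_right _ h2
        _ = _ := by rw [mul_pow]; ring
    exact Nat.le_of_mul_le_mul_right h3 (pow_pos (pow_pos hp.pos _) _)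
  -- the second set
  have b2 : F2.card * p ^ k ≤ p ^ (2 * j * m) * (2 ^ L * (2 * H + 1) ^ L) := by
    have h1 := P.box_count (p ^ (2 * k + 1)) H hq2 S2
    have h2 := P.card_S2 hM (p ^ (2 * k + 1)) (p ^ k) hd x hxA T
    have hTm : T = (p ^ (2 * k + 1 - 2 * j)) ^ m := by rw [hT, hm]; rfl
    have hqm : (p ^ (2 * k + 1)) ^ (Aᶜ).card = p ^ (2 * k + 1) * (p ^ (2 * j * m) * T) := by
      have e : p ^ (2 * j) * p ^ (2 * k + 1 - 2 * j) = p ^ (2 * k + 1) := by
        rw [← pow_add]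
        congr 1
        omega
      rw [hm, pow_succ', hTm, pow_mul, ← mul_pow, e]
    have hqpos : 0 < p ^ (2 * k + 1) := pow_pos hp.pos _
    rw [← hS2, ← hL] at h2
    have h1' : F2.card * (p ^ (2 * k + 1)) ^ L ≤ S2.card * (2 * (2 * H + 1)) ^ L := h1
    clear h1
    obtain ⟨q, hq⟩ : ∃ q, q = p ^ (2 * k + 1) := ⟨_, rfl⟩
    obtain ⟨f2, hf2⟩ : ∃ f2, f2 = F2.card := ⟨_, rfl⟩
    obtain ⟨s2, hs2⟩ : ∃ s2, s2 = S2.card := ⟨_, rfl⟩
    rw [← hf2, ← hs2, ← hq] at h1'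
    rw [← hs2, ← hq] at h2
    rw [← hq] at hqm hqpos
    rw [← hf2]
    have h3 : f2 * p ^ k * (q ^ L * (q * T)) ≤
        p ^ (2 * j * m) * (2 ^ L * (2 * H + 1) ^ L) * (q ^ L * (q * T)) := by
      calc f2 * p ^ k * (q ^ L * (q * T)) = (f2 * q ^ L) * (T * (q * p ^ k)) := by ring
        _ ≤ (s2 * (2 * (2 * H + 1)) ^ L) * (T * (q * p ^ k)) := Nat.mul_le_mul_right _ h1'
        _ = (s2 * T * (q * p ^ k)) * (2 * (2 * H + 1)) ^ L := by ring
        _ ≤ (q ^ (Aᶜ).card * q ^ L) * (2 * (2 * H + 1)) ^ L := Nat.mul_le_mul_right _ h2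
        _ = _ := by rw [hqm, mul_pow]; ring
    exact Nat.le_of_mul_le_mul_right h3 (by positivity)
  have hcard : (((box Λ H).filter fun c => (∀ E : ℕ, ZeroMod A ((p : ℤ) ^ E) c) ∧
      ¬ NdMod A X p k c).card : ℝ) ≤ F1.card + F2.card := by
    have := (Finset.card_le_card hsub).trans (Finset.card_union_le _ _)
    exact_mod_cast this
  refine hcard.trans ?_
  rw [P.box_card]
  push_cast
  have c1 : (F1.card : ℝ) * (p : ℝ) ^ j ≤ 2 ^ L * (2 * H + 1) ^ L := by exact_mod_cast b1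
  have c2 : (F2.card : ℝ) * (p : ℝ) ^ k ≤ (p : ℝ) ^ (2 * j * m) * (2 ^ L * (2 * H + 1) ^ L) := by
    exact_mod_cast b2
  have hB : (0 : ℝ) < (2 * H + 1) ^ L := by positivity
  have hpj0 : (0 : ℝ) < (p : ℝ) ^ j := by positivity
  have hpk0 : (0 : ℝ) < (p : ℝ) ^ k := by positivity
  have d1 : (F1.card : ℝ) ≤ ε / 2 * (2 * H + 1) ^ L := by
    rw [div_lt_iff₀ hε] at hj
    have h1 : (F1.card : ℝ) * (p : ℝ) ^ j ≤ ε / 2 * (2 * H + 1) ^ L * (p : ℝ) ^ j := by
      refine c1.trans ?_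
      have h2 : (2 : ℝ) ^ L ≤ ε / 2 * (p : ℝ) ^ j := by
        have : (2 : ℝ) ^ (L + 1) = 2 * 2 ^ L := by ring
        rw [this] at hj
        nlinarith
      nlinarith
    exact le_of_mul_le_mul_right h1 hpj0
  have d2 : (F2.card : ℝ) ≤ ε / 2 * (2 * H + 1) ^ L := by
    have hk2 : (2 : ℝ) ^ (L + 1) * (p : ℝ) ^ (2 * j * m) / ε < (p : ℝ) ^ k :=
      hk₁.trans_le (pow_le_pow_right₀ hp1.le hkk)
    rw [div_lt_iff₀ hε] at hk2
    have h1 : (F2.card : ℝ) * (p : ℝ) ^ k ≤ ε / 2 * (2 * H + 1) ^ L * (p : ℝ) ^ k := by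
      refine c2.trans ?_
      have h2 : (p : ℝ) ^ (2 * j * m) * 2 ^ L ≤ ε / 2 * (p : ℝ) ^ k := by
        have : (2 : ℝ) ^ (L + 1) = 2 * 2 ^ L := by ring
        rw [this] at hk2
        nlinarith
      have h3 := mul_le_mul_of_nonneg_right h2 hB.le
      linarith
    exact le_of_mul_le_mul_right h1 hpk0
  linarith

end Pool.Agent.T2H40.MB
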