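import Mathlib
import Pool.Agent.T2H40.MB.Defs

/-!
# Package R, part 1: calculus
-/

set_option autoImplicit false

open Filter Topology Set

namespace Pool.Agent.T2H40.MB.RP

/-- zeros persist if the derivative in one variable does not vanish -/
theorem implicit_zero_pos {P : Type} [TopologicalSpace P] (F : P × ℝ → ℝ) (hF : Continuous F)
    (p0 : P) (t0 d : ℝ) (h0 : F (p0, t0) = 0) (hd : HasDerivAt (fun t => F (p0, t)) d t0)
    (hd0 : 0 < d) (U : Set (P × ℝ)) (hU : U ∈ 𝓝 (p0, t0)) :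
    ∀ᶠ p in 𝓝 p0, ∃ t, (p, t) ∈ U ∧ F (p, t) = 0 := by
  obtain ⟨u, hu, v, hv, huv⟩ := mem_nhds_prod_iff.1 hU
  obtain ⟨δ, hδ, hball⟩ := Metric.mem_nhds_iff.1 hv
  have hs := eventually_nhdsWithin_sign_eq_of_deriv_pos (f := fun t => F (p0, t)) (x₀ := t0)
    (by rw [hd.deriv]; exact hd0) h0
  obtain ⟨δ', hδ', hball'⟩ := Metric.mem_nhds_iff.1 hs
  set η := min δ δ' / 2 with hη
  have hη0 : 0 < η := by positivity
  have hη1 : η < δ := by have := min_le_left δ δ'; rw [hη]; linarith [lt_min hδ hδ']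
  have hη2 : η < δ' := by have := min_le_right δ δ'; rw [hη]; linarith [lt_min hδ hδ']
  have h1 : F (p0, t0 - η) < 0 := by
    have := hball' (show t0 - η ∈ Metric.ball t0 δ' by
      rw [Metric.mem_ball, Real.dist_eq]
      rw [show t0 - η - t0 = -η by ring, abs_neg, abs_of_pos hη0]; exact hη2)
    simp only [mem_ofPred_eq] at this
    rw [show t0 - η - t0 = -η by ring, Left.sign_neg, sign_pos hη0] at this
    exact sign_eq_neg_one_iff.1 this
  have h2 : 0 < F (p0, t0 + η) := by
    have := hball' (show t0 + η ∈ Metric.ball t0 δ' by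
      rw [Metric.mem_ball, Real.dist_eq]
      rw [show t0 + η - t0 = η by ring, abs_of_pos hη0]; exact hη2)
    simp only [mem_ofPred_eq] at this
    rw [show t0 + η - t0 = η by ring, sign_pos hη0] at this
    exact sign_eq_one_iff.1 this
  have e1 : ∀ᶠ p in 𝓝 p0, F (p, t0 - η) < 0 :=
    (hF.comp (by fun_prop : Continuous fun p : P => (p, t0 - η))).continuousAt.eventually_lt
      continuousAt_const h1
  have e2 : ∀ᶠ p in 𝓝 p0, 0 < F (p, t0 + η) :=
    continuousAt_const.eventually_lt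
      (hF.comp (by fun_prop : Continuous fun p : P => (p, t0 + η))).continuousAt h2
  filter_upwards [e1, e2, hu] with p hp1 hp2 hpu
  have hc : ContinuousOn (fun t => F (p, t)) (Icc (t0 - η) (t0 + η)) :=
    (hF.comp (by fun_prop : Continuous fun t : ℝ => (p, t))).continuousOn
  have := intermediate_value_Icc (by linarith : t0 - η ≤ t0 + η) hc
  obtain ⟨t, ht, ht0⟩ := this (show (0 : ℝ) ∈ Icc (F (p, t0 - η)) (F (p, t0 + η)) from
    ⟨hp1.le, hp2.le⟩)
  refine ⟨t, huv ⟨hpu, hball ?_⟩, ht0⟩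
  rw [Metric.mem_ball, Real.dist_eq, abs_lt]
  constructor <;> linarith [ht.1, ht.2]

theorem implicit_zero {P : Type} [TopologicalSpace P] (F : P × ℝ → ℝ) (hF : Continuous F)
    (p0 : P) (t0 d : ℝ) (h0 : F (p0, t0) = 0) (hd : HasDerivAt (fun t => F (p0, t)) d t0)
    (hd0 : d ≠ 0) (U : Set (P × ℝ)) (hU : U ∈ 𝓝 (p0, t0)) :
    ∀ᶠ p in 𝓝 p0, ∃ t, (p, t) ∈ U ∧ F (p, t) = 0 := by
  rcases lt_or_gt_of_ne hd0 with h | h
  · have := implicit_zero_pos (fun q => -F q) hF.neg p0 t0 (-d) (by simp [h0]) hd.neg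
      (by linarith) U hU
    filter_upwards [this] with p hp
    obtain ⟨t, ht, ht0⟩ := hp
    exact ⟨t, ht, by simpa using ht0⟩
  · exact implicit_zero_pos F hF p0 t0 d h0 hd h U hU

variable {V : Type} [Fintype V] [DecidableEq V] {Λ : Finset (V →₀ ℕ)}

/-- the monomial -/
def mon (μ : V →₀ ℕ) (z : V → ℝ) : ℝ := ∏ v, z v ^ (μ v)

/-- its partial derivative -/
def dmon (μ : V →₀ ℕ) (v : V) (z : V → ℝ) : ℝ :=
  (μ v : ℝ) * ∏ w, z w ^ (if w = v then μ w - 1 else μ w)

theorem val_eq (c : Λ → ℝ) (z : V → ℝ) : val c z = ∑ μ : Λ, c μ * mon μ.1 z := rfl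

theorem der_eq (c : Λ → ℝ) (v : V) (z : V → ℝ) : der c v z = ∑ μ : Λ, c μ * dmon μ.1 v z := rfl

theorem continuous_mon (μ : V →₀ ℕ) : Continuous (mon μ) := by unfold mon; fun_prop

theorem continuous_dmon (μ : V →₀ ℕ) (v : V) : Continuous (dmon μ v) := by
  unfold dmon; fun_prop

theorem differentiable_mon (μ : V →₀ ℕ) : Differentiable ℝ (mon μ) := by
  unfold mon; fun_prop

theorem differentiable_dmon (μ : V →₀ ℕ) (v : V) : Differentiable ℝ (dmon μ v) := by
  unfold dmon; fun_prop

theorem hasDerivAt_mon (μ : V →₀ ℕ) (z : V → ℝ) (v : V) (t : ℝ) :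
    HasDerivAt (fun s => mon μ (Function.update z v s)) (dmon μ v (Function.update z v t)) t := by
  have h1 : (fun s => mon μ (Function.update z v s))
      = fun s => s ^ (μ v) * ∏ w ∈ Finset.univ.erase v, z w ^ (μ w) := by
    funext s
    unfold mon
    rw [← Finset.mul_prod_erase Finset.univ _ (Finset.mem_univ v)]
    congr 1
    · simp
    · apply Finset.prod_congr rfl
      intro w hw
      rw [Function.update_of_ne (Finset.ne_of_mem_erase hw)]
  have h2 : dmon μ v (Function.update z v t)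
      = (μ v : ℝ) * t ^ (μ v - 1) * ∏ w ∈ Finset.univ.erase v, z w ^ (μ w) := by
    unfold dmon
    rw [← Finset.mul_prod_erase Finset.univ _ (Finset.mem_univ v), mul_assoc]
    congr 2
    · simp
    · apply Finset.prod_congr rfl
      intro w hw
      rw [Function.update_of_ne (Finset.ne_of_mem_erase hw), if_neg (Finset.ne_of_mem_erase hw)]
  rw [h1, h2]
  exact (hasDerivAt_pow (μ v) t).mul_const _

theorem hasDerivAt_val (c : Λ → ℝ) (z : V → ℝ) (v : V) (t : ℝ) :
    HasDerivAt (fun s => val c (Function.update z v s)) (der c v (Function.update z v t)) t := by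
  simp only [val_eq, der_eq]
  apply HasDerivAt.fun_sum
  intro μ _
  exact (hasDerivAt_mon μ.1 z v t).const_mul _

theorem continuous_val : Continuous fun p : (Λ → ℝ) × (V → ℝ) => val p.1 p.2 := by
  simp only [val_eq]
  refine continuous_finsetSum _ fun μ _ => ?_
  exact (by fun_prop : Continuous fun p : (Λ → ℝ) × (V → ℝ) => p.1 μ).mul
    ((continuous_mon μ.1).comp continuous_snd)

theorem continuous_der (v : V) : Continuous fun p : (Λ → ℝ) × (V → ℝ) => der p.1 v p.2 := by
  simp only [der_eq]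
  refine continuous_finsetSum _ fun μ _ => ?_
  exact (by fun_prop : Continuous fun p : (Λ → ℝ) × (V → ℝ) => p.1 μ).mul
    ((continuous_dmon μ.1 v).comp continuous_snd)

theorem differentiable_val : Differentiable ℝ fun p : (Λ → ℝ) × (V → ℝ) => val p.1 p.2 := by
  simp only [val_eq]
  refine Differentiable.fun_sum fun μ _ => ?_
  exact (by fun_prop : Differentiable ℝ fun p : (Λ → ℝ) × (V → ℝ) => p.1 μ).mul
    ((differentiable_mon μ.1).comp differentiable_snd)

theorem differentiable_der (v : V) :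
    Differentiable ℝ fun p : (Λ → ℝ) × (V → ℝ) => der p.1 v p.2 := by
  simp only [der_eq]
  refine Differentiable.fun_sum fun μ _ => ?_
  exact (by fun_prop : Differentiable ℝ fun p : (Λ → ℝ) × (V → ℝ) => p.1 μ).mul
    ((differentiable_dmon μ.1 v).comp differentiable_snd)

end Pool.Agent.T2H40.MB.RP
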