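import Mathlib
import Pool.Agent.T2H40.MB.R1

/-!
# Package R, part 2: two null sets
-/

set_option autoImplicit false

open Filter Topology Set MeasureTheory

namespace Pool.Agent.T2H40.MB.RP

variable {V : Type} [Fintype V] [DecidableEq V] {Λ : Finset (V →₀ ℕ)}

/-- the data of a chart -/
structure CD (Λ : Finset (V →₀ ℕ)) (A : Finset V) (m0 : Λ) (mv : V → Λ) : Prop where
  h0 : ∀ v, v ∉ A → m0.1 v = 0
  h1 : ∀ v, v ∉ A → (mv v).1 v = 1
  h2 : ∀ v, v ∉ A → ∀ w, w ∉ A → w ≠ v → (mv v).1 w = 0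

omit [Fintype V] [DecidableEq V] in
theorem exists_CD {A : Finset V} (h : Chart Λ A) : ∃ (m0 : Λ) (mv : V → Λ), CD Λ A m0 mv := by
  classical
  obtain ⟨μ, hμ, h0⟩ := h.base
  have hl : ∀ v, ∃ ν : Λ, v ∉ A → ν.1 v = 1 ∧ ∀ w, w ∉ A → w ≠ v → ν.1 w = 0 := by
    intro v
    by_cases hv : v ∈ A
    · exact ⟨⟨μ, hμ⟩, fun h => absurd hv h⟩
    · obtain ⟨ν, hν, h1, h2⟩ := h.lin v hv
      exact ⟨⟨ν, hν⟩, fun _ => ⟨h1, h2⟩⟩
  choose mv hmv using hl
  exact ⟨⟨μ, hμ⟩, mv, h0, fun v hv => (hmv v hv).1, fun v hv => (hmv v hv).2⟩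

section

variable {A : Finset V} {m0 : Λ} {mv : V → Λ} (cd : CD Λ A m0 mv)
include cd

theorem CD.mon0 {z : V → ℝ} (hz : ∀ v ∈ A, z v = 1) : mon m0.1 z = 1 := by
  unfold mon
  apply Finset.prod_eq_one
  intro v _
  by_cases hv : v ∈ A
  · rw [hz v hv, one_pow]
  · rw [cd.h0 v hv, pow_zero]

theorem CD.dmon0 (z : V → ℝ) {v : V} (hv : v ∉ A) : dmon m0.1 v z = 0 := by
  unfold dmon
  rw [cd.h0 v hv]
  simp

theorem CD.monv {z : V → ℝ} (hz : ∀ v ∈ A, z v = 1) {v : V} (hv : v ∉ A) :
    mon (mv v).1 z = z v := by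
  unfold mon
  rw [← Finset.mul_prod_erase Finset.univ _ (Finset.mem_univ v), cd.h1 v hv, pow_one]
  rw [Finset.prod_eq_one, mul_one]
  intro w hw
  by_cases hwA : w ∈ A
  · rw [hz w hwA, one_pow]
  · rw [cd.h2 v hv w hwA (Finset.ne_of_mem_erase hw), pow_zero]

theorem CD.dmonv {z : V → ℝ} (hz : ∀ v ∈ A, z v = 1) {v : V} (hv : v ∉ A) :
    dmon (mv v).1 v z = 1 := by
  unfold dmon
  rw [cd.h1 v hv, Nat.cast_one, one_mul]
  apply Finset.prod_eq_one
  intro w _
  by_cases hwv : w = v
  · subst hwv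
    rw [if_pos rfl, cd.h1 w hv]
    simp
  · rw [if_neg hwv]
    by_cases hwA : w ∈ A
    · rw [hz w hwA, one_pow]
    · rw [cd.h2 v hv w hwA hwv, pow_zero]

theorem CD.dmonw (z : V → ℝ) {v w : V} (hv : v ∉ A) (hw : w ∉ A) (hwv : w ≠ v) :
    dmon (mv v).1 w z = 0 := by
  unfold dmon
  rw [cd.h2 v hv w hw hwv]
  simp

theorem CD.ne0 {v : V} (hv : v ∉ A) : mv v ≠ m0 := by
  intro h
  have h1 := cd.h1 v hv
  rw [h, cd.h0 v hv] at h1
  exact zero_ne_one h1

theorem CD.inj {v w : V} (hv : v ∉ A) (hw : w ∉ A) (h : mv v = mv w) : v = w := by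
  by_contra hne
  have h1 := cd.h1 v hv
  rw [h, cd.h2 w hw v hv hne] at h1
  exact zero_ne_one h1

end

/-- put the coordinates of the chart equal to one -/
def ex (A : Finset V) (z : V → ℝ) : V → ℝ := fun v => if v ∈ A then 1 else z v

omit [Fintype V] in
theorem ex_mem (A : Finset V) (z : V → ℝ) : ∀ v ∈ A, ex A z v = 1 := fun v hv => by
  simp [ex, hv]

omit [Fintype V] in
theorem ex_self {A : Finset V} {z : V → ℝ} (hz : ∀ v ∈ A, z v = 1) : ex A z = z := by
  funext v
  unfold ex
  split_ifs with h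
  · exact (hz v h).symm
  · rfl

omit [Fintype V] in
theorem ex_update {A : Finset V} {a : V} (ha : a ∉ A) (z : V → ℝ) (t : ℝ) :
    ex A (Function.update z a t) = Function.update (ex A z) a t := by
  funext v
  unfold ex
  by_cases h : v = a
  · subst h
    simp [ha]
  · simp [Function.update_of_ne h]

omit [Fintype V] in
theorem continuous_ex (A : Finset V) : Continuous (ex A) := by
  refine continuous_pi fun v => ?_
  unfold ex
  by_cases h : v ∈ A
  · simp only [h, if_true]; exact continuous_const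
  · simp only [h, if_false]; exact continuous_apply v

theorem differentiable_ex (A : Finset V) : Differentiable ℝ (ex A) := by
  rw [differentiable_pi]
  intro v
  unfold ex
  by_cases h : v ∈ A
  · simp only [h, if_true]; exact differentiable_const _
  · simp only [h, if_false]; fun_prop

theorem val_update0 {A : Finset V} {m0 : Λ} {mv : V → Λ} (cd : CD Λ A m0 mv) (c : Λ → ℝ)
    (b : ℝ) {z : V → ℝ} (hz : ∀ v ∈ A, z v = 1) :
    val (Function.update c m0 b) z = val c z + (b - c m0) := by
  simp only [val_eq]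
  rw [← Finset.add_sum_erase Finset.univ _ (Finset.mem_univ m0),
    ← Finset.add_sum_erase Finset.univ (fun μ : Λ => c μ * mon μ.1 z) (Finset.mem_univ m0)]
  rw [Function.update_self, cd.mon0 hz]
  have : ∑ μ ∈ Finset.univ.erase m0, Function.update c m0 b μ * mon μ.1 z
      = ∑ μ ∈ Finset.univ.erase m0, c μ * mon μ.1 z := by
    apply Finset.sum_congr rfl
    intro μ hμ
    rw [Function.update_of_ne (Finset.ne_of_mem_erase hμ)]
  rw [this]; ring

theorem der_update0 {A : Finset V} {m0 : Λ} {mv : V → Λ} (cd : CD Λ A m0 mv) (c : Λ → ℝ)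
    (b : ℝ) (z : V → ℝ) {x : V} (hx : x ∉ A) :
    der (Function.update c m0 b) x z = der c x z := by
  simp only [der_eq]
  rw [← Finset.add_sum_erase Finset.univ _ (Finset.mem_univ m0),
    ← Finset.add_sum_erase Finset.univ (fun μ : Λ => c μ * dmon μ.1 x z) (Finset.mem_univ m0)]
  rw [cd.dmon0 z hx]
  have : ∑ μ ∈ Finset.univ.erase m0, Function.update c m0 b μ * dmon μ.1 x z
      = ∑ μ ∈ Finset.univ.erase m0, c μ * dmon μ.1 x z := by
    apply Finset.sum_congr rfl
    intro μ hμ
    rw [Function.update_of_ne (Finset.ne_of_mem_erase hμ)]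
  rw [this]; ring

/-- the polynomials with a given degenerate direction at a given point form a null set -/
theorem W_null {A : Finset V} {m0 : Λ} {mv : V → Λ} (cd : CD Λ A m0 mv) {x : V} (hx : x ∉ A) :
    (volume : Measure ((V → ℝ) × (Λ → ℝ))) {p | der p.2 x (ex A p.1) = 0} = 0 := by
  have hc : Continuous fun p : (V → ℝ) × (Λ → ℝ) => der p.2 x (ex A p.1) :=
    (continuous_der x).comp (continuous_snd.prodMk ((continuous_ex A).comp continuous_fst))
  have hm : MeasurableSet {p : (V → ℝ) × (Λ → ℝ) | der p.2 x (ex A p.1) = 0} :=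
    (isClosed_eq hc continuous_const).measurableSet
  rw [Measure.volume_eq_prod, Measure.measure_prod_null hm]
  refine ae_of_all _ fun z => ?_
  have : (Prod.mk z ⁻¹' {p : (V → ℝ) × (Λ → ℝ) | der p.2 x (ex A p.1) = 0})
      = ((LinearMap.ker (∑ μ : Λ, (dmon μ.1 x (ex A z)) • (LinearMap.proj μ : (Λ → ℝ) →ₗ[ℝ] ℝ)) :
        Submodule ℝ (Λ → ℝ)) : Set (Λ → ℝ)) := by
    ext c
    simp only [mem_preimage, mem_ofPred_eq, SetLike.mem_coe, LinearMap.mem_ker, der_eq,
      LinearMap.sum_apply, LinearMap.smul_apply, LinearMap.proj_apply, smul_eq_mul]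
    constructor
    · intro h; rw [← h]; exact Finset.sum_congr rfl fun μ _ => mul_comm _ _
    · intro h; rw [← h]; exact Finset.sum_congr rfl fun μ _ => mul_comm _ _
  show (volume : Measure (Λ → ℝ)) (Prod.mk z ⁻¹'
    {p : (V → ℝ) × (Λ → ℝ) | der p.2 x (ex A p.1) = 0}) = 0
  rw [this]
  refine Measure.addHaar_submodule _ _ ?_
  intro htop
  have h1 : (Pi.single (mv x) 1 : Λ → ℝ) ∈ (⊤ : Submodule ℝ (Λ → ℝ)) := Submodule.mem_top
  rw [← htop, LinearMap.mem_ker] at h1
  simp only [LinearMap.sum_apply, LinearMap.smul_apply, LinearMap.proj_apply, smul_eq_mul] at h1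
  rw [Finset.sum_eq_single (mv x)] at h1
  · rw [Pi.single_eq_same, cd.dmonv (ex_mem A z) hx] at h1
    norm_num at h1
  · intro μ _ hμ
    rw [Pi.single_eq_of_ne hμ, mul_zero]
  · intro h; exact absurd (Finset.mem_univ _) h

/-- second null set -/
theorem null2 {A : Finset V} {m0 : Λ} {mv : V → Λ} (cd : CD Λ A m0 mv) {x a : V} (hx : x ∉ A)
    (ha : a ∉ A) :
    (volume : Measure (Λ → ℝ)) {c | ∃ z : V → ℝ, (∀ v ∈ A, z v = 1) ∧ (∀ v, |z v| ≤ 1) ∧
      val c z = 0 ∧ der c a z ≠ 0 ∧
      ∀ z' : V → ℝ, (∀ v ∈ A, z' v = 1) → (∀ v, |z' v| < 2) → val c z' = 0 →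
        der c x z' = 0} = 0 := by
  set W : Set ((V → ℝ) × (Λ → ℝ)) := {p | der p.2 x (ex A p.1) = 0} with hW
  set Θ : (V → ℝ) × (Λ → ℝ) → (V → ℝ) × (Λ → ℝ) := fun p =>
    (Function.update p.1 a (p.2 m0),
      Function.update p.2 m0 (p.2 m0 - val p.2 (ex A p.1))) with hΘ
  have hval : Differentiable ℝ fun p : (V → ℝ) × (Λ → ℝ) => val p.2 (ex A p.1) := by
    have h1 : Differentiable ℝ fun p : (V → ℝ) × (Λ → ℝ) => (p.2, ex A p.1) :=
      differentiable_snd.prodMk ((differentiable_ex A).comp differentiable_fst)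
    exact (differentiable_val (Λ := Λ)).comp h1
  have hd : Differentiable ℝ Θ := by
    refine Differentiable.prodMk ?_ ?_
    · rw [differentiable_pi]
      intro v
      by_cases h : v = a
      · subst h
        simp only [Function.update_self]
        fun_prop
      · simp only [Function.update_of_ne h]
        fun_prop
    · rw [differentiable_pi]
      intro μ
      by_cases h : μ = m0
      · subst h
        simp only [Function.update_self]
        exact (by fun_prop : Differentiable ℝ fun p : (V → ℝ) × (Λ → ℝ) => p.2 μ).sub hval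
      · simp only [Function.update_of_ne h]
        fun_prop
  have him : ((volume : Measure (V → ℝ)).prod (volume : Measure (Λ → ℝ))) (Θ '' W) = 0 := by
    have hW0 := W_null cd hx
    rw [Measure.volume_eq_prod] at hW0
    have hI : Measure.IsAddHaarMeasure
        ((volume : Measure (V → ℝ)).prod (volume : Measure (Λ → ℝ))) :=
      Measure.prod.instIsAddHaarMeasure _ _
    exact addHaar_image_eq_zero_of_differentiableOn_of_addHaar_eq_zero _ hd.differentiableOn hW0
  have hsw : (volume : Measure ((Λ → ℝ) × (V → ℝ))) (Prod.swap ⁻¹' (Θ '' W)) = 0 := by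
    rw [Measure.volume_eq_prod]
    exact (Measure.measurePreserving_swap (μ := (volume : Measure (Λ → ℝ)))
      (ν := (volume : Measure (V → ℝ)))).quasiMeasurePreserving.preimage_null him
  rw [Measure.volume_eq_prod] at hsw
  have hae := Measure.measure_ae_null_of_prod_null hsw
  refine measure_mono_null ?_ (ae_iff.1 hae)
  rintro c ⟨z, hzA, hz1, hz0, hza, hall⟩
  simp only [mem_ofPred_eq]
  intro hzero
  have hcur : ∀ᶠ z' in 𝓝 z, ∃ t : ℝ, (z', t) ∈ {q : (V → ℝ) × ℝ |
      ∀ v, |ex A (Function.update q.1 a q.2) v| < 2} ∧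
      val c (ex A (Function.update z' a t)) = 0 := by
    have hupd : Continuous fun q : (V → ℝ) × ℝ => Function.update q.1 a q.2 :=
      continuous_fst.update a continuous_snd
    have hex : Continuous fun q : (V → ℝ) × ℝ => ex A (Function.update q.1 a q.2) :=
      (continuous_ex A).comp hupd
    refine implicit_zero (fun q : (V → ℝ) × ℝ => val c (ex A (Function.update q.1 a q.2))) ?_ z
      (z a) (der c a z) ?_ ?_ hza _ ?_
    · exact continuous_val.comp (continuous_const.prodMk hex)
    · simp only [Function.update_eq_self]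
      rw [ex_self hzA]; exact hz0
    · have := hasDerivAt_val c (ex A z) a (z a)
      rw [ex_self hzA, Function.update_eq_self] at this
      have e : (fun t => val c (ex A (Function.update (z, t).1 a (z, t).2)))
          = fun s => val c (Function.update z a s) := by
        funext s
        rw [ex_update ha, ex_self hzA]
      rw [e]; exact this
    · refine IsOpen.mem_nhds ?_ ?_
      · have : {q : (V → ℝ) × ℝ | ∀ v, |ex A (Function.update q.1 a q.2) v| < 2}
            = ⋂ v, {q : (V → ℝ) × ℝ | |ex A (Function.update q.1 a q.2) v| < 2} := by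
          ext q; simp
        rw [this]
        exact isOpen_iInter_of_finite fun v =>
          isOpen_lt ((continuous_apply v).comp hex).abs continuous_const
      · simp only [mem_ofPred_eq, Function.update_eq_self]
        intro v
        rw [ex_self hzA]
        exact lt_of_le_of_lt (hz1 v) (by norm_num)
  have hsub : ∀ᶠ z' in 𝓝 z, z' ∈ Prod.mk c ⁻¹' (Prod.swap ⁻¹' (Θ '' W)) := by
    filter_upwards [hcur] with z' hz'
    obtain ⟨t, ht2, ht0⟩ := hz'
    have hder : der c x (ex A (Function.update z' a t)) = 0 :=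
      hall _ (ex_mem A _) ht2 ht0
    refine ⟨(Function.update z' a t, Function.update c m0 (z' a)), ?_, ?_⟩
    · simp only [hW, mem_ofPred_eq]
      rw [der_update0 cd _ _ _ hx]; exact hder
    · simp only [hΘ, Function.update_self, Prod.swap_prod_mk, Function.update_idem,
        Function.update_eq_self]
      rw [val_update0 cd _ _ (ex_mem A _), ht0]
      simp
  have hpos : 0 < (volume : Measure (V → ℝ)) (Prod.mk c ⁻¹' (Prod.swap ⁻¹' (Θ '' W))) :=
    Measure.measure_pos_of_mem_nhds _ hsub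
  exact hpos.ne' hzero

end Pool.Agent.T2H40.MB.RP
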