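import Mathlib
import Pool.Agent.T2H40.MB.R2

/-!
# Package R, part 3: the polynomials with singular zeros form a null set
-/

set_option autoImplicit false

open Filter Topology Set MeasureTheory

namespace Pool.Agent.T2H40.MB.RP

variable {V : Type} [Fintype V] [DecidableEq V] {Λ : Finset (V →₀ ℕ)}

open scoped Classical in
/-- remove the special coefficients -/
noncomputable def c1 (A : Finset V) (m0 : Λ) (mv : V → Λ) (c : Λ → ℝ) : Λ → ℝ := fun μ =>
  if μ = m0 ∨ ∃ v, v ∉ A ∧ mv v = μ then 0 else c μ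

theorem sum_decomp {A : Finset V} {m0 : Λ} {mv : V → Λ} (cd : CD Λ A m0 mv) (c g : Λ → ℝ) :
    ∑ μ : Λ, c μ * g μ = c m0 * g m0 + ∑ v ∈ Aᶜ, c (mv v) * g (mv v)
      + ∑ μ : Λ, c1 A m0 mv c μ * g μ := by
  classical
  have h1 : ∀ μ : Λ, c μ * g μ = (if μ = m0 ∨ ∃ v, v ∉ A ∧ mv v = μ then c μ * g μ else 0)
      + c1 A m0 mv c μ * g μ := by
    intro μ
    unfold c1
    split_ifs <;> ring
  rw [Finset.sum_congr rfl fun μ _ => h1 μ, Finset.sum_add_distrib]
  congr 1
  rw [← Finset.sum_filter]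
  have h2 : (Finset.univ.filter fun μ : Λ => μ = m0 ∨ ∃ v, v ∉ A ∧ mv v = μ)
      = insert m0 (Aᶜ.image mv) := by
    ext μ
    simp [Finset.mem_image]
  rw [h2, Finset.sum_insert, Finset.sum_image]
  · intro v hv w hw h
    exact cd.inj (by simpa using hv) (by simpa using hw) h
  · intro h
    obtain ⟨v, hv, hv'⟩ := Finset.mem_image.1 h
    exact cd.ne0 (by simpa using hv) hv'

theorem val_decomp {A : Finset V} {m0 : Λ} {mv : V → Λ} (cd : CD Λ A m0 mv) (c : Λ → ℝ)
    {z : V → ℝ} (hz : ∀ v ∈ A, z v = 1) :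
    val c z = c m0 + ∑ v ∈ Aᶜ, c (mv v) * z v + val (c1 A m0 mv c) z := by
  rw [val_eq, sum_decomp cd c (fun μ => mon μ.1 z), cd.mon0 hz, mul_one, ← val_eq]
  congr 2
  apply Finset.sum_congr rfl
  intro v hv
  rw [cd.monv hz (by simpa using hv)]

theorem der_decomp {A : Finset V} {m0 : Λ} {mv : V → Λ} (cd : CD Λ A m0 mv) (c : Λ → ℝ)
    {z : V → ℝ} (hz : ∀ v ∈ A, z v = 1) {x : V} (hx : x ∉ A) :
    der c x z = c (mv x) + der (c1 A m0 mv c) x z := by
  rw [der_eq, sum_decomp cd c (fun μ => dmon μ.1 x z), cd.dmon0 z hx, mul_zero, ← der_eq,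
    zero_add]
  congr 1
  rw [Finset.sum_eq_single x]
  · rw [cd.dmonv hz hx, mul_one]
  · intro v hv hvx
    rw [cd.dmonw z (by simpa using hv) hx (Ne.symm hvx), mul_zero]
  · intro h
    exact absurd (by simpa using hx) h

/-- first null set -/
theorem null1 {A : Finset V} {m0 : Λ} {mv : V → Λ} (cd : CD Λ A m0 mv) :
    (volume : Measure (Λ → ℝ)) {c | ∃ z : V → ℝ, (∀ v ∈ A, z v = 1) ∧ val c z = 0 ∧
      ∀ v, v ∉ A → der c v z = 0} = 0 := by
  classical
  set zc : (Λ → ℝ) → (V → ℝ) := fun c v => if v ∈ A then 1 else c (mv v) with hzc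
  set Ψ : (Λ → ℝ) → (Λ → ℝ) := fun c μ => if μ = m0 then
      -(val (c1 A m0 mv c) (zc c) - ∑ v ∈ Aᶜ, der (c1 A m0 mv c) v (zc c) * zc c v)
    else if h : ∃ v, v ∉ A ∧ mv v = μ then - der (c1 A m0 mv c) h.choose (zc c) else c μ with hΨ
  have hc1 : Differentiable ℝ (c1 A m0 mv) := by
    rw [differentiable_pi]
    intro μ
    unfold c1
    by_cases h : μ = m0 ∨ ∃ v, v ∉ A ∧ mv v = μ
    · simp only [h, if_true]; exact differentiable_const _
    · simp only [h, if_false]; fun_prop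
  have hzd : Differentiable ℝ zc := by
    rw [differentiable_pi]
    intro v
    by_cases h : v ∈ A
    · simp only [hzc, h, if_true]; exact differentiable_const _
    · simp only [hzc, h, if_false]; fun_prop
  have hpair : Differentiable ℝ fun c => (c1 A m0 mv c, zc c) := hc1.prodMk hzd
  have hval : Differentiable ℝ fun c => val (c1 A m0 mv c) (zc c) :=
    (differentiable_val (Λ := Λ)).comp hpair
  have hder : ∀ v, Differentiable ℝ fun c => der (c1 A m0 mv c) v (zc c) := fun v =>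
    (differentiable_der (Λ := Λ) v).comp hpair
  have hd : Differentiable ℝ Ψ := by
    rw [differentiable_pi]
    intro μ
    by_cases h : μ = m0
    · simp only [hΨ, h, if_true]
      refine (hval.sub (Differentiable.fun_sum fun v _ => (hder v).mul ?_)).neg
      exact (differentiable_pi.1 hzd) v
    · by_cases h' : ∃ v, v ∉ A ∧ mv v = μ
      · simp only [hΨ, h, if_false, dif_pos h']
        exact (hder _).neg
      · simp only [hΨ, h, if_false, dif_neg h']
        fun_prop
  have hnull : (volume : Measure (Λ → ℝ)) {c | c m0 = 0} = 0 := by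
    have e : {c : Λ → ℝ | c m0 = 0} = ((LinearMap.ker (LinearMap.proj m0 : (Λ → ℝ) →ₗ[ℝ] ℝ) :
        Submodule ℝ (Λ → ℝ)) : Set (Λ → ℝ)) := by
      ext c; simp
    rw [e]
    refine Measure.addHaar_submodule _ _ ?_
    intro htop
    have h1 : (Pi.single m0 1 : Λ → ℝ) ∈ (⊤ : Submodule ℝ (Λ → ℝ)) := Submodule.mem_top
    rw [← htop, LinearMap.mem_ker, LinearMap.proj_apply, Pi.single_eq_same] at h1
    exact one_ne_zero h1
  refine measure_mono_null ?_ (addHaar_image_eq_zero_of_differentiableOn_of_addHaar_eq_zero _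
    hd.differentiableOn hnull)
  rintro c ⟨z, hzA, hz0, hzd0⟩
  set c' : Λ → ℝ := fun μ => if μ = m0 then 0 else
    if h : ∃ v, v ∉ A ∧ mv v = μ then z h.choose else c μ with hc'
  have hmv : ∀ v, v ∉ A → c' (mv v) = z v := by
    intro v hv
    have h : ∃ w, w ∉ A ∧ mv w = mv v := ⟨v, hv, rfl⟩
    simp only [hc', cd.ne0 hv, if_false, dif_pos h]
    congr 1
    exact cd.inj h.choose_spec.1 hv h.choose_spec.2
  have hz : zc c' = z := by
    funext v
    by_cases h : v ∈ A
    · simp only [hzc, h, if_true]; exact (hzA v h).symm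
    · simp only [hzc, h, if_false]; exact hmv v h
  have hcc : c1 A m0 mv c' = c1 A m0 mv c := by
    funext μ
    unfold c1
    by_cases h : μ = m0 ∨ ∃ v, v ∉ A ∧ mv v = μ
    · simp only [h, if_true]
    · simp only [h, if_false]
      push Not at h
      have h2 : ¬ ∃ v, v ∉ A ∧ mv v = μ := by
        rintro ⟨v, hv, hv'⟩; exact h.2 v hv hv'
      simp only [hc', h.1, if_false, dif_neg h2]
  have hdv : ∀ v, v ∉ A → c (mv v) = - der (c1 A m0 mv c) v z := by
    intro v hv
    have := der_decomp cd c hzA hv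
    rw [hzd0 v hv] at this
    linarith
  refine ⟨c', ?_, ?_⟩
  · simp [hc']
  · funext μ
    by_cases h : μ = m0
    · subst h
      simp only [hΨ, if_true, hz, hcc]
      have h1 := val_decomp cd c hzA
      rw [hz0] at h1
      have h2 : ∑ v ∈ Aᶜ, c (mv v) * z v = - ∑ v ∈ Aᶜ, der (c1 A μ mv c) v z * z v := by
        rw [← Finset.sum_neg_distrib]
        apply Finset.sum_congr rfl
        intro v hv
        rw [hdv v (by simpa using hv)]; ring
      rw [h2] at h1
      linarith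
    · by_cases h' : ∃ v, v ∉ A ∧ mv v = μ
      · simp only [hΨ, h, if_false, dif_pos h', hz, hcc]
        rw [← hdv _ h'.choose_spec.1, h'.choose_spec.2]
      · simp only [hΨ, h, if_false, dif_neg h', hc']

/-- the set of the polynomials with a zero in the unit cube, and with all zeros in the cube of
radius two degenerate in the direction `x`, is a null set -/
theorem nullN {A : Finset V} (hA : Chart Λ A) {x : V} (hx : x ∉ A) :
    (volume : Measure (Λ → ℝ)) {c | (∃ z : V → ℝ, (∀ v ∈ A, z v = 1) ∧ (∀ v, |z v| ≤ 1) ∧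
      val c z = 0) ∧ ∀ z' : V → ℝ, (∀ v ∈ A, z' v = 1) → (∀ v, |z' v| < 2) → val c z' = 0 →
        der c x z' = 0} = 0 := by
  obtain ⟨m0, mv, cd⟩ := exists_CD hA
  have hU : (volume : Measure (Λ → ℝ)) (⋃ a : {a : V // a ∉ A},
      {c | ∃ z : V → ℝ, (∀ v ∈ A, z v = 1) ∧ (∀ v, |z v| ≤ 1) ∧
      val c z = 0 ∧ der c a.1 z ≠ 0 ∧
      ∀ z' : V → ℝ, (∀ v ∈ A, z' v = 1) → (∀ v, |z' v| < 2) → val c z' = 0 →
        der c x z' = 0}) = 0 := by
    rw [measure_iUnion_null_iff]
    intro a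
    exact null2 cd hx a.2
  refine measure_mono_null ?_ (measure_union_null (null1 cd) hU)
  rintro c ⟨⟨z, hzA, hz1, hz0⟩, hall⟩
  by_cases h : ∀ v, v ∉ A → der c v z = 0
  · left
    exact ⟨z, hzA, hz0, h⟩
  · right
    push Not at h
    obtain ⟨a, ha, hne⟩ := h
    exact mem_iUnion.2 ⟨⟨a, ha⟩, z, hzA, hz1, hz0, hne, hall⟩

end Pool.Agent.T2H40.MB.RP
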