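import Mathlib
import Pool.Agent.T2H40.MB.R3

/-!
# Package R: almost all polynomials with a real zero have a nondegenerate real zero
-/

set_option autoImplicit false

open Filter Topology Set MeasureTheory

namespace Pool.Agent.T2H40.MB.RP

variable {V : Type} [Fintype V] [DecidableEq V] {Λ : Finset (V →₀ ℕ)}

/-- the bad polynomials -/
def bad (Λ : Finset (V →₀ ℕ)) (A : Finset V) (x : V) (γ : ℝ) : Set (Λ → ℝ) :=
  {c | (∀ μ, |c μ| ≤ 1) ∧ (∃ z : V → ℝ, (∀ v ∈ A, z v = 1) ∧ (∀ v, |z v| ≤ 1) ∧ val c z = 0) ∧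
    ∀ z' : V → ℝ, (∀ v ∈ A, z' v = 1) → (∀ v, |z' v| < 2) → val c z' = 0 → |der c x z'| ≤ γ}

theorem isOpen_nd (A : Finset V) {x : V} (hx : x ∉ A) {γ : ℝ} (hγ : 0 ≤ γ) :
    IsOpen {c : Λ → ℝ | ∃ z' : V → ℝ, (∀ v ∈ A, z' v = 1) ∧ (∀ v, |z' v| < 2) ∧ val c z' = 0 ∧
      γ < |der c x z'|} := by
  rw [isOpen_iff_mem_nhds]
  rintro c ⟨z, hzA, hz2, hz0, hzd⟩
  have hupd : Continuous fun q : (Λ → ℝ) × ℝ => Function.update z x q.2 :=
    continuous_const.update x continuous_snd
  have hcur := implicit_zero (fun q : (Λ → ℝ) × ℝ => val q.1 (Function.update z x q.2))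
    ((continuous_val (Λ := Λ)).comp (continuous_fst.prodMk hupd)) c (z x) (der c x z)
    (by simpa using hz0)
    (by have := hasDerivAt_val c z x (z x); rwa [Function.update_eq_self] at this)
    (by intro h; rw [h, abs_zero] at hzd; linarith)
    {q : (Λ → ℝ) × ℝ | (∀ v, |Function.update z x q.2 v| < 2) ∧
      γ < |der q.1 x (Function.update z x q.2)|}
    (by
      refine IsOpen.mem_nhds ?_ ?_
      · have : {q : (Λ → ℝ) × ℝ | (∀ v, |Function.update z x q.2 v| < 2) ∧
            γ < |der q.1 x (Function.update z x q.2)|}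
            = (⋂ v, {q : (Λ → ℝ) × ℝ | |Function.update z x q.2 v| < 2}) ∩
              {q | γ < |der q.1 x (Function.update z x q.2)|} := by
          ext q; simp
        rw [this]
        refine IsOpen.inter (isOpen_iInter_of_finite fun v =>
          isOpen_lt ((continuous_apply v).comp hupd).abs continuous_const) ?_
        exact isOpen_lt continuous_const
          ((continuous_der (Λ := Λ) x).comp (continuous_fst.prodMk hupd)).abs
      · simp only [mem_ofPred_eq, Function.update_eq_self]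
        exact ⟨hz2, hzd⟩)
  filter_upwards [hcur] with c' hc'
  obtain ⟨t, ⟨ht2, htd⟩, ht0⟩ := hc'
  refine ⟨Function.update z x t, ?_, ht2, ht0, htd⟩
  intro v hv
  have hne : v ≠ x := by
    rintro rfl
    exact hx hv
  rw [Function.update_of_ne hne]
  exact hzA v hv

theorem isCompact_bad (A : Finset V) {x : V} (hx : x ∉ A) {γ : ℝ} (hγ : 0 ≤ γ) :
    IsCompact (bad Λ A x γ) := by
  set T : Set ((Λ → ℝ) × (V → ℝ)) := {p | (∀ μ, |p.1 μ| ≤ 1) ∧ (∀ v ∈ A, p.2 v = 1) ∧
    (∀ v, |p.2 v| ≤ 1) ∧ val p.1 p.2 = 0} with hT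
  have hTc : IsClosed T := by
    have : T = (⋂ μ : Λ, {p : (Λ → ℝ) × (V → ℝ) | |p.1 μ| ≤ 1}) ∩
        ((⋂ v : V, ⋂ _ : v ∈ A, {p : (Λ → ℝ) × (V → ℝ) | p.2 v = 1}) ∩
        ((⋂ v : V, {p : (Λ → ℝ) × (V → ℝ) | |p.2 v| ≤ 1}) ∩ {p | val p.1 p.2 = 0})) := by
      ext p; simp [hT]
    rw [this]
    refine (isClosed_iInter fun μ => isClosed_le (by fun_prop) continuous_const).inter
      ((isClosed_iInter fun v => isClosed_iInter fun _ => isClosed_eq (by fun_prop)
        continuous_const).inter ((isClosed_iInter fun v => isClosed_le (by fun_prop)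
        continuous_const).inter (isClosed_eq continuous_val continuous_const)))
  have hTk : IsCompact T := by
    refine (isCompact_closedBall (0 : (Λ → ℝ) × (V → ℝ)) 1).of_isClosed_subset hTc ?_
    intro p hp
    rw [mem_closedBall_zero_iff, Prod.norm_def]
    refine max_le ?_ ?_
    · rw [pi_norm_le_iff_of_nonneg zero_le_one]
      exact fun μ => hp.1 μ
    · rw [pi_norm_le_iff_of_nonneg zero_le_one]
      exact fun v => hp.2.2.1 v
  have hK : IsCompact (Prod.fst '' T) := hTk.image continuous_fst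
  have hb : bad Λ A x γ = (Prod.fst '' T) ∩ {c : Λ → ℝ | ∃ z' : V → ℝ, (∀ v ∈ A, z' v = 1) ∧
      (∀ v, |z' v| < 2) ∧ val c z' = 0 ∧ γ < |der c x z'|}ᶜ := by
    ext c
    constructor
    · rintro ⟨h1, ⟨z, hzA, hz1, hz0⟩, h3⟩
      refine ⟨⟨(c, z), ⟨h1, hzA, hz1, hz0⟩, rfl⟩, ?_⟩
      rintro ⟨z', a1, a2, a3, a4⟩
      exact absurd (h3 z' a1 a2 a3) (not_le.2 a4)
    · rintro ⟨⟨⟨c', z⟩, ⟨h1, hzA, hz1, hz0⟩, rfl⟩, h3⟩
      refine ⟨h1, ⟨z, hzA, hz1, hz0⟩, ?_⟩
      intro z' a1 a2 a3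
      by_contra hlt
      exact h3 ⟨z', a1, a2, a3, not_le.1 hlt⟩
  rw [hb]
  exact hK.inter_right (isOpen_nd A hx hγ).isClosed_compl

/-- lattice points in dilates of a compact set -/
theorem count {ι : Type} [Fintype ι] (C : Set (ι → ℝ)) (hC : IsCompact C) (ε : ℝ) (hε : 0 < ε)
    (hvol : volume C < ENNReal.ofReal ε) :
    ∃ H₀ : ℕ, 1 ≤ H₀ ∧ ∀ H : ℕ, H₀ ≤ H → ∀ S : Finset (ι → ℤ),
      (∀ c ∈ S, (fun i => (c i : ℝ) / H) ∈ C) → (S.card : ℝ) ≤ ε * (H : ℝ) ^ Fintype.card ι := by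
  classical
  have ht := tendsto_measure_cthickening_of_isCompact (μ := (volume : Measure (ι → ℝ))) hC
  have hev := ht.eventually_lt_const hvol
  obtain ⟨δ, hδ, hball⟩ := Metric.eventually_nhds_iff.1 hev
  obtain ⟨N, hN⟩ := exists_nat_gt (1 / δ)
  refine ⟨max N 1, le_max_right _ _, fun H hH S hS => ?_⟩
  have hH1 : 1 ≤ H := (le_max_right _ _).trans hH
  have hHp : (0 : ℝ) < H := by exact_mod_cast hH1
  have hr : 1 / (H : ℝ) < δ := by
    rw [div_lt_iff₀ hHp]
    have h1 : 1 / δ < H := hN.trans_le (by exact_mod_cast (le_max_left N 1).trans hH)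
    rw [div_lt_iff₀ hδ] at h1
    linarith
  have hthick := hball (y := 1 / (H : ℝ)) (by
    rw [Real.dist_eq, sub_zero, abs_of_pos (by positivity)]; exact hr)
  set Q : (ι → ℤ) → Set (ι → ℝ) := fun c =>
    Set.pi univ fun i => Ico ((c i : ℝ) / H) (((c i : ℝ) + 1) / H) with hQ
  have hQm : ∀ c, MeasurableSet (Q c) := fun c =>
    MeasurableSet.univ_pi fun i => measurableSet_Ico
  have hQd : Set.PairwiseDisjoint (S : Set (ι → ℤ)) Q := by
    intro c _ c' _ hne
    rw [Function.onFun, Set.disjoint_left]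
    intro y hy hy'
    apply hne
    funext i
    have h1 := hy i (mem_univ i)
    have h2 := hy' i (mem_univ i)
    have a1 : (c i : ℝ) ≤ y i * H := by
      have := h1.1; rwa [div_le_iff₀ hHp] at this
    have a2 : y i * H < c i + 1 := by
      have := h1.2; rwa [lt_div_iff₀ hHp] at this
    have a3 : (c' i : ℝ) ≤ y i * H := by
      have := h2.1; rwa [div_le_iff₀ hHp] at this
    have a4 : y i * H < c' i + 1 := by
      have := h2.2; rwa [lt_div_iff₀ hHp] at this
    have b1 : (c i : ℝ) < c' i + 1 := by linarith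
    have b2 : (c' i : ℝ) < c i + 1 := by linarith
    have b3 : c i < c' i + 1 := by exact_mod_cast b1
    have b4 : c' i < c i + 1 := by exact_mod_cast b2
    omega
  have hQv : ∀ c, volume (Q c) = ENNReal.ofReal ((1 / (H : ℝ)) ^ Fintype.card ι) := by
    intro c
    rw [hQ]
    simp only
    rw [Real.volume_pi_Ico]
    have : ∀ i, ((c i : ℝ) + 1) / H - (c i : ℝ) / H = 1 / H := fun i => by ring
    simp only [this, Finset.prod_const, Finset.card_univ]
    rw [ENNReal.ofReal_pow (by positivity)]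
  have hsub : (⋃ c ∈ S, Q c) ⊆ Metric.cthickening (1 / (H : ℝ)) C := by
    intro y hy
    simp only [mem_iUnion, exists_prop] at hy
    obtain ⟨c, hc, hy⟩ := hy
    refine Metric.mem_cthickening_of_dist_le y _ _ C (hS c hc) ?_
    rw [dist_pi_le_iff (by positivity)]
    intro i
    have h1 := hy i (mem_univ i)
    rw [Real.dist_eq, abs_le]
    have h2 : ((c i : ℝ) + 1) / H = (c i : ℝ) / H + 1 / H := by ring
    constructor
    · have : 0 < 1 / (H : ℝ) := by positivity
      linarith [h1.1]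
    · linarith [h1.2]
  have hsum : (S.card : ENNReal) * ENNReal.ofReal ((1 / (H : ℝ)) ^ Fintype.card ι)
      ≤ ENNReal.ofReal ε := by
    have e := measure_biUnion_finset (μ := (volume : Measure (ι → ℝ))) hQd fun c _ => hQm c
    have e2 : ∑ c ∈ S, volume (Q c)
        = (S.card : ENNReal) * ENNReal.ofReal ((1 / (H : ℝ)) ^ Fintype.card ι) := by
      rw [Finset.sum_congr rfl fun c _ => hQv c, Finset.sum_const, nsmul_eq_mul]
    rw [← e2, ← e]
    exact (measure_mono hsub).trans hthick.le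
  have hreal : (S.card : ℝ) * (1 / (H : ℝ)) ^ Fintype.card ι ≤ ε := by
    have h1 : (S.card : ENNReal) = ENNReal.ofReal (S.card : ℝ) := by
      rw [ENNReal.ofReal_natCast]
    rw [h1, ← ENNReal.ofReal_mul (by positivity)] at hsum
    exact (ENNReal.ofReal_le_ofReal_iff hε.le).1 hsum
  rw [one_div, inv_pow, ← div_eq_mul_inv, div_le_iff₀ (by positivity)] at hreal
  exact hreal

theorem val_smul (a : ℝ) (c : Λ → ℝ) (z : V → ℝ) : val (fun μ => a * c μ) z = a * val c z := by
  simp only [val_eq, Finset.mul_sum, mul_assoc]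

theorem der_smul (a : ℝ) (c : Λ → ℝ) (v : V) (z : V → ℝ) :
    der (fun μ => a * c μ) v z = a * der c v z := by
  simp only [der_eq, Finset.mul_sum, mul_assoc]

theorem card_box (H : ℕ) : (box Λ H).card = (2 * H + 1) ^ Fintype.card Λ := by
  unfold box
  rw [Fintype.card_piFinset]
  have : ((Finset.Icc (-(H : ℤ)) H).card) = 2 * H + 1 := by
    rw [Int.card_Icc]; omega
  simp only [this, Finset.prod_const, Finset.card_univ]

end Pool.Agent.T2H40.MB.RP

namespace Pool.Agent.T2H40.MB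

open RP

/-- **Package R** -/
theorem r_stmt : RStmt := by
  classical
  intro V _ _ Λ A X hA hX hXA ε hε
  obtain ⟨x, hxX⟩ := hX
  have hx : x ∉ A := fun h => Finset.disjoint_left.1 hXA hxX h
  set C : ℕ → Set (Λ → ℝ) := fun k => bad Λ A x (1 / ((k : ℝ) + 1)) with hC
  have hCk : ∀ k, IsCompact (C k) := fun k => isCompact_bad A hx (by positivity)
  have hanti : Antitone C := by
    intro k l hkl c hc
    refine ⟨hc.1, hc.2.1, fun z' a1 a2 a3 => (hc.2.2 z' a1 a2 a3).trans ?_⟩
    apply one_div_le_one_div_of_le (by positivity)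
    have : (k : ℝ) ≤ l := by exact_mod_cast hkl
    linarith
  have hlim := tendsto_measure_iInter_atTop (μ := (volume : Measure (Λ → ℝ))) (s := C)
    (fun k => (hCk k).isClosed.measurableSet.nullMeasurableSet) hanti
    ⟨0, (hCk 0).measure_lt_top.ne⟩
  have hzero : (volume : Measure (Λ → ℝ)) (⋂ k, C k) = 0 := by
    refine measure_mono_null ?_ (nullN hA hx)
    intro c hc
    have h0 := mem_iInter.1 hc 0
    refine ⟨h0.2.1, fun z' a1 a2 a3 => ?_⟩
    have hle : ∀ k : ℕ, |der c x z'| ≤ 1 / ((k : ℝ) + 1) := fun k =>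
      (mem_iInter.1 hc k).2.2 z' a1 a2 a3
    have : |der c x z'| ≤ 0 := by
      by_contra hneg
      push Not at hneg
      obtain ⟨k', hk'⟩ := exists_nat_one_div_lt hneg
      exact absurd (hle k') (not_le.2 hk')
    exact abs_eq_zero.1 (le_antisymm this (abs_nonneg _))
  rw [hzero] at hlim
  have hev := hlim.eventually_lt_const (ENNReal.ofReal_pos.2 hε)
  obtain ⟨k, hk⟩ := hev.exists
  obtain ⟨H₀, hH0, hcount⟩ := count (C k) (hCk k) ε hε hk
  refine ⟨1 / ((k : ℝ) + 1), by positivity, H₀, fun H hH => ?_⟩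
  have hHp : (0 : ℝ) < H := by exact_mod_cast hH0.trans hH
  set S := (box Λ H).filter fun c => ZeroReal A (fun μ => (c μ : ℝ)) ∧
        ¬ NdReal A X (1 / ((k : ℝ) + 1) * H) (fun μ => (c μ : ℝ)) with hS
  have hmem : ∀ c ∈ S, (fun μ : Λ => (c μ : ℝ) / H) ∈ C k := by
    intro c hc
    rw [hS, Finset.mem_filter] at hc
    obtain ⟨hbox, ⟨z, hzA, hz1, hz0⟩, hnd⟩ := hc
    have hbox' : ∀ μ, c μ ∈ Finset.Icc (-(H : ℤ)) H := by
      unfold box at hbox
      exact Fintype.mem_piFinset.1 hbox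
    have e : (fun μ : Λ => (c μ : ℝ) / H) = fun μ => (1 / (H : ℝ)) * (c μ : ℝ) := by
      funext μ; ring
    refine ⟨?_, ⟨z, hzA, hz1, ?_⟩, ?_⟩
    · intro μ
      have h1 := Finset.mem_Icc.1 (hbox' μ)
      rw [abs_div, abs_of_pos hHp, div_le_one hHp, abs_le]
      constructor
      · have := h1.1; exact_mod_cast this
      · exact_mod_cast h1.2
    · rw [e, val_smul, hz0, mul_zero]
    · intro z' a1 a2 a3
      rw [e, val_smul] at a3
      have a3' : val (fun μ => (c μ : ℝ)) z' = 0 := by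
        rcases mul_eq_zero.1 a3 with h | h
        · exact absurd h (by positivity)
        · exact h
      rw [e, der_smul]
      by_contra hlt
      push Not at hlt
      apply hnd
      refine ⟨z', a1, fun v => (a2 v).le, a3', x, hxX, ?_⟩
      rw [abs_mul, abs_of_pos (by positivity : (0 : ℝ) < 1 / H)] at hlt
      rw [one_div_mul_eq_div (H : ℝ), lt_div_iff₀ hHp] at hlt
      exact hlt
  have h1 := hcount H hH S hmem
  have h2 : (H : ℝ) ^ Fintype.card Λ ≤ ((box Λ H).card : ℝ) := by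
    rw [card_box]
    push_cast
    gcongr
    linarith
  calc (S.card : ℝ) ≤ ε * (H : ℝ) ^ Fintype.card Λ := h1
    _ ≤ ε * ((box Λ H).card : ℝ) := by gcongr

end Pool.Agent.T2H40.MB
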