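import Pool.Agent.T2H40.MB.F1
import Pool.Agent.T2H40.MB.F2
import Pool.Agent.T2H40.MB.F3
import Pool.Agent.T2H40.MB.P
import Pool.Agent.T2H40.MB.R
import Pool.Agent.Y716.D.Main

/-!
# The Hasse principle for almost all smooth multihomogeneous hypersurfaces: polynomials
-/

set_option autoImplicit false
set_option linter.unusedSectionVars false

namespace Pool.Agent.T2H40.MB

open MvPolynomial Filter Topology

theorem poly_inj {V : Type} [Fintype V] [DecidableEq V] {Λ : Finset (V →₀ ℕ)} :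
    Function.Injective (poly (Λ := Λ)) := by
  intro c c' h
  funext μ
  have h1 := coeff_poly c μ.1
  have h2 := coeff_poly c' μ.1
  rw [dif_pos μ.2] at h1 h2
  rw [h, h2] at h1
  exact h1.symm

/-- counting polynomials and counting coefficient vectors -/
theorem ncard_poly {V : Type} [Fintype V] [DecidableEq V] (Λ : Finset (V →₀ ℕ)) (H : ℕ)
    {S : Set (MvPolynomial V ℤ)} {Q' : (Λ → ℤ) → Prop} {hd : DecidablePred Q'}
    (hS : ∀ F ∈ S, (∀ μ, F.coeff μ ≠ 0 → μ ∈ Λ) ∧ ∀ μ, |F.coeff μ| ≤ (H : ℤ))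
    (hQ : ∀ c ∈ box Λ H, poly c ∈ S ↔ Q' c) :
    S.ncard = ((box Λ H).filter Q').card := by
  have h1 : S = poly '' ((((box Λ H).filter Q') : Finset (Λ → ℤ)) : Set (Λ → ℤ)) := by
    ext F
    constructor
    · intro hF
      obtain ⟨h1, h2⟩ := hS F hF
      have hF' : poly (fun μ : Λ => F.coeff μ.1) = F := by
        ext m
        rw [coeff_poly]
        split_ifs with hm
        · rfl
        · by_contra h
          exact hm (h1 m (Ne.symm h))
      have hb : (fun μ : Λ => F.coeff μ.1) ∈ box Λ H := mem_box.2 fun μ => h2 _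
      refine ⟨fun μ => F.coeff μ.1, ?_, hF'⟩
      rw [Finset.mem_coe, Finset.mem_filter]
      refine ⟨hb, (hQ _ hb).1 ?_⟩
      rw [hF']
      exact hF
    · rintro ⟨c, hc, rfl⟩
      rw [Finset.mem_coe, Finset.mem_filter] at hc
      exact (hQ c hc.1).2 hc.2
  rw [h1, Set.ncard_image_of_injective _ poly_inj, Set.ncard_coe_finset]

section

open Pool.Agent.Y716.Q Pool.Agent.Y716.C

variable {ι τ κ : Type} [Fintype ι] [Fintype τ] [Fintype κ] [DecidableEq ι] [DecidableEq τ]
  [DecidableEq κ]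

open scoped Classical in
/-- The Hasse principle for almost all multihomogeneous hypersurfaces. -/
theorem hp_main (b : τ → κ) (hb : Function.Surjective b) (n : ℕ) (e : κ → ℕ) (he : ∀ k, 1 ≤ e k)
    (hcard : 1 < Fintype.card ι)
    (hcl : ClassStmtS ι (fun _ : Fin 1 => n)) (hpos : PosStmtS ι (fun _ : Fin 1 => n)) :
    (∃ c : ℝ, 0 < c ∧ ∀ᶠ H : ℕ in atTop, c * ((box (Lam ι b (n + 2) e) H).card : ℝ) ≤
      (((box (Lam ι b (n + 2) e) H).filter fun c => SmK c ∧ Els c).card : ℝ)) ∧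
    Tendsto (fun H : ℕ =>
      (((box (Lam ι b (n + 2) e) H).filter fun c => SmK c ∧ PtK ℚ c).card : ℝ) /
      (((box (Lam ι b (n + 2) e) H).filter fun c => SmK c ∧ Els c).card : ℝ)) atTop (𝓝 1) :=
  hp_main0 f1_stmt f2_stmt f3_stmt p_stmt r_stmt b hb n e he hcard hcl hpos

end

end Pool.Agent.T2H40.MB
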