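import Pool.Agent.T2H40.MB.Exc
import Pool.Agent.T2H40.MB.Defs2
import Pool.Agent.Y716.C.Smooth

/-!
# The Hasse principle for almost all smooth multihomogeneous hypersurfaces: assembly
-/

set_option autoImplicit false
set_option linter.unusedSectionVars false

namespace Pool.Agent.T2H40.MB

open MvPolynomial Pool.Agent.Y716.Q Pool.Agent.Y716.C Filter Topology

theorem ratio_one' {T a b : ℕ → ℝ} {c : ℝ} (hc : 0 < c)
    (hT : ∀ᶠ H in atTop, 0 < T H) (hab : ∀ H, a H ≤ b H) (hca : ∀ᶠ H in atTop, c * T H ≤ a H)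
    (hex : ∀ ε : ℝ, 0 < ε → ∀ᶠ H in atTop, b H - a H ≤ ε * T H) :
    Tendsto (fun H => a H / b H) atTop (𝓝 1) := by
  rw [Metric.tendsto_nhds]
  intro δ hδ
  filter_upwards [hT, hca, hex (δ / 2 * c) (by positivity)] with H h1 h2 h3
  have ha0 : 0 < a H := lt_of_lt_of_le (by positivity) h2
  have hb0 : 0 < b H := lt_of_lt_of_le ha0 (hab H)
  have h5 : a H / b H - 1 = -((b H - a H) / b H) := by field_simp; ring
  rw [Real.dist_eq, h5, abs_neg, abs_of_nonneg (div_nonneg (by linarith [hab H]) hb0.le),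
    div_lt_iff₀ hb0]
  have h6 : δ / 2 * c * T H ≤ δ / 2 * a H := by
    have := mul_le_mul_of_nonneg_left h2 (by positivity : 0 ≤ δ / 2)
    linarith
  have h7 : δ / 2 * a H ≤ δ / 2 * b H := mul_le_mul_of_nonneg_left (hab H) (by positivity)
  have h8 : 0 < δ / 2 * b H := by positivity
  linarith

theorem cf_le {α : Type*} (s : Finset α) {p q : α → Prop} {_ : DecidablePred p}
    {_ : DecidablePred q} (h : ∀ a ∈ s, p a → q a) :
    ((s.filter p).card : ℝ) ≤ ((s.filter q).card : ℝ) := by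
  have : (s.filter p).card ≤ (s.filter q).card := by
    apply Finset.card_le_card
    intro a ha
    rw [Finset.mem_filter] at ha ⊢
    exact ⟨ha.1, h a ha.1 ha.2⟩
  exact_mod_cast this

theorem cf_le_add {α : Type*} (s : Finset α) {p q r : α → Prop} {_ : DecidablePred p}
    {_ : DecidablePred q} {_ : DecidablePred r} (h : ∀ a ∈ s, p a → q a ∨ r a) :
    ((s.filter p).card : ℝ) ≤ ((s.filter q).card : ℝ) + ((s.filter r).card : ℝ) := by
  classical
  have : (s.filter p).card ≤ (s.filter q).card + (s.filter r).card := by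
    refine le_trans (Finset.card_le_card ?_) (Finset.card_union_le _ _)
    intro a ha
    rw [Finset.mem_filter] at ha
    rw [Finset.mem_union, Finset.mem_filter, Finset.mem_filter]
    rcases h a ha.1 ha.2 with h | h
    · exact Or.inl ⟨ha.1, h⟩
    · exact Or.inr ⟨ha.1, h⟩
  exact_mod_cast this

section

variable {ι τ κ : Type} [Fintype ι] [Fintype τ] [Fintype κ] [DecidableEq ι] [DecidableEq τ]
  [DecidableEq κ] {b : τ → κ} {d n : ℕ} {e : κ → ℕ}

theorem val_hom {R S : Type} [CommRing R] [CommRing S] (f : R →+* S) {V : Type} [Fintype V]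
    [DecidableEq V] {Λ : Finset (V →₀ ℕ)} (c : Λ → R) (z : V → R) :
    val (fun μ => f (c μ)) (fun v => f (z v)) = f (val c z) := by
  unfold val
  rw [map_sum]
  refine Finset.sum_congr rfl fun μ _ => ?_
  rw [map_mul, map_prod]
  simp only [map_pow]

theorem ptK_of_hasPt {c : Lam ι b d e → ℤ} (h : HasPt c) : PtK ℚ c := by
  obtain ⟨x, y, hx, hy, h0⟩ := h
  refine ⟨fun i => (x i : ℚ), fun v => (y v : ℚ), ?_, ?_, ?_⟩
  · intro h
    apply hx
    funext i
    have := congrFun h i
    simp only [Pi.zero_apply, Int.cast_eq_zero] at this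
    exact this
  · intro k
    obtain ⟨v, hv, hv0⟩ := hy k
    exact ⟨v, hv, Int.cast_ne_zero.2 hv0⟩
  · have h1 := val_hom (Int.castRingHom ℚ) c (Sum.elim x y)
    rw [h0, map_zero] at h1
    rw [← h1]
    congr 1
    funext v
    rcases v with v | v <;> rfl

theorem ptK_cast {c : Lam ι b d e → ℤ} (K : Type) [Field K] [CharZero K] (h : PtK ℚ c) :
    PtK K c := by
  obtain ⟨x, y, hx, hy, h0⟩ := h
  refine ⟨fun i => (x i : K), fun v => (y v : K), ?_, ?_, ?_⟩
  · intro h
    apply hx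
    funext i
    have := congrFun h i
    simp only [Pi.zero_apply, Rat.cast_eq_zero] at this
    exact this
  · intro k
    obtain ⟨v, hv, hv0⟩ := hy k
    exact ⟨v, hv, Rat.cast_ne_zero.2 hv0⟩
  · have h1 := val_hom (Rat.castHom K) (fun μ => (c μ : ℚ)) (Sum.elim x y)
    rw [h0, map_zero] at h1
    rw [← h1]
    congr 1
    · funext μ
      simp
    · funext v
      rcases v with v | v <;> rfl

theorem els_of_ptK {c : Lam ι b d e → ℤ} (h : PtK ℚ c) : Els c :=
  ⟨ptK_cast ℝ h, fun p _ => ptK_cast ℚ_[p] h⟩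

open scoped Classical in
/-- The Hasse principle for almost all multihomogeneous hypersurfaces. -/
theorem hp_main0 (F1 : F1Stmt) (F2 : F2Stmt) (F3 : F3Stmt) (hP : PStmt) (hR : RStmt)
    (b : τ → κ) (hb : Function.Surjective b) (n : ℕ) (e : κ → ℕ) (he : ∀ k, 1 ≤ e k)
    (hcard : 1 < Fintype.card ι)
    (hcl : ClassStmtS ι (fun _ : Fin 1 => n)) (hpos : PosStmtS ι (fun _ : Fin 1 => n)) :
    (∃ c : ℝ, 0 < c ∧ ∀ᶠ H : ℕ in atTop, c * ((box (Lam ι b (n + 2) e) H).card : ℝ) ≤
      (((box (Lam ι b (n + 2) e) H).filter fun c => SmK c ∧ Els c).card : ℝ)) ∧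
    Tendsto (fun H : ℕ =>
      (((box (Lam ι b (n + 2) e) H).filter fun c => SmK c ∧ PtK ℚ c).card : ℝ) /
      (((box (Lam ι b (n + 2) e) H).filter fun c => SmK c ∧ Els c).card : ℝ)) atTop (𝓝 1) := by
  obtain ⟨c₀, hc0, H₁, hH₁⟩ := F3 ι τ κ b n e hb hpos
  have hT : ∀ᶠ H : ℕ in atTop, (0 : ℝ) < ((box (Lam ι b (n + 2) e) H).card : ℝ) :=
    Eventually.of_forall fun H => box_pos _ H
  have hca : ∀ᶠ H : ℕ in atTop, c₀ * ((box (Lam ι b (n + 2) e) H).card : ℝ) ≤
      (((box (Lam ι b (n + 2) e) H).filter fun c => PtK ℚ c).card : ℝ) := by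
    filter_upwards [eventually_ge_atTop H₁] with H hH
    exact (hH₁ H hH).trans (cf_le _ fun c _ h => ptK_of_hasPt h)
  have hns : ∀ ε : ℝ, 0 < ε → ∀ᶠ H : ℕ in atTop,
      (((box (Lam ι b (n + 2) e) H).filter fun c => ¬ SmK c).card : ℝ) ≤
        ε * ((box (Lam ι b (n + 2) e) H).card : ℝ) := by
    intro ε hε
    obtain ⟨H₀, hH₀⟩ := F2 ι τ κ b (n + 2) e (by omega) he ε hε
    filter_upwards [eventually_ge_atTop H₀] with H hH
    exact (cf_le _ fun c _ h => h).trans (hH₀ H hH)
  have hab : ∀ H : ℕ, (((box (Lam ι b (n + 2) e) H).filter fun c => PtK ℚ c).card : ℝ) ≤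
      (((box (Lam ι b (n + 2) e) H).filter fun c => Els c).card : ℝ) := fun H =>
    cf_le _ fun c _ h => els_of_ptK h
  have hsm : ∀ (Q : (Lam ι b (n + 2) e → ℤ) → Prop) (H : ℕ),
      (((box (Lam ι b (n + 2) e) H).filter Q).card : ℝ) -
      (((box (Lam ι b (n + 2) e) H).filter fun c => ¬ SmK c).card : ℝ) ≤
      (((box (Lam ι b (n + 2) e) H).filter fun c => SmK c ∧ Q c).card : ℝ) := by
    intro Q H
    rw [sub_le_iff_le_add]
    refine cf_le_add _ fun c _ h => ?_
    by_cases hs : SmK c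
    · left; exact ⟨hs, h⟩
    · right; exact hs
  constructor
  · refine ⟨c₀ / 2, by positivity, ?_⟩
    filter_upwards [hT, hca, hns (c₀ / 2) (by positivity)] with H h3 h4 h5
    have h6 := hsm (fun c => Els c) H
    have h7 := hab H
    linarith
  · refine ratio_aux (T := fun H : ℕ => ((box (Lam ι b (n + 2) e) H).card : ℝ))
      (a := fun H : ℕ => (((box (Lam ι b (n + 2) e) H).filter fun c => PtK ℚ c).card : ℝ))
      (b := fun H : ℕ => (((box (Lam ι b (n + 2) e) H).filter fun c => Els c).card : ℝ))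
      (ns := fun H : ℕ => (((box (Lam ι b (n + 2) e) H).filter fun c => ¬ SmK c).card : ℝ))
      hc0 hT (fun H => Nat.cast_nonneg _) hns ?_ (fun H => ?_) (fun H => ?_) (fun H => ?_)
      (fun H => Nat.cast_nonneg _) ?_
    · filter_upwards [hca] with H h3
      exact h3.trans (hab H)
    · exact cf_le _ fun c _ h => ⟨h.1, els_of_ptK h.2⟩
    · exact cf_le _ fun c _ h => h.2
    · exact (hsm (fun c => PtK ℚ c) H).trans (cf_le _ fun c _ h => h)
    · refine ratio_one' hc0 hT hab hca fun ε hε => ?_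
      obtain ⟨H₀, hH₀⟩ := exc_count b n e he hcard hcl hP hR ε hε
      filter_upwards [eventually_ge_atTop H₀] with H hH
      have h3 := hH₀ H hH
      have h4 : (((box (Lam ι b (n + 2) e) H).filter fun c => Els c).card : ℝ) ≤
          (((box (Lam ι b (n + 2) e) H).filter fun c => ElsC c ∧ ¬ HasPt c).card : ℝ) +
          (((box (Lam ι b (n + 2) e) H).filter fun c => PtK ℚ c).card : ℝ) := by
        refine cf_le_add _ fun c _ h => ?_
        by_cases hs : PtK ℚ c
        · right; exact hs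
        · left; exact ⟨F1 ι τ κ b (n + 2) e c h, fun h' => hs (ptK_of_hasPt h')⟩
      have h5 : (((box (Lam ι b (n + 2) e) H).filter fun c => ElsC c ∧ ¬ HasPt c).card : ℝ) ≤
          ε * ((box (Lam ι b (n + 2) e) H).card : ℝ) := by
        refine le_trans (cf_le _ fun c _ h => ?_) h3
        exact h
      linarith

end

end Pool.Agent.T2H40.MB
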