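import Pool.Agent.T2H40.MB.Avg
import Pool.Agent.T2H40.MB.Choice

/-!
# Good data from nondegenerate local points
-/

set_option autoImplicit false
set_option linter.unusedSectionVars false

namespace Pool.Agent.T2H40.MB

open MvPolynomial Pool.Agent.Y716.Q Pool.Agent.Y716.C Pool.Agent.Y363.C7 Pool.Agent.Y813.C5

section

variable {ι τ κ : Type} [Fintype ι] [Fintype τ] [Fintype κ] [DecidableEq ι] [DecidableEq τ]
  [DecidableEq κ] {b : τ → κ} {n : ℕ} {e : κ → ℕ}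

/-- a nondegenerate approximate `p`-adic point -/
def LocP (p k : ℕ) (c : Lam ι b (n + 2) e → ℤ) : Prop :=
  ∃ (x : ι → ℤ) (y : τ → ℤ), (∃ r, x r = 1) ∧ (∀ k, ∃ v, b v = k ∧ y v = 1) ∧
    (p : ℤ) ^ (2 * k + 1) ∣ val c (Sum.elim x y) ∧
    ∃ i, ¬ (p : ℤ) ^ k ∣ der c (Sum.inl i) (Sum.elim x y)

/-- a nondegenerate real point -/
def LocR (γ : ℝ) (c : Lam ι b (n + 2) e → ℤ) : Prop :=
  ∃ (x : ι → ℝ) (y : τ → ℝ), (∃ r, x r = 1) ∧ (∀ k, ∃ v, b v = k ∧ y v = 1) ∧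
    (∀ i, |x i| ≤ 2) ∧ (∀ v, |y v| ≤ 2) ∧
    val (fun μ => (c μ : ℝ)) (Sum.elim x y) = 0 ∧
    ∃ i, γ < |der (fun μ => (c μ : ℝ)) (Sum.inl i) (Sum.elim x y)|

theorem sum_exp (μ : Lam ι b (n + 2) e) : ∑ v, μ.1 v = n + 2 + ∑ k, e k := by
  rw [Fintype.sum_sum_type]
  have h1 := mem_mons.1 (px_mem μ)
  have h2 := py_mem μ
  unfold monB at h2
  have h3 := mem_mons.1 (Finset.mem_filter.1 h2).1
  simp only [px_apply] at h1
  simp only [py_apply] at h3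
  rw [h1, h3]

/-- the value and the derivatives are Lipschitz functions -/
theorem lip (b : τ → κ) (n : ℕ) (e : κ → ℕ) : ∃ C : ℝ, 0 < C ∧
    ∀ (H : ℝ) (c : Lam ι b (n + 2) e → ℤ), 0 ≤ H → (∀ μ, |((c μ : ℤ) : ℝ)| ≤ H) →
      ∀ (z z' : ι ⊕ τ → ℝ) (δ : ℝ), 0 ≤ δ → (∀ v, |z v| ≤ 3) → (∀ v, |z' v| ≤ 3) →
        (∀ v, |z v - z' v| ≤ δ) →
        |val (fun μ => (c μ : ℝ)) z - val (fun μ => (c μ : ℝ)) z'| ≤ C * H * δ ∧
        ∀ i, |der (fun μ => (c μ : ℝ)) (Sum.inl i) z - der (fun μ => (c μ : ℝ)) (Sum.inl i) z'| ≤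
          C * H * δ := by
  obtain ⟨C₁, h1, hC₁⟩ := form_bounds (ι := ι ⊕ τ) (n + 1 + ∑ k, e k + 1)
  obtain ⟨C₂, h2, hC₂⟩ := form_bounds (ι := ι ⊕ τ) (n + 1 + ∑ k, e k)
  refine ⟨C₁ * 3 ^ (n + 1 + ∑ k, e k) + C₂ * ((n + 1 + ∑ k, e k : ℕ) + 1) *
    3 ^ (n + 1 + ∑ k, e k - 1), by positivity, ?_⟩
  intro H c hH hc z z' δ hδ hz hz' hzz
  have hF : IsF (n + 1 + ∑ k, e k + 1) H (poly c) := isF_poly (fun μ hμ => by
    have := sum_exp (⟨μ, hμ⟩ : Lam ι b (n + 2) e)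
    simp only at this
    rw [this]
    ring) hH hc
  have hHδ : 0 ≤ H * δ := by positivity
  constructor
  · have h3 := (hC₁ _ _ hF.1 hF.2 3 (by norm_num)).2 z z' δ hδ hz hz' hzz
    rw [aeval_poly, aeval_poly, Nat.add_sub_cancel] at h3
    refine h3.trans ?_
    have h4 : 0 ≤ C₂ * ((n + 1 + ∑ k, e k : ℕ) + 1) * 3 ^ (n + 1 + ∑ k, e k - 1) * (H * δ) := by
      positivity
    linarith
  · intro i
    have hP := hF.pderiv (Sum.inl i)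
    have h3 := (hC₂ _ _ hP.1 hP.2 3 (by norm_num)).2 z z' δ hδ hz hz' hzz
    rw [aeval_pderiv_poly, aeval_pderiv_poly] at h3
    refine h3.trans ?_
    have h4 : 0 ≤ C₁ * 3 ^ (n + 1 + ∑ k, e k) * (H * δ) := by
      positivity
    linarith

theorem val_congr' {q : ℤ} (c : Lam ι b (n + 2) e → ℤ) {z z' : ι ⊕ τ → ℤ}
    (h : ∀ v, q ∣ z v - z' v) : q ∣ val c z - val c z' := by
  have h1 := Pool.Agent.Y67.HP.eval_congr_dvd' (poly c) h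
  rw [Pool.Agent.R465.CV.eval_eq_aeval, Pool.Agent.R465.CV.eval_eq_aeval, aeval_poly,
    aeval_poly] at h1
  exact h1

theorem der_congr' {q : ℤ} (c : Lam ι b (n + 2) e → ℤ) (v : ι ⊕ τ) {z z' : ι ⊕ τ → ℤ}
    (h : ∀ v, q ∣ z v - z' v) : q ∣ der c v z - der c v z' := by
  have h1 := Pool.Agent.Y67.HP.eval_congr_dvd' (pderiv v (poly c)) h
  rw [Pool.Agent.R465.CV.eval_eq_aeval, Pool.Agent.R465.CV.eval_eq_aeval, aeval_pderiv_poly,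
    aeval_pderiv_poly] at h1
  exact h1

/-- the `p`-adic data -/
theorem pdata_of {w k : ℕ} {c : Lam ι b (n + 2) e → ℤ} {y : τ → ℤ} {l : ℕ → κ → ℤ}
    {xp : ℕ → ι → ℤ} {yp : ℕ → τ → ℤ}
    (h1 : ∀ p ∈ primesUpTo w, ∃ r, xp p r = 1)
    (h2 : ∀ p ∈ primesUpTo w, (p : ℤ) ^ (2 * k + 1) ∣ val c (Sum.elim (xp p) (yp p)))
    (h3 : ∀ p ∈ primesUpTo w, ∃ i, ¬ (p : ℤ) ^ k ∣ der c (Sum.inl i) (Sum.elim (xp p) (yp p)))
    (h4 : ∀ p ∈ primesUpTo w, ∀ v, (p : ℤ) ^ (2 * k + 1) ∣ y v - l p (b v) * yp p v)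
    (h5 : ∀ p ∈ primesUpTo w, ∀ k, ¬ (p : ℤ) ∣ l p k) :
    ∃ (S J : ℕ) (xc : ι → ℤ), PDataS w (fun _ : Fin 1 => fy c y) S J xc ∧
      S * J = (∏ p ∈ primesUpTo w, p) ^ (2 * k + 1) := by
  apply Pool.Agent.R465.CV.stable_pt w k
  intro p hp
  have hpp := Nat.prime_iff_prime_int.1 (mem_primesUpTo.mp hp).2
  obtain ⟨r, hr⟩ := h1 p hp
  obtain ⟨i, hi⟩ := h3 p hp
  have hz : ∀ v : ι ⊕ τ, (p : ℤ) ^ (2 * k + 1) ∣ Sum.elim (xp p) y v -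
      Sum.elim (xp p) (fun v => l p (b v) * yp p v) v := by
    rintro (v | v)
    · simp
    · exact h4 p hp v
  refine ⟨r, xp p, hr, fun j => ?_, fun j₀ m hm hdiv => hi ?_⟩
  · rw [Pool.Agent.R465.CV.eval_eq_aeval, aeval_fy]
    have a1 := val_congr' c hz
    rw [val_block] at a1
    have a2 := dvd_add a1 ((h2 p hp).mul_left (∏ k, l p k ^ (e k)))
    rw [sub_add_cancel] at a2
    exact a2
  · have a1 := hdiv i
    have hm0 : m 0 = 1 := by rw [← hm, Subsingleton.elim j₀ 0]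
    rw [Fin.sum_univ_one, hm0, one_mul] at a1
    unfold jac at a1
    rw [Pool.Agent.R465.CV.eval_eq_aeval, aeval_pderiv_fy] at a1
    have a2 := (pow_dvd_pow (p : ℤ) (by omega : k ≤ 2 * k + 1)).trans (der_congr' c (Sum.inl i) hz)
    rw [der_block] at a2
    have a3 := dvd_sub a1 a2
    have a4 : (p : ℤ) ^ k ∣ (∏ k, l p k ^ (e k)) * der c (Sum.inl i) (Sum.elim (xp p) (yp p)) := by
      have a5 : der (fun μ => ((c μ : ℤ) : ℤ)) (Sum.inl i) (Sum.elim (xp p) fun v => ((y v : ℤ) : ℤ)) -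
          (der c (Sum.inl i) (Sum.elim (xp p) y) -
            (∏ k, l p k ^ (e k)) * der c (Sum.inl i) (Sum.elim (xp p) (yp p))) =
          (∏ k, l p k ^ (e k)) * der c (Sum.inl i) (Sum.elim (xp p) (yp p)) := by
        exact sub_sub_cancel _ _
      rw [← a5]
      exact a3
    refine hpp.pow_dvd_of_dvd_mul_left _ (fun hd => ?_) a4
    obtain ⟨k', -, hk'⟩ := (Prime.dvd_finsetProd_iff hpp _).1 hd
    exact h5 p hp k' (hpp.dvd_of_dvd_pow hk')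

end

end Pool.Agent.T2H40.MB
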