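import Pool.Agent.T2H40.MB.Good

/-!
# Good data from nondegenerate local points: the real place
-/

set_option autoImplicit false
set_option linter.unusedSectionVars false

namespace Pool.Agent.T2H40.MB

open MvPolynomial Pool.Agent.Y716.Q Pool.Agent.Y716.C Pool.Agent.Y363.C7 Pool.Agent.Y813.C5

section

variable {ι τ κ : Type} [Fintype ι] [Fintype τ] [Fintype κ] [DecidableEq ι] [DecidableEq τ]
  [DecidableEq κ] {b : τ → κ} {n : ℕ} {e : κ → ℕ}

/-- the coefficients of `F (·, y)` for `y` with blocks of size `t k` -/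
theorem coeff_fy_t {c : Lam ι b (n + 2) e → ℤ} {y : τ → ℤ} {t : κ → ℝ} {H : ℝ} (hH : 0 ≤ H)
    (ht : ∀ k, 0 < t k) (hc : ∀ μ, |((c μ : ℤ) : ℝ)| ≤ H)
    (hy : ∀ v, |((y v : ℤ) : ℝ)| ≤ 3 * t (b v)) (α : ι →₀ ℕ) :
    |(((fy c y).coeff α : ℤ) : ℝ)| ≤
      ((Lam ι b (n + 2) e).card * 3 ^ (∑ k, e k) * ∏ k, t k ^ (e k)) * H := by
  have hP : 0 ≤ ∏ k, t k ^ (e k) := Finset.prod_nonneg fun k _ => pow_nonneg (ht k).le _
  unfold fy
  rw [coeff_sum]
  push_cast
  refine (Finset.abs_sum_le_sum_abs _ _).trans ?_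
  have h1 : ∀ μ ∈ (Finset.univ : Finset (Lam ι b (n + 2) e)),
      |(((coeff α (monomial (px μ.1) (c μ * ∏ v, y v ^ (py μ.1 v))) : ℤ)) : ℝ)| ≤
        3 ^ (∑ k, e k) * (∏ k, t k ^ (e k)) * H := by
    intro μ _
    have hB0 : 0 ≤ 3 ^ (∑ k, e k) * (∏ k, t k ^ (e k)) * H := by positivity
    rw [coeff_monomial]
    split_ifs
    · push_cast
      rw [abs_mul, Finset.abs_prod, mul_comm]
      have h2 : ∏ v, |((y v : ℤ) : ℝ) ^ (py μ.1 v)| ≤ 3 ^ (∑ k, e k) * ∏ k, t k ^ (e k) := by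
        have h3 : ∏ v, |((y v : ℤ) : ℝ) ^ (py μ.1 v)| ≤ ∏ v, (t (b v) * 3) ^ (py μ.1 v) :=
          Finset.prod_le_prod (fun v _ => abs_nonneg _) (fun v _ => by
            rw [abs_pow]
            exact pow_le_pow_left₀ (abs_nonneg _) (by rw [mul_comm]; exact hy v) _)
        refine h3.trans (le_of_eq ?_)
        rw [prod_block t (fun _ => (3 : ℝ)) (py_mem μ), Finset.prod_pow_eq_pow_sum, mul_comm]
        congr 2
        have h4 := py_mem μ
        unfold monB at h4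
        exact mem_mons.1 (Finset.mem_filter.1 h4).1
      exact mul_le_mul h2 (hc μ) (abs_nonneg _) (by positivity)
    · simpa using hB0
  refine (Finset.sum_le_sum h1).trans (le_of_eq ?_)
  rw [Finset.sum_const, Finset.card_univ, Fintype.card_coe, nsmul_eq_mul]
  ring

/-- **Good data.** -/
theorem good_of (b : τ → κ) (n : ℕ) (e : κ → ℕ) (w k : ℕ) {γR : ℝ} (hγR : 0 < γR) :
    ∃ γ : ℝ, 0 < γ ∧ ∀ θ : ℝ, 0 < θ → ∃ B a₀ : ℝ, 1 ≤ B ∧ 0 < a₀ ∧ ∀ H : ℝ, 0 < H →
      ∀ c : Lam ι b (n + 2) e → ℤ, (∀ μ, |((c μ : ℤ) : ℝ)| ≤ H) →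
        (∀ p ∈ primesUpTo w, LocP p k c) → LocR (γR * H) c →
        ∃ D : Dt ι τ, GoodD w ((∏ p ∈ primesUpTo w, p) ^ (2 * k + 1)) B a₀ γ θ H D c := by
  classical
  obtain ⟨L, hL⟩ : ∃ L : ℝ, L = (Lam ι b (n + 2) e).card * 3 ^ (∑ k, e k) := ⟨_, rfl⟩
  have hL0 : 0 ≤ L := by rw [hL]; positivity
  obtain ⟨CL, hCL0, hCL⟩ := lip (ι := ι) b n e
  refine ⟨γR / (2 * (L + 1)), by positivity, fun θ hθ => ?_⟩
  obtain ⟨δ, hδ⟩ : ∃ δ : ℝ, δ = min (1 / 2) (min (θ / CL) (γR / (2 * CL))) := ⟨_, rfl⟩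
  have hδ0 : 0 < δ := by
    rw [hδ]
    exact lt_min (by norm_num) (lt_min (by positivity) (by positivity))
  have hδ1 : δ ≤ 1 / 2 := by rw [hδ]; exact min_le_left _ _
  have hδθ : CL * δ ≤ θ := by
    have h1 : δ ≤ θ / CL := by rw [hδ]; exact (min_le_right _ _).trans (min_le_left _ _)
    rw [le_div_iff₀ hCL0] at h1
    linarith
  have hδγ : CL * δ ≤ γR / 2 := by
    have h1 : δ ≤ γR / (2 * CL) := by rw [hδ]; exact (min_le_right _ _).trans (min_le_right _ _)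
    rw [le_div_iff₀ (by positivity)] at h1
    linarith
  obtain ⟨T, hT1, hT⟩ := exists_choice b (P := primesUpTo w)
    (fun p hp => (mem_primesUpTo.mp hp).2) (by omega : 1 ≤ 2 * k + 1) hδ0 hδ1
  obtain ⟨B1, hB1, hB1'⟩ := exists_one_bdd b e (3 * T)
  have hTe : 0 ≤ ∏ _k : κ, T ^ (∑ k, e k) := Finset.prod_nonneg fun k _ => pow_nonneg (by linarith) _
  refine ⟨B1 + 3 * T + L * (∏ k, T ^ (e k)), 1, ?_, one_pos, ?_⟩
  · have h1 : 0 ≤ L * (∏ k, T ^ (e k)) :=
      mul_nonneg hL0 (Finset.prod_nonneg fun k _ => pow_nonneg (by linarith) _)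
    linarith
  intro H hH c hc hP hR
  choose! xp yp hx1 hy1 hv1 hd1 using hP
  obtain ⟨x, υ, hxr, hυ1, hx2, hυ2, hv, i, hi⟩ := hR
  obtain ⟨y, t, l, ht, hyt, hyl, hl, hprim⟩ := hT yp υ hy1 hυ1
  have hyb : ∀ v, |((y v : ℤ) : ℝ)| ≤ 3 * t (b v) := by
    intro v
    have h1 := hyt v
    have h2 := abs_sub_abs_le_abs_sub ((y v : ℤ) : ℝ) (t (b v) * υ v)
    rw [abs_mul, abs_of_pos (ht (b v)).1] at h2
    have h3 := mul_le_mul_of_nonneg_left (hυ2 v) (ht (b v)).1.le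
    have h4 := mul_le_mul_of_nonneg_right hδ1 (ht (b v)).1.le
    linarith [(ht (b v)).1]
  have hblk : ∀ k, ∃ v, b v = k ∧ y v ≠ 0 := by
    intro k
    by_contra hcon
    push Not at hcon
    have h1 := hprim k 0 fun v hv => by rw [hcon v hv]
    exact not_isUnit_zero h1
  have ht3 : ∀ k, 1 / 3 ≤ t k := by
    intro k
    obtain ⟨v, rfl, hv⟩ := hblk k
    have h1 : (1 : ℝ) ≤ |((y v : ℤ) : ℝ)| := by
      rw [← Int.cast_abs]
      exact_mod_cast Int.one_le_abs hv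
    have h2 := hyb v
    linarith
  have hyT : ∀ v, |((y v : ℤ) : ℝ)| ≤ 3 * T := fun v =>
    (hyb v).trans (by linarith [(ht (b v)).2])
  obtain ⟨h, hh1, hh2⟩ := hB1' y hprim hyT
  obtain ⟨S, J, xc, hpd, hSJ⟩ := pdata_of (l := l) hx1 hv1 hd1 hyl hl
  obtain ⟨P, hPdef⟩ : ∃ P : ℝ, P = ∏ k, t k ^ (e k) := ⟨_, rfl⟩
  have hP0 : 0 < P := by rw [hPdef]; exact Finset.prod_pos fun k _ => pow_pos (ht k).1 _
  have hPT : P ≤ ∏ k, T ^ (e k) := by
    rw [hPdef]
    exact Finset.prod_le_prod (fun k _ => pow_nonneg (ht k).1.le _)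
      (fun k _ => pow_le_pow_left₀ (ht k).1.le (ht k).2 _)
  -- the number of monomials is positive
  have hcard : 1 ≤ (Lam ι b (n + 2) e).card := by
    by_contra hcon
    have h0 : (Lam ι b (n + 2) e).card = 0 := by omega
    rw [Finset.card_eq_zero] at h0
    have hemp : IsEmpty (Lam ι b (n + 2) e) := by
      rw [h0]
      infer_instance
    have h2 : der (fun μ : Lam ι b (n + 2) e => (c μ : ℝ)) (Sum.inl i) (Sum.elim x υ) = 0 := by
      unfold der
      exact Finset.sum_of_isEmpty _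
    rw [h2, abs_zero] at hi
    have : 0 < γR * H := by positivity
    linarith
  have hLP : 1 ≤ L * P := by
    have h1 : (1 / 3 : ℝ) ^ (∑ k, e k) ≤ P := by
      rw [hPdef, ← Finset.prod_pow_eq_pow_sum]
      exact Finset.prod_le_prod (fun k _ => by positivity)
        (fun k _ => pow_le_pow_left₀ (by norm_num) (ht3 k) _)
    have h2 : (1 : ℝ) ≤ (Lam ι b (n + 2) e).card := by exact_mod_cast hcard
    calc (1 : ℝ) = 1 * (3 ^ (∑ k, e k) * (1 / 3) ^ (∑ k, e k)) := by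
          rw [← mul_pow]; norm_num
      _ ≤ (Lam ι b (n + 2) e).card * (3 ^ (∑ k, e k) * P) := by
          apply mul_le_mul h2 _ (by positivity) (by positivity)
          exact mul_le_mul_of_nonneg_left h1 (by positivity)
      _ = L * P := by rw [hL]; ring
  have hLP1 : 0 ≤ L * (∏ k, T ^ (e k)) :=
    mul_nonneg hL0 (Finset.prod_nonneg fun k _ => pow_nonneg (by linarith) _)
  -- the real point
  obtain ⟨y', hy'⟩ : ∃ y' : τ → ℝ, y' = fun v => ((y v : ℤ) : ℝ) / t (b v) := ⟨_, rfl⟩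
  have hyy' : (fun v => ((y v : ℤ) : ℝ)) = fun v => t (b v) * y' v := by
    funext v
    rw [hy']
    have := (ht (b v)).1
    field_simp
  have hy'υ : ∀ v, |y' v - υ v| ≤ δ := by
    intro v
    have htv := (ht (b v)).1
    have h1 : y' v - υ v = (((y v : ℤ) : ℝ) - t (b v) * υ v) / t (b v) := by
      rw [hy']
      field_simp
    rw [h1, abs_div, abs_of_pos htv, div_le_iff₀ htv]
    exact hyt v
  have hz : ∀ v : ι ⊕ τ, |(Sum.elim x y' v : ℝ) - Sum.elim x υ v| ≤ δ := by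
    rintro (v | v)
    · simp [hδ0.le]
    · exact hy'υ v
  have hz1 : ∀ v : ι ⊕ τ, |(Sum.elim x y' v : ℝ)| ≤ 3 := by
    rintro (v | v)
    · simp only [Sum.elim_inl]
      linarith [hx2 v]
    · simp only [Sum.elim_inr]
      have h1 := abs_sub_abs_le_abs_sub (y' v) (υ v)
      linarith [hy'υ v, hυ2 v]
  have hz2 : ∀ v : ι ⊕ τ, |(Sum.elim x υ v : ℝ)| ≤ 3 := by
    rintro (v | v)
    · simp only [Sum.elim_inl]
      linarith [hx2 v]
    · simp only [Sum.elim_inr]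
      linarith [hυ2 v]
  obtain ⟨c1, c2⟩ := hCL H c hH.le hc _ _ δ hδ0.le hz1 hz2 hz
  rw [hv, sub_zero] at c1
  have c3 := c2 i
  refine ⟨⟨y, h, L * P, x, i, S, J, xc⟩, ?_⟩
  refine { blk := hblk, hy := hh2, hh := fun β => (hh1 β).trans (by linarith),
           yb := fun v => (hyT v).trans (by linarith), A0 := hLP, A1 := ?_, pd := hpd, sj := hSJ,
           cf := fun α => ?_, ξ1 := hxr, ξ2 := hx2, vl := ?_, gr := ?_ }
  · have h1 := mul_le_mul_of_nonneg_left hPT hL0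
    show L * P ≤ _
    linarith
  · have h1 := coeff_fy_t (y := y) hH.le (fun k => (ht k).1) hc hyb α
    rw [← hL, ← hPdef] at h1
    exact h1
  · show |aeval x (fy c y)| ≤ θ * (L * P * H)
    rw [aeval_fy, hyy', val_block, ← hPdef, abs_mul, abs_of_pos hP0]
    have hLge : 1 ≤ L := by
      rw [hL]
      have h2 : (1 : ℝ) ≤ (Lam ι b (n + 2) e).card := by exact_mod_cast hcard
      have h3 : (1 : ℝ) ≤ 3 ^ (∑ k, e k) := one_le_pow₀ (by norm_num)
      nlinarith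
    have h4 : CL * H * δ ≤ θ * H := by
      have := mul_le_mul_of_nonneg_right hδθ hH.le
      linarith
    have h5 : P * |val (fun μ => (c μ : ℝ)) (Sum.elim x y')| ≤ P * (θ * H) :=
      mul_le_mul_of_nonneg_left (c1.trans h4) hP0.le
    have h6 : P * (θ * H) ≤ L * (P * (θ * H)) := le_mul_of_one_le_left (by positivity) hLge
    linarith
  · show γR / (2 * (L + 1)) * (L * P * H) ≤ |aeval x (pderiv i (fy c y))|
    rw [aeval_pderiv_fy, hyy', der_block, ← hPdef, abs_mul, abs_of_pos hP0]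
    have h4 : CL * H * δ ≤ γR / 2 * H := by
      have := mul_le_mul_of_nonneg_right hδγ hH.le
      linarith
    have h5 := abs_sub_abs_le_abs_sub (der (fun μ => (c μ : ℝ)) (Sum.inl i) (Sum.elim x υ))
      (der (fun μ => (c μ : ℝ)) (Sum.inl i) (Sum.elim x y'))
    rw [abs_sub_comm] at h5
    have h6 : γR / 2 * H ≤ |der (fun μ => (c μ : ℝ)) (Sum.inl i) (Sum.elim x y')| := by
      linarith
    have h7 : γR / (2 * (L + 1)) * (L * P * H) ≤ P * (γR / 2 * H) := by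
      have h8 : γR / (2 * (L + 1)) * (L * P * H) = (L / (L + 1)) * (P * (γR / 2 * H)) := by
        field_simp
      rw [h8]
      apply mul_le_of_le_one_left (by positivity)
      rw [div_le_one (by positivity)]
      linarith
    exact h7.trans (mul_le_mul_of_nonneg_left h6 hP0.le)

end

end Pool.Agent.T2H40.MB
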