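import Pool.Agent.T2H40.MB.Poly

/-!
# Multihomogeneous polynomials: one block of variables `x` and several blocks `y`
-/

set_option autoImplicit false
set_option linter.unusedSectionVars false

namespace Pool.Agent.T2H40.MB

open MvPolynomial Pool.Agent.Y716.Q

section

variable {ι τ κ : Type} [Fintype ι] [Fintype τ] [Fintype κ] [DecidableEq ι] [DecidableEq τ]
  [DecidableEq κ]

/-- the exponents of the monomials in the variables `y` of multidegree `e` -/
noncomputable def monB (b : τ → κ) (e : κ → ℕ) : Finset (τ →₀ ℕ) :=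
  (mons τ (∑ k, e k)).filter fun β => ∀ k, ∑ v, (if b v = k then β v else 0) = e k

theorem mem_monB {b : τ → κ} {e : κ → ℕ} {β : τ →₀ ℕ} :
    β ∈ monB b e ↔ ∀ k, ∑ v, (if b v = k then β v else 0) = e k := by
  unfold monB
  rw [Finset.mem_filter, mem_mons]
  refine ⟨fun h => h.2, fun h => ⟨?_, h⟩⟩
  rw [← Finset.sum_congr rfl fun k _ => h k, Finset.sum_comm]
  refine Finset.sum_congr rfl fun v _ => ?_
  rw [Finset.sum_ite_eq, if_pos (Finset.mem_univ _)]

/-- the exponents of the monomials of multidegree `(d, e)` -/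
noncomputable def Lam (ι : Type) {τ κ : Type} [Fintype ι] [Fintype τ] [Fintype κ]
    [DecidableEq κ] (b : τ → κ) (d : ℕ) (e : κ → ℕ) : Finset (ι ⊕ τ →₀ ℕ) :=
  (mons ι d ×ˢ monB b e).map Finsupp.sumFinsuppEquivProdFinsupp.symm.toEmbedding

/-- the exponent of the `x`-part -/
noncomputable def px (μ : ι ⊕ τ →₀ ℕ) : ι →₀ ℕ := (Finsupp.sumFinsuppEquivProdFinsupp μ).1

/-- the exponent of the `y`-part -/
noncomputable def py (μ : ι ⊕ τ →₀ ℕ) : τ →₀ ℕ := (Finsupp.sumFinsuppEquivProdFinsupp μ).2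

@[simp] theorem px_apply (μ : ι ⊕ τ →₀ ℕ) (i : ι) : px μ i = μ (Sum.inl i) := rfl

@[simp] theorem py_apply (μ : ι ⊕ τ →₀ ℕ) (v : τ) : py μ v = μ (Sum.inr v) := rfl

theorem mem_Lam {b : τ → κ} {d : ℕ} {e : κ → ℕ} {μ : ι ⊕ τ →₀ ℕ} :
    μ ∈ Lam ι b d e ↔ ∑ i, μ (Sum.inl i) = d ∧
      ∀ k, ∑ v, (if b v = k then μ (Sum.inr v) else 0) = e k := by
  unfold Lam
  rw [Finset.mem_map_equiv, Equiv.symm_symm, Finset.mem_product, mem_mons, mem_monB]
  rfl

variable {b : τ → κ} {d : ℕ} {e : κ → ℕ}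

theorem px_mem (μ : Lam ι b d e) : px μ.1 ∈ mons ι d := by
  rw [mem_mons]
  exact (mem_Lam.1 μ.2).1

theorem py_mem (μ : Lam ι b d e) : py μ.1 ∈ monB b e := by
  rw [mem_monB]
  exact (mem_Lam.1 μ.2).2

/-- sums over the exponents -/
theorem sum_Lam {M : Type} [AddCommMonoid M] (φ : (ι →₀ ℕ) → (τ →₀ ℕ) → M) :
    ∑ μ : Lam ι b d e, φ (px μ.1) (py μ.1) = ∑ α ∈ mons ι d, ∑ β ∈ monB b e, φ α β := by
  rw [Finset.sum_coe_sort (Lam ι b d e) (fun μ => φ (px μ) (py μ)), ← Finset.sum_product']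
  unfold Lam
  rw [Finset.sum_map]
  refine Finset.sum_congr rfl fun p _ => ?_
  unfold px py
  rw [Equiv.coe_toEmbedding, Equiv.apply_symm_apply]

theorem prod_elim {R : Type} [CommRing R] (μ : ι ⊕ τ →₀ ℕ) (x : ι → R) (y : τ → R) :
    ∏ v, (Sum.elim x y v) ^ (μ v) = (∏ i, x i ^ (px μ i)) * ∏ v, y v ^ (py μ v) := by
  rw [Fintype.prod_sum_type]
  rfl

/-- the product of the powers of the scalars of the blocks -/
theorem prod_block {R : Type} [CommRing R] (l : κ → R) (y : τ → R) {β : τ →₀ ℕ}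
    (hβ : β ∈ monB b e) :
    ∏ v, (l (b v) * y v) ^ (β v) = (∏ k, l k ^ (e k)) * ∏ v, y v ^ (β v) := by
  simp only [mul_pow]
  rw [Finset.prod_mul_distrib]
  congr 1
  have h1 : ∀ k, l k ^ (e k) = ∏ v, (if b v = k then l k ^ (β v) else 1) := by
    intro k
    rw [← mem_monB.1 hβ k, ← Finset.prod_pow_eq_pow_sum]
    refine Finset.prod_congr rfl fun v _ => ?_
    split_ifs
    · rfl
    · exact pow_zero _
  rw [Finset.prod_congr rfl fun k _ => h1 k, Finset.prod_comm]
  refine Finset.prod_congr rfl fun v _ => ?_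
  rw [Finset.prod_ite_eq, if_pos (Finset.mem_univ _)]

/-- homogeneity in the blocks of the variables `y` -/
theorem val_block {R : Type} [CommRing R] (c : Lam ι b d e → R) (x : ι → R) (l : κ → R)
    (y : τ → R) : val c (Sum.elim x fun v => l (b v) * y v) =
      (∏ k, l k ^ (e k)) * val c (Sum.elim x y) := by
  unfold val
  rw [Finset.mul_sum]
  refine Finset.sum_congr rfl fun μ _ => ?_
  rw [prod_elim, prod_elim, prod_block l y (py_mem μ)]
  ring

theorem der_block {R : Type} [CommRing R] (c : Lam ι b d e → R) (i : ι) (x : ι → R) (l : κ → R)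
    (y : τ → R) : der c (Sum.inl i) (Sum.elim x fun v => l (b v) * y v) =
      (∏ k, l k ^ (e k)) * der c (Sum.inl i) (Sum.elim x y) := by
  unfold der
  rw [Finset.mul_sum]
  refine Finset.sum_congr rfl fun μ _ => ?_
  rw [Fintype.prod_sum_type, Fintype.prod_sum_type]
  have h1 : ∀ y : τ → R, (∏ v, (Sum.elim x y (Sum.inr v)) ^
      (if (Sum.inr v : ι ⊕ τ) = Sum.inl i then μ.1 (Sum.inr v) - 1 else μ.1 (Sum.inr v))) =
      ∏ v, y v ^ (py μ.1 v) := by
    intro y
    refine Finset.prod_congr rfl fun v _ => ?_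
    rw [if_neg Sum.inr_ne_inl]
    rfl
  rw [h1, h1, prod_block l y (py_mem μ)]
  simp only [Sum.elim_inl]
  ring

/-- homogeneity in `x` -/
theorem val_x {R : Type} [CommRing R] (c : Lam ι b d e → R) (t : R) (x : ι → R) (y : τ → R) :
    val c (Sum.elim (fun i => t * x i) y) = t ^ d * val c (Sum.elim x y) := by
  unfold val
  rw [Finset.mul_sum]
  refine Finset.sum_congr rfl fun μ _ => ?_
  rw [prod_elim, prod_elim]
  have h1 : ∏ i, (t * x i) ^ (px μ.1 i) = t ^ d * ∏ i, x i ^ (px μ.1 i) := by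
    simp only [mul_pow]
    rw [Finset.prod_mul_distrib, Finset.prod_pow_eq_pow_sum, mem_mons.1 (px_mem μ)]
  rw [h1]
  ring

/-- the form `F (·, y)` -/
noncomputable def fy (c : Lam ι b d e → ℤ) (y : τ → ℤ) : MvPolynomial ι ℤ :=
  ∑ μ : Lam ι b d e, monomial (px μ.1) (c μ * ∏ v, y v ^ (py μ.1 v))

theorem fy_homog (c : Lam ι b d e → ℤ) (y : τ → ℤ) : (fy c y).IsHomogeneous d := by
  unfold fy
  apply MvPolynomial.IsHomogeneous.sum
  intro μ _
  apply isHomogeneous_monomial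
  have h : (px μ.1).degree = ∑ i, px μ.1 i :=
    Finset.sum_subset (Finset.subset_univ _) (fun v _ hv => by simpa using hv)
  exact h.trans (mem_mons.1 (px_mem μ))

theorem aeval_fy {R : Type} [CommRing R] (c : Lam ι b d e → ℤ) (x : ι → R) (y : τ → ℤ) :
    aeval x (fy c y) = val (fun μ => (c μ : R)) (Sum.elim x fun v => (y v : R)) := by
  unfold fy val
  rw [map_sum]
  refine Finset.sum_congr rfl fun μ _ => ?_
  rw [aeval_monomial, Finsupp.prod_fintype _ _ (fun i => pow_zero _), prod_elim]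
  simp
  ring

theorem aeval_pderiv_fy {R : Type} [CommRing R] (c : Lam ι b d e → ℤ) (i : ι) (x : ι → R)
    (y : τ → ℤ) : aeval x (pderiv i (fy c y)) =
      der (fun μ => (c μ : R)) (Sum.inl i) (Sum.elim x fun v => (y v : R)) := by
  unfold fy der
  rw [map_sum, map_sum]
  refine Finset.sum_congr rfl fun μ _ => ?_
  rw [aeval_pderiv_monomial, Fintype.prod_sum_type]
  have h1 : (∏ v, (Sum.elim x (fun v => (y v : R)) (Sum.inr v)) ^
      (if (Sum.inr v : ι ⊕ τ) = Sum.inl i then μ.1 (Sum.inr v) - 1 else μ.1 (Sum.inr v))) =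
      ∏ v, (y v : R) ^ (py μ.1 v) := by
    refine Finset.prod_congr rfl fun v _ => ?_
    rw [if_neg Sum.inr_ne_inl]
    rfl
  rw [h1]
  have h2 : (∏ w, (Sum.elim x (fun v => (y v : R)) (Sum.inl w)) ^
      (if (Sum.inl w : ι ⊕ τ) = Sum.inl i then μ.1 (Sum.inl w) - 1 else μ.1 (Sum.inl w))) =
      ∏ w, x w ^ (if w = i then px μ.1 w - 1 else px μ.1 w) := by
    refine Finset.prod_congr rfl fun w _ => ?_
    simp only [Sum.inl.injEq]
    rfl
  rw [h2]
  push_cast
  simp only [px_apply]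
  ring

end

end Pool.Agent.T2H40.MB
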