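import Pool.Agent.T2H40.MB.Final

/-!
# The Hasse principle for 100% of the Fano hypersurfaces in products of projective spaces

Let `2 ≤ d ≤ n`, `3 ≤ n` and `e k ≥ 1`. Among the smooth hypersurfaces of multidegree
`(d; e 1, …, e m)` in `ℙⁿ × ℙ^{r 1} × ⋯ × ℙ^{r m}`, given by multihomogeneous polynomials with integral
coefficients of absolute value at most `H`, which have points over the real numbers and over all the
`p`-adic fields (these are a positive proportion of all), a proportion tending to `1` as `H → ∞` has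
a rational point. For `e k ≤ r k` these hypersurfaces are Fano varieties.
-/

set_option autoImplicit false

namespace Pool.Agent.Results.MP_03ef3d_ag.MultihomogeneousHypersurfaces

open MvPolynomial Filter Topology

/-- The coordinates of `ℙⁿ × ℙ^{r 1} × ⋯ × ℙ^{r m}`: `Sum.inl i` is the coordinate `x i` of `ℙⁿ`, and
`Sum.inr ⟨k, j⟩` is the coordinate `y j` of `ℙ^{r k}`. -/
abbrev Coord (n : ℕ) {m : ℕ} (r : Fin m → ℕ) : Type := Fin (n + 1) ⊕ (Σ k : Fin m, Fin (r k + 1))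

/-- The polynomials of degree `d` in the coordinates of `ℙⁿ` and of degree `e k` in the coordinates
of `ℙ^{r k}`, with integral coefficients of absolute value at most `H`. -/
def Polynomials {n m : ℕ} (r : Fin m → ℕ) (d : ℕ) (e : Fin m → ℕ) (H : ℕ) :
    Set (MvPolynomial (Coord n r) ℤ) :=
  {F | (∀ μ, F.coeff μ ≠ 0 → ∑ i, μ (Sum.inl i) = d ∧ ∀ k, ∑ j, μ (Sum.inr ⟨k, j⟩) = e k) ∧
    ∀ μ, |F.coeff μ| ≤ (H : ℤ)}

/-- `z` gives the homogeneous coordinates of a point of `ℙⁿ × ℙ^{r 1} × ⋯ × ℙ^{r m}`: in each of the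
factors not all the coordinates vanish. -/
def IsPoint {n m : ℕ} {r : Fin m → ℕ} {K : Type} [Field K] (z : Coord n r → K) : Prop :=
  (∃ i, z (Sum.inl i) ≠ 0) ∧ ∀ k, ∃ j, z (Sum.inr ⟨k, j⟩) ≠ 0

/-- The hypersurface `F = 0` has a point over the field `K`. -/
def HasPoint {n m : ℕ} {r : Fin m → ℕ} (F : MvPolynomial (Coord n r) ℤ) (K : Type) [Field K] :
    Prop :=
  ∃ z : Coord n r → K, IsPoint z ∧ aeval z F = 0

/-- The hypersurface `F = 0` is smooth: at each of its points over a field of characteristic zero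
some partial derivative of `F` does not vanish. -/
def Smooth {n m : ℕ} {r : Fin m → ℕ} (F : MvPolynomial (Coord n r) ℤ) : Prop :=
  ∀ (K : Type) [Field K] [CharZero K] (z : Coord n r → K), IsPoint z → aeval z F = 0 →
    ∃ v, aeval z (pderiv v F) ≠ 0

/-- The hypersurface `F = 0` has points over the real numbers and over all the `p`-adic fields. -/
def LocallySoluble {n m : ℕ} {r : Fin m → ℕ} (F : MvPolynomial (Coord n r) ℤ) : Prop :=
  HasPoint F ℝ ∧ ∀ (p : ℕ) [Fact p.Prime], HasPoint F ℚ_[p]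

section

variable {n m : ℕ} {r : Fin m → ℕ}

theorem isPoint_iff {K : Type} [Field K] (z : Coord n r → K) :
    IsPoint z ↔ (fun i => z (Sum.inl i)) ≠ 0 ∧
      ∀ k : Fin m, ∃ v : Σ k : Fin m, Fin (r k + 1), v.1 = k ∧ z (Sum.inr v) ≠ 0 := by
  unfold IsPoint
  refine and_congr Function.ne_iff.symm (forall_congr' fun k => ⟨?_, ?_⟩)
  · rintro ⟨j, hj⟩
    exact ⟨⟨k, j⟩, rfl, hj⟩
  · rintro ⟨⟨k', j⟩, rfl, hj⟩
    exact ⟨j, hj⟩

theorem elim_eta {K : Type} (z : Coord n r → K) :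
    Sum.elim (fun i => z (Sum.inl i)) (fun v => z (Sum.inr v)) = z := by
  funext v
  rcases v with v | v <;> rfl

theorem mem_lam_iff {d : ℕ} {e : Fin m → ℕ} {μ : Coord n r →₀ ℕ} :
    μ ∈ T2H40.MB.Lam (Fin (n + 1)) (Sigma.fst : (Σ k : Fin m, Fin (r k + 1)) → Fin m) d e ↔
      ∑ i, μ (Sum.inl i) = d ∧ ∀ k, ∑ j, μ (Sum.inr ⟨k, j⟩) = e k := by
  rw [T2H40.MB.mem_Lam]
  refine and_congr Iff.rfl (forall_congr' fun k => ?_)
  rw [Fintype.sum_sigma, Finset.sum_eq_single k]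
  · simp only [if_true]
  · intro k' _ hk'
    exact Finset.sum_eq_zero fun j _ => if_neg hk'
  · intro h
    exact absurd (Finset.mem_univ _) h

variable {d : ℕ} {e : Fin m → ℕ}

/-- the exponents of the monomials of multidegree `(d; e)` -/
noncomputable abbrev expo (n : ℕ) {m : ℕ} (r : Fin m → ℕ) (d : ℕ) (e : Fin m → ℕ) :
    Finset (Coord n r →₀ ℕ) :=
  T2H40.MB.Lam (Fin (n + 1)) (Sigma.fst : (Σ k : Fin m, Fin (r k + 1)) → Fin m) d e

theorem hasPoint_iff (K : Type) [Field K] (c : expo n r d e → ℤ) :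
    HasPoint (T2H40.MB.poly c) K ↔ T2H40.MB.PtK K c := by
  unfold HasPoint T2H40.MB.PtK
  constructor
  · rintro ⟨z, hz, h0⟩
    obtain ⟨h1, h2⟩ := (isPoint_iff z).1 hz
    refine ⟨fun i => z (Sum.inl i), fun v => z (Sum.inr v), h1, h2, ?_⟩
    rw [elim_eta, ← T2H40.MB.aeval_poly]
    exact h0
  · rintro ⟨x, y, hx, hy, h0⟩
    refine ⟨Sum.elim x y, (isPoint_iff _).2 ⟨hx, hy⟩, ?_⟩
    rw [T2H40.MB.aeval_poly]
    exact h0

theorem smooth_iff (c : expo n r d e → ℤ) :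
    Smooth (T2H40.MB.poly c) ↔ T2H40.MB.SmK c := by
  unfold Smooth T2H40.MB.SmK
  constructor
  · intro h K _ _ x y hx hy h0
    obtain ⟨v, hv⟩ := h K (Sum.elim x y) ((isPoint_iff _).2 ⟨hx, hy⟩) (by
      rw [T2H40.MB.aeval_poly]
      exact h0)
    refine ⟨v, ?_⟩
    rw [T2H40.MB.aeval_pderiv_poly] at hv
    exact hv
  · intro h K _ _ z hz h0
    obtain ⟨h1, h2⟩ := (isPoint_iff z).1 hz
    obtain ⟨v, hv⟩ := h K (fun i => z (Sum.inl i)) (fun v => z (Sum.inr v)) h1 h2 (by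
      rw [elim_eta, ← T2H40.MB.aeval_poly]
      exact h0)
    refine ⟨v, ?_⟩
    rw [elim_eta] at hv
    rw [T2H40.MB.aeval_pderiv_poly]
    exact hv

theorem mem_poly_iff (H : ℕ) (F : MvPolynomial (Coord n r) ℤ) : F ∈ Polynomials r d e H ↔
    (∀ μ, F.coeff μ ≠ 0 → μ ∈ expo n r d e) ∧ ∀ μ, |F.coeff μ| ≤ (H : ℤ) := by
  refine and_congr (forall_congr' fun μ => ?_) Iff.rfl
  rw [mem_lam_iff]

theorem poly_mem (H : ℕ) (c : expo n r d e → ℤ) (hc : c ∈ T2H40.MB.box (expo n r d e) H) :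
    T2H40.MB.poly c ∈ Polynomials r d e H := by
  rw [mem_poly_iff]
  constructor
  · intro μ hμ
    by_contra h
    rw [T2H40.MB.coeff_poly, dif_neg h] at hμ
    exact hμ rfl
  · intro μ
    rw [T2H40.MB.coeff_poly]
    split_ifs with h
    · exact T2H40.MB.mem_box.1 hc _
    · simp

theorem ncard_of (H : ℕ) (Q : MvPolynomial (Coord n r) ℤ → Prop) (Q' : (expo n r d e → ℤ) → Prop)
    {hd : DecidablePred Q'}
    (h : ∀ c : expo n r d e → ℤ, Q (T2H40.MB.poly c) ↔ Q' c) :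
    ({F | F ∈ Polynomials r d e H ∧ Q F} : Set _).ncard =
      ((T2H40.MB.box (expo n r d e) H).filter Q').card :=
  T2H40.MB.ncard_poly (expo n r d e) H (Q' := Q') (fun F hF => (mem_poly_iff H F).1 hF.1)
    (fun c hc => ⟨fun h1 => (h c).1 h1.2, fun h1 => ⟨poly_mem H c hc, (h c).2 h1⟩⟩)

theorem ncard_all (H : ℕ) : (Polynomials (n := n) r d e H).ncard =
    (T2H40.MB.box (expo n r d e) H).card := by
  have h := ncard_of (n := n) (r := r) (d := d) (e := e) H (fun _ => True) (fun _ => True)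
    (hd := fun _ => instDecidableTrue) (fun _ => Iff.rfl)
  have h1 : ({F | F ∈ Polynomials (n := n) r d e H ∧ True} : Set _) = Polynomials r d e H := by
    ext F
    exact and_iff_left trivial
  rw [h1] at h
  rw [h, Finset.filter_true_of_mem fun _ _ => trivial]

theorem locallySoluble_iff (c : expo n r d e → ℤ) :
    LocallySoluble (T2H40.MB.poly c) ↔ T2H40.MB.Els c := by
  unfold LocallySoluble T2H40.MB.Els
  rw [hasPoint_iff]
  exact ⟨fun h => ⟨h.1, fun p _ => (hasPoint_iff _ c).1 (h.2 p)⟩,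
    fun h => ⟨h.1, fun p _ => (hasPoint_iff _ c).2 (h.2 p)⟩⟩

end

/-- **The Hasse principle for 100% of the Fano hypersurfaces in products of projective spaces.** Let
`2 ≤ d ≤ n`, `3 ≤ n` and `e k ≥ 1`. A positive proportion of the hypersurfaces of multidegree
`(d; e 1, …, e m)` in `ℙⁿ × ℙ^{r 1} × ⋯ × ℙ^{r m}`, ordered by height, is smooth and everywhere
locally soluble, and 100% of these have a rational point. -/
theorem result {n m d : ℕ} (r e : Fin m → ℕ) (hn : 3 ≤ n) (hd : 2 ≤ d) (hdn : d ≤ n)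
    (he : ∀ k, 1 ≤ e k) :
    (∃ c : ℝ, 0 < c ∧ ∀ᶠ H : ℕ in atTop,
      c * ((Polynomials (n := n) r d e H).ncard : ℝ) ≤
        (({F | F ∈ Polynomials (n := n) r d e H ∧ Smooth F ∧ LocallySoluble F} : Set _).ncard : ℝ)) ∧
    Tendsto (fun H : ℕ =>
      (({F | F ∈ Polynomials (n := n) r d e H ∧ Smooth F ∧ HasPoint F ℚ} : Set _).ncard : ℝ) /
      (({F | F ∈ Polynomials (n := n) r d e H ∧ Smooth F ∧ LocallySoluble F} : Set _).ncard : ℝ))
      atTop (𝓝 1) := by
  classical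
  obtain ⟨δ, rfl⟩ : ∃ δ, d = δ + 2 := ⟨d - 2, by omega⟩
  obtain ⟨h1, h2⟩ := Pool.Agent.Y716.D.dims (e := fun _ : Fin 1 => δ) le_rfl hn (by simpa using hdn)
  have hcl := Pool.Agent.Y716.D.class_all (Fin (n + 1)) le_rfl h1 (fun _ : Fin 1 => δ) h2
  have hpos := Pool.Agent.Y716.D.pos_all (Fin (n + 1)) le_rfl h1 (fun _ : Fin 1 => δ) h2
  obtain ⟨⟨c, hc, h3⟩, h4⟩ := T2H40.MB.hp_main (ι := Fin (n + 1))
    (Sigma.fst : (Σ k : Fin m, Fin (r k + 1)) → Fin m) (fun k => ⟨⟨k, 0⟩, rfl⟩) δ e he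
    (by rw [Fintype.card_fin]; omega) hcl hpos
  have hB : ∀ H : ℕ, ({F | F ∈ Polynomials (n := n) r (δ + 2) e H ∧ Smooth F ∧
      LocallySoluble F} : Set _).ncard =
      ((T2H40.MB.box (expo n r (δ + 2) e) H).filter fun c =>
          T2H40.MB.SmK c ∧ T2H40.MB.Els c).card := fun H =>
    ncard_of H (fun F => Smooth F ∧ LocallySoluble F)
      (fun c => T2H40.MB.SmK c ∧ T2H40.MB.Els c)
      (fun c => and_congr (smooth_iff c) (locallySoluble_iff c))
  have hC : ∀ H : ℕ, ({F | F ∈ Polynomials (n := n) r (δ + 2) e H ∧ Smooth F ∧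
      HasPoint F ℚ} : Set _).ncard =
      ((T2H40.MB.box (expo n r (δ + 2) e) H).filter fun c =>
          T2H40.MB.SmK c ∧ T2H40.MB.PtK ℚ c).card := fun H =>
    ncard_of H (fun F => Smooth F ∧ HasPoint F ℚ)
      (fun c => T2H40.MB.SmK c ∧ T2H40.MB.PtK ℚ c)
      (fun c => and_congr (smooth_iff c) (hasPoint_iff ℚ c))
  constructor
  · refine ⟨c, hc, ?_⟩
    filter_upwards [h3] with H hH
    rw [ncard_all, hB]
    exact hH
  · simp only [hB, hC]
    exact h4

end Pool.Agent.Results.MP_03ef3d_ag.MultihomogeneousHypersurfaces
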