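import Pool.Agent.T2H40.MB.Defs

/-!
# Package P, part 1: algebra and counting of coefficient vectors
-/

set_option autoImplicit false
set_option linter.unusedSectionVars false

namespace Pool.Agent.T2H40.MB.P

variable {V : Type} [Fintype V] [DecidableEq V] {Λ : Finset (V →₀ ℕ)}

theorem val_map {R S : Type} [CommRing R] [CommRing S] (f : R →+* S) (c : Λ → R) (z : V → R) :
    f (val c z) = val (fun μ => f (c μ)) (fun v => f (z v)) := by
  simp only [val, map_sum, map_mul, map_prod, map_pow]

theorem der_map {R S : Type} [CommRing R] [CommRing S] (f : R →+* S) (c : Λ → R) (v : V)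
    (z : V → R) : f (der c v z) = der (fun μ => f (c μ)) v (fun v => f (z v)) := by
  simp only [der, map_sum, map_mul, map_prod, map_pow, map_natCast]

theorem val_add {R : Type} [CommRing R] (c c' : Λ → R) (z : V → R) :
    val (c + c') z = val c z + val c' z := by
  simp only [val, Pi.add_apply, add_mul, Finset.sum_add_distrib]

theorem der_add {R : Type} [CommRing R] (c c' : Λ → R) (v : V) (z : V → R) :
    der (c + c') v z = der c v z + der c' v z := by
  simp only [der, Pi.add_apply, add_mul, Finset.sum_add_distrib]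

theorem val_sum {R ι : Type} [CommRing R] (s : Finset ι) (c : ι → Λ → R) (z : V → R) :
    val (∑ i ∈ s, c i) z = ∑ i ∈ s, val (c i) z := by
  simp only [val, Finset.sum_apply, Finset.sum_mul]
  rw [Finset.sum_comm]

theorem der_sum {R ι : Type} [CommRing R] (s : Finset ι) (c : ι → Λ → R) (v : V) (z : V → R) :
    der (∑ i ∈ s, c i) v z = ∑ i ∈ s, der (c i) v z := by
  simp only [der, Finset.sum_apply, Finset.sum_mul]
  rw [Finset.sum_comm]

theorem val_single {R : Type} [CommRing R] (μ : Λ) (a : R) (z : V → R) :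
    val (Pi.single μ a) z = a * ∏ v, z v ^ (μ.1 v) := by
  unfold val
  rw [Finset.sum_eq_single μ]
  · rw [Pi.single_eq_same]
  · intro ν _ hν
    rw [Pi.single_eq_of_ne hν, zero_mul]
  · intro h
    exact absurd (Finset.mem_univ _) h

theorem der_single {R : Type} [CommRing R] (μ : Λ) (a : R) (v : V) (z : V → R) :
    der (Pi.single μ a) v z =
      a * ((μ.1 v : R) * ∏ w, z w ^ (if w = v then μ.1 w - 1 else μ.1 w)) := by
  unfold der
  rw [Finset.sum_eq_single μ]
  · rw [Pi.single_eq_same]
  · intro ν _ hν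
    rw [Pi.single_eq_of_ne hν, zero_mul]
  · intro h
    exact absurd (Finset.mem_univ _) h

/-- the monomials of a chart -/
structure Mon (Λ : Finset (V →₀ ℕ)) (A : Finset V) (μ0 : Λ) (mu : V → Λ) : Prop where
  base : ∀ v, v ∉ A → μ0.1 v = 0
  one : ∀ v, v ∉ A → (mu v).1 v = 1
  zero : ∀ v, v ∉ A → ∀ w, w ∉ A → w ≠ v → (mu v).1 w = 0

theorem exists_mon {A : Finset V} (h : Chart Λ A) : ∃ (μ0 : Λ) (mu : V → Λ), Mon Λ A μ0 mu := by
  classical
  obtain ⟨μ0, h0, h1⟩ := h.base
  choose f hf using h.lin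
  refine ⟨⟨μ0, h0⟩, fun v => if hv : v ∉ A then ⟨f v hv, (hf v hv).1⟩ else ⟨μ0, h0⟩, h1, ?_, ?_⟩
  · intro v hv
    simp only [hv, not_false_eq_true, dif_pos]
    exact (hf v hv).2.1
  · intro v hv w hw hwv
    simp only [hv, not_false_eq_true, dif_pos]
    exact (hf v hv).2.2 w hw hwv

section

variable {A : Finset V} {μ0 : Λ} {mu : V → Λ} (hM : Mon Λ A μ0 mu) {R : Type} [CommRing R]

/-- a coefficient vector with prescribed value and derivatives -/
def uu (A : Finset V) (μ0 : Λ) (mu : V → Λ) (α : R) (β : V → R) : Λ → R :=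
  Pi.single μ0 α + ∑ v ∈ Aᶜ, Pi.single (mu v) (β v)

include hM

theorem val_uu (α : R) (β : V → R) (z : V → R) (hz : ∀ v ∈ A, z v = 1) :
    val (uu A μ0 mu α β) z = α + ∑ v ∈ Aᶜ, β v * z v := by
  unfold uu
  rw [val_add, val_sum, val_single]
  have h1 : ∏ v, z v ^ (μ0.1 v) = 1 := by
    refine Finset.prod_eq_one fun v _ => ?_
    by_cases hv : v ∈ A
    · rw [hz v hv, one_pow]
    · rw [hM.base v hv, pow_zero]
  rw [h1, mul_one]
  congr 1
  refine Finset.sum_congr rfl fun v hv => ?_
  rw [Finset.mem_compl] at hv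
  rw [val_single]
  congr 1
  rw [Finset.prod_eq_single v]
  · rw [hM.one v hv, pow_one]
  · intro w _ hw
    by_cases hwA : w ∈ A
    · rw [hz w hwA, one_pow]
    · rw [hM.zero v hv w hwA hw, pow_zero]
  · intro h
    exact absurd (Finset.mem_univ _) h

theorem der_uu (α : R) (β : V → R) (z : V → R) (hz : ∀ v ∈ A, z v = 1) (w : V) (hw : w ∉ A) :
    der (uu A μ0 mu α β) w z = β w := by
  unfold uu
  rw [der_add, der_sum, der_single, hM.base w hw, Nat.cast_zero, zero_mul, mul_zero, zero_add]
  rw [Finset.sum_eq_single w]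
  · rw [der_single, hM.one w hw, Nat.cast_one, one_mul]
    have h1 : ∏ v, z v ^ (if v = w then (mu w).1 v - 1 else (mu w).1 v) = 1 := by
      refine Finset.prod_eq_one fun v _ => ?_
      by_cases hv : v = w
      · rw [if_pos hv, hv, hM.one w hw]; simp
      · rw [if_neg hv]
        by_cases hvA : v ∈ A
        · rw [hz v hvA, one_pow]
        · rw [hM.zero w hw v hvA hv, pow_zero]
    rw [h1, mul_one]
  · intro v hv hvw
    rw [Finset.mem_compl] at hv
    rw [der_single, hM.zero v hv w hw (Ne.symm hvw), Nat.cast_zero, zero_mul, mul_zero]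
  · intro h
    exact absurd (Finset.mem_compl.2 hw) h

end

open scoped Classical in
/-- coefficient vectors with a given zero which is singular modulo `q` -/
theorem count_sing {A : Finset V} {μ0 : Λ} {mu : V → Λ} (hM : Mon Λ A μ0 mu) (q : ℕ) [NeZero q]
    (z : V → ZMod q) (hz : ∀ v ∈ A, z v = 1) :
    (Finset.univ.filter fun c : Λ → ZMod q => val c z = 0 ∧ ∀ v, v ∉ A → der c v z = 0).card *
      (q * q ^ (Aᶜ).card) ≤ q ^ Λ.card := by
  set B := Finset.univ.filter fun c : Λ → ZMod q => val c z = 0 ∧ ∀ v, v ∉ A → der c v z = 0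
    with hB
  have h1 : B.card * (q * q ^ (Aᶜ).card) =
      (B ×ˢ (Finset.univ : Finset (ZMod q × ((Aᶜ : Finset V) → ZMod q)))).card := by
    rw [Finset.card_product, Finset.card_univ, Fintype.card_prod, Fintype.card_fun, ZMod.card,
      Fintype.card_coe]
  have h2 : q ^ Λ.card = (Finset.univ : Finset (Λ → ZMod q)).card := by
    rw [Finset.card_univ, Fintype.card_fun, ZMod.card, Fintype.card_coe]
  rw [h1, h2]
  let ext : ((Aᶜ : Finset V) → ZMod q) → V → ZMod q := fun β v =>
    if h : v ∈ Aᶜ then β ⟨v, h⟩ else 0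
  refine Finset.card_le_card_of_injOn (fun x => x.1 + uu A μ0 mu x.2.1 (ext x.2.2))
    (fun _ _ => Finset.mem_coe.2 (Finset.mem_univ _)) ?_
  rintro ⟨c, α, β⟩ hx ⟨c', α', β'⟩ hx' he
  have hc : c ∈ B := (Finset.mem_product.1 (Finset.mem_coe.1 hx)).1
  have hc' : c' ∈ B := (Finset.mem_product.1 (Finset.mem_coe.1 hx')).1
  rw [hB, Finset.mem_filter] at hc hc'
  simp only at he
  have hβ : ext β = ext β' := by
    funext v
    by_cases hv : v ∈ A
    · have : v ∉ Aᶜ := by rw [Finset.mem_compl]; exact not_not.2 hv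
      simp only [ext, this, dif_neg, not_false_eq_true]
    · have h3 := congrArg (fun c => der c v z) he
      simp only [der_add, der_uu hM _ _ z hz v hv, hc.2.2 v hv, hc'.2.2 v hv, zero_add] at h3
      exact h3
  have hα : α = α' := by
    have h3 := congrArg (fun c => val c z) he
    simp only [val_add, val_uu hM _ _ z hz, hc.2.1, hc'.2.1, zero_add, hβ] at h3
    exact add_right_cancel h3
  have hβ2 : β = β' := by
    funext ⟨v, hv⟩
    have := congrFun hβ v
    simpa only [ext, hv, dif_pos] using this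
  rw [hα, hβ2] at he
  have hcc : c = c' := add_right_cancel he
  rw [hcc, hα, hβ2]

open scoped Classical in
/-- coefficient vectors with a given zero at which the derivative is divisible by `p ^ k` -/
theorem count_deg {A : Finset V} {μ0 : Λ} {mu : V → Λ} (hM : Mon Λ A μ0 mu) (q r : ℕ) [NeZero q]
    [NeZero r] (hrq : r ∣ q) (x : V) (hx : x ∉ A) (z : V → ZMod q) (hz : ∀ v ∈ A, z v = 1) :
    (Finset.univ.filter fun c : Λ → ZMod q => val c z = 0 ∧
      ZMod.castHom hrq (ZMod r) (der c x z) = 0).card * (q * r) ≤ q ^ Λ.card := by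
  set B := Finset.univ.filter fun c : Λ → ZMod q => val c z = 0 ∧
      ZMod.castHom hrq (ZMod r) (der c x z) = 0 with hB
  have h1 : B.card * (q * r) =
      (B ×ˢ (Finset.univ : Finset (ZMod q × Fin r))).card := by
    rw [Finset.card_product, Finset.card_univ, Fintype.card_prod, ZMod.card, Fintype.card_fin]
  have h2 : q ^ Λ.card = (Finset.univ : Finset (Λ → ZMod q)).card := by
    rw [Finset.card_univ, Fintype.card_fun, ZMod.card, Fintype.card_coe]
  rw [h1, h2]
  refine Finset.card_le_card_of_injOn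
    (fun y => y.1 + uu A μ0 mu y.2.1 (Pi.single x ((y.2.2 : ℕ) : ZMod q)))
    (fun _ _ => Finset.mem_coe.2 (Finset.mem_univ _)) ?_
  rintro ⟨c, α, β⟩ hy ⟨c', α', β'⟩ hy' he
  have hc : c ∈ B := (Finset.mem_product.1 (Finset.mem_coe.1 hy)).1
  have hc' : c' ∈ B := (Finset.mem_product.1 (Finset.mem_coe.1 hy')).1
  rw [hB, Finset.mem_filter] at hc hc'
  simp only at he
  have hβ : β = β' := by
    have h3 := congrArg (fun c => ZMod.castHom hrq (ZMod r) (der c x z)) he
    simp only [der_add, der_uu hM _ _ z hz x hx, map_add, hc.2.2, hc'.2.2, zero_add,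
      Pi.single_eq_same, map_natCast] at h3
    rw [ZMod.natCast_eq_natCast_iff'] at h3
    rw [Nat.mod_eq_of_lt β.2, Nat.mod_eq_of_lt β'.2] at h3
    exact Fin.ext h3
  have hα : α = α' := by
    have h3 := congrArg (fun c => val c z) he
    simp only [val_add, val_uu hM _ _ z hz, hc.2.1, hc'.2.1, zero_add, hβ] at h3
    exact add_right_cancel h3
  rw [hα, hβ] at he
  have hcc : c = c' := add_right_cancel he
  rw [hcc, hα, hβ]

open scoped Classical in
/-- number of points of the chart modulo `q` -/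
theorem count_pts (A : Finset V) (q : ℕ) [NeZero q] :
    (Finset.univ.filter fun z : V → ZMod q => ∀ v ∈ A, z v = 1).card = q ^ (Aᶜ).card := by
  have h1 : (Finset.univ.filter fun z : V → ZMod q => ∀ v ∈ A, z v = 1) =
      Fintype.piFinset fun v => if v ∈ A then {1} else Finset.univ := by
    ext z
    simp only [Finset.mem_filter, Finset.mem_univ, true_and, Fintype.mem_piFinset]
    refine forall_congr' fun v => ?_
    by_cases hv : v ∈ A
    · simp [hv]
    · simp [hv]
  rw [h1, Fintype.card_piFinset]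
  have h2 : ∀ v, (if v ∈ A then ({1} : Finset (ZMod q)) else Finset.univ).card =
      if v ∈ A then 1 else q := by
    intro v
    by_cases hv : v ∈ A
    · simp [hv]
    · simp [hv, ZMod.card]
  simp only [h2]
  rw [Finset.prod_ite, Finset.prod_const_one, one_mul, Finset.prod_const]
  congr 2
  ext v
  simp

end Pool.Agent.T2H40.MB.P
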