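import Pool.Agent.T2H40.MB.P1

/-!
# Package P, part 2: Hensel's lemma and the number of zeros
-/

set_option autoImplicit false
set_option linter.unusedSectionVars false

namespace Pool.Agent.T2H40.MB.P

variable {V : Type} [Fintype V] [DecidableEq V] {Λ : Finset (V →₀ ℕ)}

/-- the polynomial in the variable `a` -/
noncomputable def pol (c : Λ → ℤ) (z : V → ℤ) (a : V) : Polynomial ℤ :=
  ∑ μ : Λ, Polynomial.C (c μ * ∏ v ∈ Finset.univ.erase a, z v ^ (μ.1 v)) *
    Polynomial.X ^ (μ.1 a)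

theorem pol_eval (c : Λ → ℤ) (z : V → ℤ) (a : V) (t : ℤ) :
    (pol c z a).eval t = val c (Function.update z a t) := by
  unfold pol val
  rw [Polynomial.eval_finsetSum]
  refine Finset.sum_congr rfl fun μ _ => ?_
  rw [Polynomial.eval_mul, Polynomial.eval_C, Polynomial.eval_pow, Polynomial.eval_X,
    ← Finset.mul_prod_erase Finset.univ _ (Finset.mem_univ a), Function.update_self]
  have : ∏ v ∈ Finset.univ.erase a, Function.update z a t v ^ (μ.1 v) =
      ∏ v ∈ Finset.univ.erase a, z v ^ (μ.1 v) := by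
    refine Finset.prod_congr rfl fun v hv => ?_
    rw [Function.update_of_ne (Finset.ne_of_mem_erase hv)]
  rw [this]
  ring

theorem pol_der (c : Λ → ℤ) (z : V → ℤ) (a : V) (t : ℤ) :
    (pol c z a).derivative.eval t = der c a (Function.update z a t) := by
  unfold pol der
  rw [Polynomial.derivative_sum, Polynomial.eval_finsetSum]
  refine Finset.sum_congr rfl fun μ _ => ?_
  rw [Polynomial.derivative_C_mul, Polynomial.derivative_X_pow, Polynomial.eval_mul,
    Polynomial.eval_mul, Polynomial.eval_C, Polynomial.eval_C, Polynomial.eval_pow,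
    Polynomial.eval_X, ← Finset.mul_prod_erase Finset.univ _ (Finset.mem_univ a),
    Function.update_self]
  have : ∏ v ∈ Finset.univ.erase a,
      Function.update z a t v ^ (if v = a then μ.1 v - 1 else μ.1 v) =
      ∏ v ∈ Finset.univ.erase a, z v ^ (μ.1 v) := by
    refine Finset.prod_congr rfl fun v hv => ?_
    rw [Function.update_of_ne (Finset.ne_of_mem_erase hv), if_neg (Finset.ne_of_mem_erase hv)]
  rw [this, if_pos rfl]
  ring

/-- Hensel's lemma -/
theorem hens (p : ℕ) [Fact p.Prime] (F : Polynomial ℤ) (s : ℤ) (j : ℕ)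
    (h1 : (p : ℤ) ^ (2 * j) ∣ F.eval s) (h2 : ¬ (p : ℤ) ^ j ∣ F.derivative.eval s) (M : ℕ) :
    ∃ t : ℤ, (p : ℤ) ^ M ∣ F.eval t := by
  have hp : (0 : ℝ) < p := by exact_mod_cast (Fact.out : p.Prime).pos
  have e1 : ∀ (G : Polynomial ℤ) (u : ℤ), G.aeval (u : ℤ_[p]) = ((G.eval u : ℤ) : ℤ_[p]) := by
    intro G u
    have := Polynomial.aeval_algebraMap_apply ℤ_[p] u G
    simpa using this
  have n1 : ‖F.aeval (s : ℤ_[p])‖ ≤ (p : ℝ) ^ (-((2 * j : ℕ) : ℤ)) := by
    rw [e1, PadicInt.norm_int_le_pow_iff_dvd]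
    exact h1
  have n2 : (p : ℝ) ^ (-((j : ℕ) : ℤ)) < ‖F.derivative.aeval (s : ℤ_[p])‖ := by
    rw [e1]
    by_contra h
    rw [not_lt, PadicInt.norm_int_le_pow_iff_dvd] at h
    exact h2 h
  have n3 : ‖F.aeval (s : ℤ_[p])‖ < ‖F.derivative.aeval (s : ℤ_[p])‖ ^ 2 := by
    refine lt_of_le_of_lt n1 ?_
    have h3 : (p : ℝ) ^ (-((2 * j : ℕ) : ℤ)) = ((p : ℝ) ^ (-((j : ℕ) : ℤ))) ^ 2 := by
      rw [← zpow_natCast, ← zpow_mul]
      congr 1
      push_cast
      ring
    rw [h3]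
    exact pow_lt_pow_left₀ n2 (by positivity) two_ne_zero
  obtain ⟨z, hz, -⟩ := hensels_lemma n3
  refine ⟨(z.appr M : ℕ), ?_⟩
  rw [← PadicInt.norm_int_le_pow_iff_dvd (p := p), ← e1]
  have h4 : z - ((z.appr M : ℕ) : ℤ_[p]) ∈ (Ideal.span {(p : ℤ_[p]) ^ M} : Ideal ℤ_[p]) :=
    PadicInt.appr_spec M z
  rw [Ideal.mem_span_singleton] at h4
  have h5 := Polynomial.sub_dvd_eval_sub z ((z.appr M : ℕ) : ℤ_[p])
    (F.map (algebraMap ℤ ℤ_[p]))
  rw [Polynomial.eval_map_algebraMap, Polynomial.eval_map_algebraMap, hz, zero_sub, dvd_neg] at h5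
  rw [PadicInt.norm_le_pow_iff_mem_span_pow, Ideal.mem_span_singleton]
  have h6 := h4.trans h5
  simpa using h6

open scoped Classical in
/-- many zeros near a zero which is not very singular -/
theorem many_zeros (p : ℕ) [Fact p.Prime] {A : Finset V} (c : Λ → ℤ) (zs : V → ℤ)
    (hzs : ∀ v ∈ A, zs v = 1) (a : V) (ha : a ∉ A) (j M : ℕ) (hj : 2 * j ≤ M)
    (h1 : (p : ℤ) ^ (2 * j) ∣ val c zs) (h2 : ¬ (p : ℤ) ^ j ∣ der c a zs) [NeZero (p ^ M)] :
    (p ^ (M - 2 * j)) ^ ((Aᶜ).card - 1) ≤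
      (Finset.univ.filter fun z : V → ZMod (p ^ M) => ∃ Z : V → ℤ, (∀ v ∈ A, Z v = 1) ∧
        (p : ℤ) ^ M ∣ val c Z ∧ z = fun v => (Z v : ZMod (p ^ M))).card := by
  have hp : 0 < p := (Fact.out : p.Prime).pos
  set E : Finset V := (Aᶜ).erase a with hE
  have haA : a ∈ Aᶜ := Finset.mem_compl.2 ha
  let W : (E → Fin (p ^ (M - 2 * j))) → V → ℤ := fun w v =>
    if h : v ∈ E then ((w ⟨v, h⟩ : ℕ) : ℤ) else 0
  let Y : (E → Fin (p ^ (M - 2 * j))) → V → ℤ := fun w v => zs v + (p : ℤ) ^ (2 * j) * W w v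
  have hWa : ∀ w, W w a = 0 := fun w => by
    simp only [W, hE, Finset.mem_erase, ne_eq, not_true_eq_false, false_and, dif_neg,
      not_false_eq_true]
  have hWA : ∀ w, ∀ v ∈ A, W w v = 0 := fun w v hv => by
    have : v ∉ E := by
      rw [hE, Finset.mem_erase, Finset.mem_compl]
      exact fun h => h.2 hv
    simp only [W, this, dif_neg, not_false_eq_true]
  have hYa : ∀ w, Y w a = zs a := fun w => by simp only [Y, hWa, mul_zero, add_zero]
  have hYA : ∀ w, ∀ v ∈ A, Y w v = 1 := fun w v hv => by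
    simp only [Y, hWA w v hv, mul_zero, add_zero, hzs v hv]
  have hcast : ∀ (i : ℕ), i ≤ 2 * j → ∀ w v, ((Y w v : ℤ) : ZMod (p ^ i)) = (zs v : ZMod (p ^ i)) := by
    intro i hi w v
    simp only [Y]
    push_cast
    have : ((p : ZMod (p ^ i))) ^ (2 * j) = 0 := by
      have h3 : ((p ^ i : ℕ) : ZMod (p ^ i)) = 0 := ZMod.natCast_self _
      push_cast at h3
      obtain ⟨e, he⟩ := Nat.exists_eq_add_of_le hi
      rw [he, pow_add, h3, zero_mul]
    rw [this, zero_mul, add_zero]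
  have hv1 : ∀ w, (p : ℤ) ^ (2 * j) ∣ val c (Y w) := by
    intro w
    have h3 : ((val c (Y w) : ℤ) : ZMod (p ^ (2 * j))) = ((val c zs : ℤ) : ZMod (p ^ (2 * j))) := by
      have e1 := val_map (Int.castRingHom (ZMod (p ^ (2 * j)))) c (Y w)
      have e2 := val_map (Int.castRingHom (ZMod (p ^ (2 * j)))) c zs
      simp only [Int.coe_castRingHom, eq_intCast] at e1 e2
      rw [e1, e2]
      congr 1
      funext v
      exact hcast _ le_rfl w v
    have h4 : ((val c zs : ℤ) : ZMod (p ^ (2 * j))) = 0 := by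
      rw [ZMod.intCast_zmod_eq_zero_iff_dvd]
      push_cast
      exact h1
    rw [h4, ZMod.intCast_zmod_eq_zero_iff_dvd] at h3
    push_cast at h3
    exact h3
  have hv2 : ∀ w, ¬ (p : ℤ) ^ j ∣ der c a (Y w) := by
    intro w hdv
    apply h2
    have h3 : ((der c a (Y w) : ℤ) : ZMod (p ^ j)) = ((der c a zs : ℤ) : ZMod (p ^ j)) := by
      have e1 := der_map (Int.castRingHom (ZMod (p ^ j))) c a (Y w)
      have e2 := der_map (Int.castRingHom (ZMod (p ^ j))) c a zs
      simp only [Int.coe_castRingHom, eq_intCast] at e1 e2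
      rw [e1, e2]
      congr 1
      funext v
      exact hcast j (by omega) w v
    have h4 : ((der c a (Y w) : ℤ) : ZMod (p ^ j)) = 0 := by
      rw [ZMod.intCast_zmod_eq_zero_iff_dvd]
      push_cast
      exact hdv
    rw [h4] at h3
    have h5 := (ZMod.intCast_zmod_eq_zero_iff_dvd _ _).1 h3.symm
    push_cast at h5
    exact h5
  have hup : ∀ w, Function.update (Y w) a (zs a) = Y w := fun w => by
    rw [← hYa w, Function.update_eq_self]
  have hex : ∀ w, ∃ t : ℤ, (p : ℤ) ^ M ∣ val c (Function.update (Y w) a t) := by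
    intro w
    obtain ⟨t, ht⟩ := hens p (pol c (Y w) a) (zs a) j (by rw [pol_eval, hup]; exact hv1 w)
      (by rw [pol_der, hup]; exact hv2 w) M
    rw [pol_eval] at ht
    exact ⟨t, ht⟩
  choose t ht using hex
  have hcard : (p ^ (M - 2 * j)) ^ ((Aᶜ).card - 1) =
      (Finset.univ : Finset (E → Fin (p ^ (M - 2 * j)))).card := by
    rw [Finset.card_univ, Fintype.card_fun, Fintype.card_fin, Fintype.card_coe, hE,
      Finset.card_erase_of_mem haA]
  rw [hcard]
  refine Finset.card_le_card_of_injOn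
    (fun w v => ((Function.update (Y w) a (t w) v : ℤ) : ZMod (p ^ M))) ?_ ?_
  · intro w _
    rw [Finset.mem_coe, Finset.mem_filter]
    refine ⟨Finset.mem_univ _, Function.update (Y w) a (t w), ?_, ht w, rfl⟩
    intro v hv
    rw [Function.update_of_ne (by rintro rfl; exact ha hv)]
    exact hYA w v hv
  · intro w _ w' _ he
    funext ⟨v, hv⟩
    have hva : v ≠ a := Finset.ne_of_mem_erase hv
    have h3 := congrFun he v
    simp only at h3
    rw [Function.update_of_ne hva, Function.update_of_ne hva] at h3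
    simp only [Y, W, hv, dif_pos] at h3
    push_cast at h3
    have h4 := add_left_cancel h3
    have h5 : (((p ^ (2 * j) * (w ⟨v, hv⟩ : ℕ) : ℕ)) : ZMod (p ^ M)) =
        ((p ^ (2 * j) * (w' ⟨v, hv⟩ : ℕ) : ℕ) : ZMod (p ^ M)) := by
      push_cast
      exact h4
    rw [ZMod.natCast_eq_natCast_iff] at h5
    have hM : p ^ M = p ^ (2 * j) * p ^ (M - 2 * j) := by
      rw [← pow_add]; congr 1; omega
    rw [hM] at h5
    have h6 := Nat.ModEq.mul_left_cancel' (pow_pos hp _).ne' h5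
    have h7 : (w ⟨v, hv⟩ : ℕ) = (w' ⟨v, hv⟩ : ℕ) :=
      Nat.ModEq.eq_of_lt_of_lt h6 (w ⟨v, hv⟩).2 (w' ⟨v, hv⟩).2
    exact Fin.ext h7

end Pool.Agent.T2H40.MB.P
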