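import Pool.Agent.T2H40.MB.Defs
import Pool.Agent.Y716.Q.WA2

/-!
# The polynomial with given coefficients
-/

set_option autoImplicit false

namespace Pool.Agent.T2H40.MB

open MvPolynomial Pool.Agent.Y716.Q

section

variable {V : Type} [Fintype V] [DecidableEq V] {Λ : Finset (V →₀ ℕ)}

/-- the polynomial with the coefficients `c` -/
noncomputable def poly (c : Λ → ℤ) : MvPolynomial V ℤ := ∑ μ : Λ, monomial μ.1 (c μ)

omit [DecidableEq V] in
theorem aeval_poly {R : Type} [CommRing R] (c : Λ → ℤ) (z : V → R) :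
    aeval z (poly c) = val (fun μ => (c μ : R)) z := by
  unfold poly val
  rw [map_sum]
  refine Finset.sum_congr rfl fun μ _ => ?_
  rw [aeval_monomial, Finsupp.prod_fintype _ _ (fun i => pow_zero _)]
  simp

theorem aeval_pderiv_monomial {R : Type} [CommRing R] (μ : V →₀ ℕ) (a : ℤ) (v : V) (z : V → R) :
    aeval z (pderiv v (monomial μ a)) =
      (a : R) * ((μ v : R) * ∏ w, z w ^ (if w = v then μ w - 1 else μ w)) := by
  rw [pderiv_monomial, aeval_monomial, Finsupp.prod_fintype _ _ (fun i => pow_zero _)]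
  have h : ∏ w, z w ^ ((μ - Finsupp.single v 1 : V →₀ ℕ) w) =
      ∏ w, z w ^ (if w = v then μ w - 1 else μ w) := by
    refine Finset.prod_congr rfl fun w _ => ?_
    congr 1
    rw [Finsupp.tsub_apply, Finsupp.single_apply]
    by_cases hw : w = v
    · rw [if_pos hw.symm, if_pos hw]
    · rw [if_neg (fun h => hw h.symm), if_neg hw, Nat.sub_zero]
  rw [h]
  simp
  ring

theorem aeval_pderiv_poly {R : Type} [CommRing R] (c : Λ → ℤ) (v : V) (z : V → R) :
    aeval z (pderiv v (poly c)) = der (fun μ => (c μ : R)) v z := by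
  unfold poly der
  rw [map_sum, map_sum]
  exact Finset.sum_congr rfl fun μ _ => aeval_pderiv_monomial _ _ _ _

omit [Fintype V] in
theorem coeff_poly (c : Λ → ℤ) (m : V →₀ ℕ) :
    (poly c).coeff m = if h : m ∈ Λ then c ⟨m, h⟩ else 0 := by
  unfold poly
  rw [coeff_sum]
  simp only [coeff_monomial]
  split_ifs with h
  · rw [Finset.sum_eq_single (⟨m, h⟩ : Λ)]
    · simp
    · intro b _ hb
      rw [if_neg]
      intro h'
      exact hb (Subtype.ext h')
    · intro h'; exact absurd (Finset.mem_univ _) h'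
  · apply Finset.sum_eq_zero
    intro b _
    rw [if_neg]
    intro h'
    exact h (h' ▸ b.2)

theorem isF_poly {D : ℕ} (hD : ∀ μ ∈ Λ, ∑ v, μ v = D) {c : Λ → ℤ} {R : ℝ} (hR : 0 ≤ R)
    (hc : ∀ μ, |((c μ : ℤ) : ℝ)| ≤ R) : IsF D R (poly c) := by
  refine ⟨?_, fun m => ?_⟩
  · unfold poly
    apply MvPolynomial.IsHomogeneous.sum
    intro μ _
    apply isHomogeneous_monomial
    rw [← hD μ.1 μ.2, Finsupp.degree]
    exact Finset.sum_subset (Finset.subset_univ _) (fun v _ hv => by simpa using hv)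
  · rw [coeff_poly]
    split_ifs with h
    · exact hc _
    · simpa using hR

omit [Fintype V] in
theorem mem_box {H : ℕ} {c : Λ → ℤ} : c ∈ box Λ H ↔ ∀ μ, |c μ| ≤ (H : ℤ) := by
  unfold box
  rw [Fintype.mem_piFinset]
  refine forall_congr' fun μ => ?_
  rw [Finset.mem_Icc, abs_le]

omit [Fintype V] in
theorem card_box (H : ℕ) : (box Λ H).card = (2 * H + 1) ^ Λ.card := by
  unfold box
  rw [Fintype.card_piFinset]
  simp only [Int.card_Icc]
  rw [Finset.prod_const, Finset.card_univ, Fintype.card_coe]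
  congr 1
  omega

end

end Pool.Agent.T2H40.MB
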